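import Pool.Agent.W_MP_63dac5_pr.HeavyLyap

/-!
# Power tails of index smaller than 2 satisfy the criterion
-/

namespace Pool.Agent.W_MP_63dac5_pr

open Finset

/-- `E[min(D, x)] = ∑_{k < x} P(D > k)`. -/
lemma trunc_mean (μ : PMF ℕ) (x : ℕ) :
    ∑' d : ℕ, (μ d).toReal * min (d : ℝ) x =
      ∑ k ∈ range x, ∑' d : ℕ, (if k < d then (μ d).toReal else 0) := by
  have hs : ∀ k : ℕ, Summable (fun d : ℕ => if k < d then (μ d).toReal else 0) := by
    intro k
    have := summable_of_bdd μ (f := fun d => if k < d then (1 : ℝ) else 0) (C := 1)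
      (fun d => by split_ifs <;> norm_num) (fun d => by split_ifs <;> norm_num)
    refine this.congr fun d => ?_
    split_ifs <;> simp
  rw [← Summable.tsum_finsetSum (fun k _ => hs k)]
  refine tsum_congr fun d => ?_
  have h1 : ∑ k ∈ range x, (if k < d then (μ d).toReal else 0) =
      ((range x).filter (fun k => k < d)).card * (μ d).toReal := by
    rw [← Finset.sum_filter, Finset.sum_const, nsmul_eq_mul]
  have h2 : (range x).filter (fun k => k < d) = range (min d x) := by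
    ext k; simp only [Finset.mem_filter, Finset.mem_range]; omega
  rw [h1, h2, Finset.card_range]
  push_cast
  ring

lemma power_tail (μ : PMF ℕ) {α C₁ C₂ : ℝ} (hα : 0 < α) (hα2 : α < 2) (hC₁ : 0 < C₁)
    (htail : ∀ x : ℕ, 1 ≤ x → C₁ * (x : ℝ) ^ (-α) ≤ ∑' d : ℕ, (if x < d then (μ d).toReal else 0) ∧
      ∑' d : ℕ, (if x < d then (μ d).toReal else 0) ≤ C₂ * (x : ℝ) ^ (-α)) :
    ∃ x₀ : ℕ, ∀ x : ℕ, x₀ ≤ x → 5 * ∑' d : ℕ, (μ d).toReal * min (d : ℝ) x ≤
      (x : ℝ) ^ 2 * ∑' d : ℕ, (if x < d then (μ d).toReal else 0) := by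
  set τ : ℕ → ℝ := fun x => ∑' d : ℕ, (if x < d then (μ d).toReal else 0) with hτ
  set γ : ℝ := (2 - α) / 2 with hγ
  have hγ0 : 0 < γ := by rw [hγ]; linarith
  have hγ1 : γ < 1 := by rw [hγ]; linarith
  have hC₂ : 0 < C₂ := by
    have := htail 1 le_rfl
    simp only [Nat.cast_one, Real.one_rpow, mul_one] at this
    linarith
  -- the series
  have hZ : Summable (fun k : ℕ => ((k : ℝ) ^ (2 - γ))⁻¹) :=
    Real.summable_nat_rpow_inv.2 (by linarith)
  set Z : ℝ := ∑' k : ℕ, ((k : ℝ) ^ (2 - γ))⁻¹ with hZdef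
  have hZ0 : 0 ≤ Z := tsum_nonneg fun k => by positivity
  have hτ0 : τ 0 ≤ 1 := by
    rw [← tsum_pmf μ]
    refine Summable.tsum_le_tsum (fun d => ?_) ?_ (summable_pmf μ)
    · split_ifs <;> simp
    · have := summable_of_bdd μ (f := fun d => if 0 < d then (1 : ℝ) else 0) (C := 1)
        (fun d => by split_ifs <;> norm_num) (fun d => by split_ifs <;> norm_num)
      refine this.congr fun d => ?_
      split_ifs <;> simp
  have hmean : ∀ x : ℕ, 1 ≤ x → ∑' d : ℕ, (μ d).toReal * min (d : ℝ) x ≤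
      1 + C₂ * Z * (x : ℝ) ^ γ := by
    intro x hx
    rw [trunc_mean]
    have hx0 : (0 : ℝ) < x := by exact_mod_cast hx
    have hterm : ∀ k ∈ range x, τ k ≤ (if k = 0 then 1 else 0) +
        C₂ * (x : ℝ) ^ γ * ((k : ℝ) ^ (2 - γ))⁻¹ := by
      intro k hk
      rw [Finset.mem_range] at hk
      split_ifs with h0
      · subst h0
        have : 0 ≤ C₂ * (x : ℝ) ^ γ * (((0 : ℕ) : ℝ) ^ (2 - γ))⁻¹ := by positivity
        linarith
      · have hk1 : 1 ≤ k := Nat.one_le_iff_ne_zero.2 h0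
        have hk0 : (0 : ℝ) < k := by exact_mod_cast hk1
        have h1 := (htail k hk1).2
        have h2 : (k : ℝ) ^ (-α) = (k : ℝ) ^ γ * ((k : ℝ) ^ (2 - γ))⁻¹ := by
          rw [← Real.rpow_neg hk0.le, ← Real.rpow_add hk0]
          congr 1
          rw [hγ]; ring
        have h3 : (k : ℝ) ^ γ ≤ (x : ℝ) ^ γ :=
          Real.rpow_le_rpow hk0.le (by exact_mod_cast hk.le) hγ0.le
        have h4 : 0 ≤ ((k : ℝ) ^ (2 - γ))⁻¹ := by positivity
        calc τ k ≤ C₂ * (k : ℝ) ^ (-α) := h1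
          _ = C₂ * ((k : ℝ) ^ γ * ((k : ℝ) ^ (2 - γ))⁻¹) := by rw [h2]
          _ ≤ C₂ * ((x : ℝ) ^ γ * ((k : ℝ) ^ (2 - γ))⁻¹) := by
              apply mul_le_mul_of_nonneg_left _ hC₂.le
              exact mul_le_mul_of_nonneg_right h3 h4
          _ = _ := by ring
    calc ∑ k ∈ range x, τ k ≤ ∑ k ∈ range x, ((if k = 0 then (1 : ℝ) else 0) +
        C₂ * (x : ℝ) ^ γ * ((k : ℝ) ^ (2 - γ))⁻¹) := Finset.sum_le_sum hterm
      _ = 1 + C₂ * (x : ℝ) ^ γ * ∑ k ∈ range x, ((k : ℝ) ^ (2 - γ))⁻¹ := by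
          rw [Finset.sum_add_distrib, ← Finset.mul_sum, Finset.sum_ite_eq' (range x) 0,
            if_pos (by simpa using Nat.lt_of_lt_of_le Nat.one_pos hx)]
      _ ≤ 1 + C₂ * (x : ℝ) ^ γ * Z := by
          gcongr
          exact hZ.sum_le_tsum _ fun k _ => by positivity
      _ = _ := by ring
  -- large x
  have hlim : Filter.Tendsto (fun x : ℕ => (x : ℝ) ^ γ) Filter.atTop Filter.atTop :=
    (tendsto_rpow_atTop hγ0).comp tendsto_natCast_atTop_atTop
  obtain ⟨x₀, hx₀⟩ := Filter.eventually_atTop.1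
    (hlim.eventually_ge_atTop (max 1 (5 * (1 + C₂ * Z) / C₁)))
  refine ⟨max x₀ 1, fun x hx => ?_⟩
  have hx1 : 1 ≤ x := le_trans (le_max_right _ _) hx
  have hx0 : (0 : ℝ) < x := by exact_mod_cast hx1
  have h1 := hx₀ x (le_trans (le_max_left _ _) hx)
  set y : ℝ := (x : ℝ) ^ γ with hy
  have hy1 : 1 ≤ y := le_trans (le_max_left _ _) h1
  have hy2 : 5 * (1 + C₂ * Z) / C₁ ≤ y := le_trans (le_max_right _ _) h1
  rw [div_le_iff₀ hC₁] at hy2
  have h2 := hmean x hx1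
  have h3 := (htail x hx1).1
  have h4 : (x : ℝ) ^ 2 * (C₁ * (x : ℝ) ^ (-α)) = C₁ * (y * y) := by
    have : (x : ℝ) ^ 2 * (x : ℝ) ^ (-α) = y * y := by
      rw [hy, ← Real.rpow_natCast, ← Real.rpow_add hx0, ← Real.rpow_add hx0]
      congr 1
      push_cast
      rw [hγ]; ring
    rw [← this]; ring
  have hCZ : 0 ≤ C₂ * Z := by positivity
  calc 5 * ∑' d : ℕ, (μ d).toReal * min (d : ℝ) x ≤ 5 * (1 + C₂ * Z * y) := by gcongr
    _ ≤ 5 * (1 + C₂ * Z) * y := by nlinarith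
    _ ≤ y * C₁ * y := by nlinarith
    _ = (x : ℝ) ^ 2 * (C₁ * (x : ℝ) ^ (-α)) := by rw [h4]; ring
    _ ≤ _ := by gcongr

end Pool.Agent.W_MP_63dac5_pr
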