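import Mathlib

/-!
# Expectations over finitely many independent marks
-/

namespace Pool.Agent.W_MP_63dac5_pr

open MeasureTheory ProbabilityTheory ENNReal

variable {α : Type*}

/-- expectation of a function of `n` independent marks of law `ν`. -/
noncomputable def Ex (ν : α → ℝ≥0∞) : ℕ → (List α → ℝ≥0∞) → ℝ≥0∞
  | 0, f => f []
  | n + 1, f => ∑' a, ν a * Ex ν n (fun w => f (a :: w))

/-- the first `n` terms of a sequence. -/
def pre (y : ℕ → α) : ℕ → List α
  | 0 => []
  | n + 1 => y 0 :: pre (fun k => y (k + 1)) n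

lemma pre_length (y : ℕ → α) (n : ℕ) : (pre y n).length = n := by
  induction n generalizing y with
  | zero => rfl
  | succ n ih => simp [pre, ih]

lemma pre_congr {y y' : ℕ → α} {n : ℕ} (h : ∀ k, k < n → y k = y' k) : pre y n = pre y' n := by
  induction n generalizing y y' with
  | zero => rfl
  | succ n ih =>
    simp only [pre]
    rw [h 0 (by omega), ih (fun k hk => h (k + 1) (by omega))]

lemma pre_add (y : ℕ → α) (m n : ℕ) : pre y (m + n) = pre y m ++ pre (fun k => y (m + k)) n := by
  induction m generalizing y with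
  | zero => simp [pre]
  | succ m ih =>
    rw [Nat.succ_add]
    simp only [pre, ih, List.cons_append]
    congr 2
    refine pre_congr fun k _ => ?_
    congr 1
    omega

lemma pre_map {β : Type*} (g : α → β) (y : ℕ → α) (n : ℕ) :
    pre (fun k => g (y k)) n = (pre y n).map g := by
  induction n generalizing y with
  | zero => rfl
  | succ n ih => simp [pre, ← ih]

lemma Ex_mono (ν : α → ℝ≥0∞) (n : ℕ) {f g : List α → ℝ≥0∞} (h : ∀ w, w.length = n → f w ≤ g w) :
    Ex ν n f ≤ Ex ν n g := by
  induction n generalizing f g with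
  | zero => exact h [] rfl
  | succ n ih =>
    refine ENNReal.tsum_le_tsum fun a => ?_
    gcongr
    exact ih fun w hw => h _ (by simp [hw])

lemma Ex_congr (ν : α → ℝ≥0∞) (n : ℕ) {f g : List α → ℝ≥0∞} (h : ∀ w, w.length = n → f w = g w) :
    Ex ν n f = Ex ν n g :=
  le_antisymm (Ex_mono ν n fun w hw => (h w hw).le) (Ex_mono ν n fun w hw => (h w hw).ge)

lemma Ex_mul_left (ν : α → ℝ≥0∞) (n : ℕ) (c : ℝ≥0∞) (f : List α → ℝ≥0∞) :
    Ex ν n (fun w => c * f w) = c * Ex ν n f := by
  induction n generalizing f with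
  | zero => rfl
  | succ n ih =>
    simp only [Ex, ih]
    rw [← ENNReal.tsum_mul_left]
    exact tsum_congr fun a => by ring

lemma Ex_append (ν : α → ℝ≥0∞) (m n : ℕ) (f : List α → ℝ≥0∞) :
    Ex ν (m + n) f = Ex ν m (fun u => Ex ν n (fun v => f (u ++ v))) := by
  induction m generalizing f with
  | zero => simp [Ex]
  | succ m ih =>
    rw [Nat.succ_add]
    simp only [Ex, ih, List.cons_append]

lemma Ex_append_mul (ν : α → ℝ≥0∞) (m n : ℕ) (f g : List α → ℝ≥0∞) :
    Ex ν (m + n) (fun w => f (w.take m) * g (w.drop m)) = Ex ν m f * Ex ν n g := by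
  rw [Ex_append]
  have : Ex ν m (fun u => Ex ν n (fun v => f ((u ++ v).take m) * g ((u ++ v).drop m))) =
      Ex ν m (fun u => f u * Ex ν n g) := by
    refine Ex_congr ν m fun u hu => ?_
    have e : ∀ v : List α, f ((u ++ v).take m) * g ((u ++ v).drop m) = f u * g v := by
      intro v
      rw [List.take_append_of_le_length (by omega), List.take_of_length_le (by omega),
        List.drop_append_of_le_length (by omega), List.drop_of_length_le (by omega)]
      simp
    simp only [e]
    rw [Ex_mul_left]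
  rw [this]
  have e2 : (fun u => f u * Ex ν n g) = (fun u => Ex ν n g * f u) := by
    funext u; ring
  rw [e2, Ex_mul_left, mul_comm]

lemma Ex_map (ν : α → ℝ≥0∞) (e : α ≃ α) (he : ∀ a, ν (e a) = ν a) (n : ℕ) (f : List α → ℝ≥0∞) :
    Ex ν n (fun w => f (w.map e)) = Ex ν n f := by
  induction n generalizing f with
  | zero => rfl
  | succ n ih =>
    simp only [Ex, List.map_cons]
    rw [← e.tsum_eq (fun a => ν a * Ex ν n (fun w => f (a :: w)))]
    refine tsum_congr fun a => ?_
    rw [he a]
    congr 1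
    exact ih (fun w => f (e a :: w))

lemma Ex_one (ν : α → ℝ≥0∞) (hν : ∑' a, ν a = 1) (n : ℕ) : Ex ν n (fun _ => 1) = 1 := by
  induction n with
  | zero => rfl
  | succ n ih => simp only [Ex, ih, mul_one, hν]

lemma Ex_eq_tsum (ν : α → ℝ≥0∞) (n : ℕ) (f : List α → ℝ≥0∞) :
    Ex ν n f = ∑' w : Fin n → α, f (List.ofFn w) * ∏ k, ν (w k) := by
  induction n generalizing f with
  | zero => simp [Ex]
  | succ n ih =>
    simp only [Ex, ih]
    rw [← (Fin.consEquiv (fun _ : Fin (n + 1) => α)).tsum_eq, ENNReal.tsum_prod']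
    refine tsum_congr fun a => ?_
    rw [← ENNReal.tsum_mul_left]
    refine tsum_congr fun w => ?_
    simp only [Fin.consEquiv_apply, List.ofFn_succ, Fin.prod_univ_succ, Fin.cons_zero,
      Fin.cons_succ]
    ring

lemma pre_eq_ofFn (y : ℕ → α) (n : ℕ) : pre y n = List.ofFn (fun k : Fin n => y k) := by
  induction n generalizing y with
  | zero => simp [pre]
  | succ n ih =>
    simp only [pre, ih, List.ofFn_succ]
    rfl

variable {Ω : Type*} [MeasurableSpace Ω] {P : Measure Ω}
variable [Countable α] [MeasurableSpace α] [MeasurableSingletonClass α]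

lemma lintegral_eq_Ex {ι : Type*} [IsProbabilityMeasure P] {X : ι → Ω → α} (hX : ∀ i, Measurable (X i))
    (hind : iIndepFun X P) {ν : α → ℝ≥0∞} (hν : ∀ i a, P (X i ⁻¹' {a}) = ν a)
    (σ : ℕ → ι) (n : ℕ) (hσ : ∀ i j, i < n → j < n → σ i = σ j → i = j) (f : List α → ℝ≥0∞) :
    ∫⁻ ω, f (pre (fun k => X (σ k) ω) n) ∂P = Ex ν n f := by
  classical
  set Z : Ω → (Fin n → α) := fun ω k => X (σ k) ω with hZ
  have hZm : Measurable Z := measurable_pi_lambda _ fun k => hX _
  have hgm : Measurable (fun w : Fin n → α => f (List.ofFn w)) := measurable_of_countable _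
  have h1 : ∫⁻ ω, f (pre (fun k => X (σ k) ω) n) ∂P = ∫⁻ w, f (List.ofFn w) ∂(P.map Z) := by
    rw [lintegral_map hgm hZm]
    refine lintegral_congr fun ω => ?_
    rw [pre_eq_ofFn]
  rw [h1, lintegral_countable', Ex_eq_tsum]
  refine tsum_congr fun w => ?_
  congr 1
  rw [Measure.map_apply hZm (measurableSet_singleton w)]
  have hinj : Function.Injective (fun k : Fin n => σ k) := by
    intro i j hij
    exact Fin.ext (hσ i j i.2 j.2 hij)
  have hset : Z ⁻¹' {w} = ⋂ k ∈ (Finset.univ : Finset (Fin n)), X (σ k) ⁻¹' {w k} := by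
    ext ω
    simp only [hZ, Set.mem_preimage, Set.mem_singleton_iff, Set.mem_iInter, Finset.mem_univ,
      forall_const, funext_iff]
  rw [hset, (hind.precomp hinj).measure_inter_preimage_eq_mul Finset.univ
    (fun k _ => measurableSet_singleton (w k))]
  exact Finset.prod_congr rfl fun k _ => hν _ _

/-- probability form. -/
lemma measure_eq_Ex {ι : Type*} [IsProbabilityMeasure P] {X : ι → Ω → α} (hX : ∀ i, Measurable (X i))
    (hind : iIndepFun X P) {ν : α → ℝ≥0∞} (hν : ∀ i a, P (X i ⁻¹' {a}) = ν a)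
    (σ : ℕ → ι) (n : ℕ) (hσ : ∀ i j, i < n → j < n → σ i = σ j → i = j) (A : List α → Prop)
    [DecidablePred A] :
    P {ω | A (pre (fun k => X (σ k) ω) n)} = Ex ν n (fun w => if A w then 1 else 0) := by
  classical
  rw [← lintegral_eq_Ex hX hind hν σ n hσ]
  have hm : MeasurableSet {ω | A (pre (fun k => X (σ k) ω) n)} := by
    have hZm : Measurable (fun ω (k : Fin n) => X (σ k) ω) := measurable_pi_lambda _ fun k => hX _
    have : {ω | A (pre (fun k => X (σ k) ω) n)} =
        (fun ω (k : Fin n) => X (σ k) ω) ⁻¹' {w | A (List.ofFn w)} := by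
      ext ω
      simp only [Set.mem_ofPred_eq, Set.mem_preimage, pre_eq_ofFn]
    rw [this]
    exact hZm (Set.to_countable _).measurableSet
  rw [← lintegral_indicator_one hm]
  refine lintegral_congr fun ω => ?_
  simp only [Set.indicator_apply, Set.mem_ofPred_eq, Pi.one_apply]

end Pool.Agent.W_MP_63dac5_pr
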