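import Pool.Agent.W_MP_63dac5_pr.Avg
import Pool.Agent.W_MP_63dac5_pr.Prob

/-!
# The killed walk and its quadratic Lyapunov function
-/

namespace Pool.Agent.W_MP_63dac5_pr

open Finset ENNReal

/-- The killed walk survives: from height `h`, the mark `(l, r)` is survived when `l ≤ h`,
and then the new height is `h - l + r`. -/
def alive : ℕ → List (ℕ × ℕ) → Prop
  | _, [] => True
  | h, a :: w => a.1 ≤ h ∧ alive (h - a.1 + a.2) w

open Classical in
/-- survival probability for `n` steps, from height `h`. -/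
noncomputable def Sv (ν : ℕ × ℕ → ℝ≥0∞) (n h : ℕ) : ℝ≥0∞ :=
  Ex ν n (fun w => if alive h w then 1 else 0)

lemma Sv_zero (ν : ℕ × ℕ → ℝ≥0∞) (h : ℕ) : Sv ν 0 h = 1 := by
  classical
  simp [Sv, Ex, alive]

lemma Sv_succ (ν : ℕ × ℕ → ℝ≥0∞) (n h : ℕ) :
    Sv ν (n + 1) h = ∑' a : ℕ × ℕ, ν a * (if a.1 ≤ h then Sv ν n (h - a.1 + a.2) else 0) := by
  classical
  unfold Sv
  simp only [Ex, alive]
  refine tsum_congr fun a => ?_
  by_cases ha : a.1 ≤ h
  · simp only [ha, true_and, if_true]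
  · simp only [ha, false_and, if_false]
    have : Ex ν n (fun _ => (0 : ℝ≥0∞)) = 0 := by
      have := Ex_mul_left ν n 0 (fun _ => 0)
      simpa using this
    rw [this]

lemma sum_Sv_le (ν : ℕ × ℕ → ℝ≥0∞) (g : ℕ → ℝ≥0∞)
    (hg : ∀ h, ∑' a : ℕ × ℕ, ν a * (if a.1 ≤ h then g (h - a.1 + a.2) else 0) + 1 ≤ g h)
    (N h : ℕ) : ∑ n ∈ range N, Sv ν n h ≤ g h := by
  induction N generalizing h with
  | zero => simp
  | succ N ih =>
    rw [Finset.sum_range_succ', Sv_zero]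
    refine le_trans ?_ (hg h)
    gcongr
    simp only [Sv_succ]
    rw [← Summable.tsum_finsetSum (fun _ _ => ENNReal.summable)]
    refine ENNReal.tsum_le_tsum fun a => ?_
    rw [← Finset.mul_sum]
    gcongr
    split_ifs with ha
    · exact ih _
    · simp

lemma tsum_Sv_le (ν : ℕ × ℕ → ℝ≥0∞) (g : ℕ → ℝ≥0∞)
    (hg : ∀ h, ∑' a : ℕ × ℕ, ν a * (if a.1 ≤ h then g (h - a.1 + a.2) else 0) + 1 ≤ g h)
    (h : ℕ) : ∑' n, Sv ν n h ≤ g h := by
  rw [ENNReal.tsum_eq_iSup_nat]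
  exact iSup_le fun N => sum_Sv_le ν g hg N h

lemma alive_pre {y : ℕ → ℕ × ℕ} {h n : ℕ}
    (H : ∀ k, k < n → ∑ i ∈ range (k + 1), (y i).1 ≤ h + ∑ i ∈ range k, (y i).2) :
    alive h (pre y n) := by
  induction n generalizing y h with
  | zero => trivial
  | succ n ih =>
    have h0 : (y 0).1 ≤ h := by simpa using H 0 (by omega)
    refine ⟨h0, ih ?_⟩
    intro k hk
    have h1 := H (k + 1) (by omega)
    have h2 : ∑ i ∈ range (k + 1 + 1), (y i).1 = ∑ i ∈ range (k + 1), (y (i + 1)).1 + (y 0).1 :=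
      Finset.sum_range_succ' _ _
    have h3 : ∑ i ∈ range (k + 1), (y i).2 = ∑ i ∈ range k, (y (i + 1)).2 + (y 0).2 :=
      Finset.sum_range_succ' _ _
    omega

section Lyap

variable (μ : PMF ℕ)

lemma summable_pmf : Summable (fun d => (μ d).toReal) :=
  ENNReal.summable_toReal (by rw [μ.tsum_coe]; exact ENNReal.one_ne_top)

lemma tsum_pmf : ∑' d, (μ d).toReal = 1 := by
  rw [← ENNReal.tsum_toReal_eq (fun d => μ.apply_ne_top d), μ.tsum_coe]
  simp

lemma summable_of_bdd {f : ℕ → ℝ} {C : ℝ} (h0 : ∀ d, 0 ≤ f d) (hC : ∀ d, f d ≤ C) :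
    Summable (fun d => (μ d).toReal * f d) := by
  refine Summable.of_nonneg_of_le (fun d => mul_nonneg ENNReal.toReal_nonneg (h0 d))
    (fun d => ?_) ((summable_pmf μ).mul_right C)
  exact mul_le_mul_of_nonneg_left (hC d) ENNReal.toReal_nonneg

/-- The average of the square of the new height, restricted to few left stubs. -/
lemma Av_large {K : ℝ} (hK : 2 < K) {z A d : ℕ} (hd : K * z ≤ d) (hd0 : 0 < d) :
    Av d (fun a => if a.1 ≤ z then (((z - a.1 + a.2 : ℕ) : ℝ) + A) ^ 2 else 0) ≤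
      2 * ((z : ℝ) + A) ^ 2 / ((1 - 2 / K) ^ 2 * d) + 6 / (1 - 2 / K) ^ 2 := by
  set κ : ℝ := 1 - 2 / K with hκ
  have hK0 : 0 < K := by linarith
  have hκ0 : 0 < κ := by
    rw [hκ, sub_pos, div_lt_one hK0]
    exact hK
  have hdR : (0 : ℝ) < d := by exact_mod_cast hd0
  set s : ℝ := (z : ℝ) + A with hs
  have hstep : Av d (fun a => if a.1 ≤ z then (((z - a.1 + a.2 : ℕ) : ℝ) + A) ^ 2 else 0) ≤
      Av d (fun a => (2 * s ^ 2 / (κ * d) ^ 2) * ((a.2 : ℝ) - a.1) ^ 2 +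
        (2 / (κ * d) ^ 2) * ((a.2 : ℝ) - a.1) ^ 4) := by
    refine Av_mono fun a ha => ?_
    set ξ : ℝ := (a.2 : ℝ) - a.1 with hξ
    split_ifs with h
    · have e1 : (((z - a.1 + a.2 : ℕ) : ℝ) + A) = s + ξ := by
        push_cast [Nat.cast_sub h]
        rw [hs, hξ]; ring
      rw [e1]
      have hz : (a.1 : ℝ) ≤ z := by exact_mod_cast h
      have ha' : (a.1 : ℝ) + a.2 = d := by exact_mod_cast ha
      have h1 : κ * d ≤ ξ := by
        have h2 : 2 * (a.1 : ℝ) ≤ 2 / K * d := by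
          have : (z : ℝ) ≤ d / K := by rw [le_div_iff₀ hK0]; linarith
          calc 2 * (a.1 : ℝ) ≤ 2 * (d / K) := by linarith
            _ = 2 / K * d := by ring
        have h3 : ξ = d - 2 * a.1 := by rw [hξ, ← ha']; ring
        rw [h3, hκ]
        linarith
      have hκd : 0 < κ * d := by positivity
      have h4 : 1 ≤ ξ ^ 2 / (κ * d) ^ 2 := by
        rw [one_le_div (by positivity)]
        exact pow_le_pow_left₀ hκd.le h1 2
      have h5 : (s + ξ) ^ 2 ≤ 2 * s ^ 2 + 2 * ξ ^ 2 := by nlinarith [sq_nonneg (s - ξ)]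
      calc (s + ξ) ^ 2 ≤ (2 * s ^ 2 + 2 * ξ ^ 2) * 1 := by rw [mul_one]; exact h5
        _ ≤ (2 * s ^ 2 + 2 * ξ ^ 2) * (ξ ^ 2 / (κ * d) ^ 2) :=
            mul_le_mul_of_nonneg_left h4 (by positivity)
        _ = _ := by ring
    · positivity
  refine hstep.trans ?_
  rw [Av_add, Av_mul_left, Av_mul_left, Av_sq]
  have h6 := Av_four d
  have h7 : (2 / (κ * d) ^ 2) * Av d (fun a => ((a.2 : ℝ) - a.1) ^ 4) ≤
      (2 / (κ * d) ^ 2) * (3 * (d : ℝ) ^ 2) := mul_le_mul_of_nonneg_left h6 (by positivity)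
  have h8 : (2 / (κ * d) ^ 2) * (3 * (d : ℝ) ^ 2) = 6 / κ ^ 2 := by field_simp; ring
  have h9 : (2 * s ^ 2 / (κ * d) ^ 2) * (d : ℝ) = 2 * s ^ 2 / (κ ^ 2 * d) := by field_simp
  linarith

/-- The average of the square of the new height. -/
lemma Av_small (z A d : ℕ) :
    Av d (fun a => if a.1 ≤ z then (((z - a.1 + a.2 : ℕ) : ℝ) + A) ^ 2 else 0) ≤
      ((z : ℝ) + A) ^ 2 + d := by
  have h1 := Ad_sq d ((z : ℤ) + A)
  unfold Ad at h1
  push_cast at h1
  rw [← h1]
  refine Av_mono fun a ha => ?_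
  split_ifs with h
  · refine le_of_eq ?_
    push_cast [Nat.cast_sub h]
    ring
  · positivity

lemma heavy_lyap (h0 : μ 0 = 0) {c : ℝ} (hc : 4 < c) {x₀ : ℕ}
    (hheavy : ∀ x : ℕ, x₀ ≤ x → c * ∑' d : ℕ, (μ d).toReal * min (d : ℝ) x ≤
      (x : ℝ) ^ 2 * ∑' d : ℕ, if x < d then (μ d).toReal else 0) :
    ∃ (A : ℕ) (B : ℝ), ∀ z : ℕ,
      ∑' a : ℕ × ℕ, nu μ a * (if a.1 ≤ z then
        ENNReal.ofReal (B * (((z - a.1 + a.2 : ℕ) : ℝ) + A) ^ 2) else 0) + 1 ≤
      ENNReal.ofReal (B * ((z : ℝ) + A) ^ 2) := by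
  -- the constants
  set K : ℝ := Real.sqrt ((c + 4) / 2) with hKdef
  have hK2 : K ^ 2 = (c + 4) / 2 := Real.sq_sqrt (by linarith)
  have hK : 2 < K := by
    rw [hKdef]
    rw [Real.lt_sqrt (by norm_num)]
    linarith
  have hK0 : 0 < K := by linarith
  set κ : ℝ := 1 - 2 / K with hκ
  have hκ0 : 0 < κ := by
    rw [hκ, sub_pos, div_lt_one hK0]
    exact hK
  set η : ℝ := c / K ^ 2 - 1 with hη
  have hη0 : 0 < η := by
    rw [hη, sub_pos, one_lt_div (by positivity), hK2]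
    linarith
  set δ : ℝ := η / (2 * (1 + η)) with hδ
  have hδ0 : 0 < δ := by positivity
  have hδ1 : δ ≤ 1 := by
    rw [hδ, div_le_one (by positivity)]
    linarith
  have hδη : (1 - δ) * (c / K ^ 2) = 1 + η / 2 := by
    have : c / K ^ 2 = 1 + η := by rw [hη]; ring
    rw [this, hδ]
    field_simp
    ring
  obtain ⟨M, hM⟩ := exists_nat_ge (max (4 / (κ ^ 2 * δ)) ((x₀ : ℝ) + 1))
  have hM1 : 4 / (κ ^ 2 * δ) ≤ M := le_trans (le_max_left _ _) hM
  have hM2 : (x₀ : ℝ) + 1 ≤ M := le_trans (le_max_right _ _) hM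
  have hM3 : x₀ + 1 ≤ M := by exact_mod_cast hM2
  have hMpos : (0 : ℝ) < M := by
    have : (0 : ℝ) ≤ x₀ := by positivity
    linarith
  obtain ⟨A, hA⟩ := exists_nat_ge (max (12 / (κ ^ 2 * δ)) ((M : ℝ) + 1))
  have hA1 : 12 / (κ ^ 2 * δ) ≤ A := le_trans (le_max_left _ _) hA
  have hA2 : (M : ℝ) + 1 ≤ A := le_trans (le_max_right _ _) hA
  have hApos : (1 : ℝ) ≤ A := by linarith
  refine ⟨A, 2 / η, fun z => ?_⟩
  set B : ℝ := 2 / η with hB
  have hB0 : 0 < B := by positivity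
  set s : ℝ := (z : ℝ) + A with hs
  have hzR : (0 : ℝ) ≤ z := by positivity
  have hsA : (A : ℝ) ≤ s := by rw [hs]; linarith
  set x : ℕ := ⌈K * z⌉₊ + M with hx
  have hx1 : K * z ≤ x := by
    rw [hx]; push_cast
    have := Nat.le_ceil (K * z)
    linarith
  have hx2 : (x : ℝ) ≤ K * s := by
    rw [hx]; push_cast
    have := Nat.ceil_lt_add_one (show (0 : ℝ) ≤ K * z by positivity)
    rw [hs]
    nlinarith
  have hx3 : x₀ ≤ x := by omega
  have hx4 : 1 ≤ x := by omega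
  have hxM : (M : ℝ) ≤ x := by
    have : M ≤ x := by omega
    exact_mod_cast this
  -- bound of the averages
  set φ : ℕ × ℕ → ℝ := fun a => if a.1 ≤ z then (((z - a.1 + a.2 : ℕ) : ℝ) + A) ^ 2 else 0 with hφ
  have hφ0 : ∀ a, 0 ≤ φ a := fun a => by
    simp only [hφ]; split_ifs <;> positivity
  set β : ℕ → ℝ := fun d => s ^ 2 + min (d : ℝ) x - (1 - δ) * s ^ 2 * (if x < d then 1 else 0)
    with hβ
  have hAv : ∀ d, Av d φ ≤ β d := by
    intro d
    by_cases hdx : x < d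
    · have hd0 : 0 < d := by omega
      have hdR : (0 : ℝ) < d := by exact_mod_cast hd0
      have hxd : (x : ℝ) ≤ d := by exact_mod_cast hdx.le
      have h1 := Av_large hK (z := z) (A := A) (d := d) (by linarith) hd0
      rw [← hκ, ← hs] at h1
      have h2 : 2 * s ^ 2 / (κ ^ 2 * d) ≤ δ / 2 * s ^ 2 := by
        rw [div_le_iff₀ (by positivity)]
        have h3 : 4 / (κ ^ 2 * δ) ≤ d := by linarith
        rw [div_le_iff₀ (by positivity)] at h3
        nlinarith [sq_nonneg s]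
      have h3 : 6 / κ ^ 2 ≤ δ / 2 * s ^ 2 := by
        rw [div_le_iff₀ (by positivity)]
        rw [div_le_iff₀ (by positivity)] at hA1
        have h4 : (A : ℝ) ≤ s ^ 2 := by nlinarith
        have h5 : A * (κ ^ 2 * δ) ≤ s ^ 2 * (κ ^ 2 * δ) :=
          mul_le_mul_of_nonneg_right h4 (by positivity)
        nlinarith
      have h6 : min (d : ℝ) x = x := min_eq_right hxd
      simp only [hβ, if_pos hdx, h6, mul_one]
      have h7 : (0 : ℝ) ≤ x := by positivity
      calc Av d φ ≤ 2 * s ^ 2 / (κ ^ 2 * d) + 6 / κ ^ 2 := h1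
        _ ≤ s ^ 2 + x - (1 - δ) * s ^ 2 := by nlinarith
    · have h1 := Av_small z A d
      rw [← hs] at h1
      have hdx' : (d : ℝ) ≤ x := by exact_mod_cast not_lt.1 hdx
      simp only [hβ, if_neg hdx, min_eq_left hdx', mul_zero, sub_zero]
      exact h1
  have hβ0 : ∀ d, 0 ≤ β d := fun d => (Av_nonneg fun a _ => hφ0 a).trans (hAv d)
  -- the sum
  set m : ℕ → ℝ := fun d => (μ d).toReal with hm
  have hm0 : ∀ d, 0 ≤ m d := fun d => ENNReal.toReal_nonneg
  have hs1 : Summable (fun d => m d * min (d : ℝ) x) :=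
    summable_of_bdd μ (C := x) (fun d => by positivity) (fun d => min_le_right _ _)
  have hs2 : Summable (fun d => m d * (if x < d then (1 : ℝ) else 0)) :=
    summable_of_bdd μ (C := 1) (fun d => by split_ifs <;> norm_num)
      (fun d => by split_ifs <;> norm_num)
  set W : ℝ := ∑' d : ℕ, m d * min (d : ℝ) x with hW
  set T : ℝ := ∑' d : ℕ, m d * (if x < d then (1 : ℝ) else 0) with hT
  have hTeq : (∑' d : ℕ, if x < d then (μ d).toReal else 0) = T := by
    rw [hT]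
    refine tsum_congr fun d => ?_
    split_ifs <;> simp [hm]
  have hsum : HasSum (fun d => m d * β d) (s ^ 2 + W - (1 - δ) * s ^ 2 * T) := by
    have e : (fun d => m d * β d) = fun d => m d * s ^ 2 + m d * min (d : ℝ) x -
        (1 - δ) * s ^ 2 * (m d * (if x < d then (1 : ℝ) else 0)) := by
      funext d; simp only [hβ]; ring
    rw [e]
    have h1 : HasSum (fun d => m d * s ^ 2) (s ^ 2) := by
      have := ((summable_pmf μ).hasSum).mul_right (s ^ 2)
      rw [tsum_pmf, one_mul] at this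
      exact this
    exact (h1.add hs1.hasSum).sub (hs2.hasSum.mul_left _)
  have hW1 : 1 ≤ W := by
    rw [hW, ← tsum_pmf μ]
    refine Summable.tsum_le_tsum (fun d => ?_) (summable_pmf μ) hs1
    rcases Nat.eq_zero_or_pos d with rfl | hd
    · simp [h0]
    · have h1 : (1 : ℝ) ≤ min (d : ℝ) x := le_min (by exact_mod_cast hd) (by exact_mod_cast hx4)
      have := hm0 d
      simp only [hm] at this ⊢
      nlinarith
  have hmain : s ^ 2 + W - (1 - δ) * s ^ 2 * T ≤ s ^ 2 - η / 2 := by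
    have h1 := hheavy x hx3
    rw [hTeq] at h1
    have h1' : c * W ≤ (x : ℝ) ^ 2 * T := h1
    have hT0 : 0 ≤ T := tsum_nonneg fun d => by
      have := hm0 d
      split_ifs <;> simp [this]
    have h2 : (x : ℝ) ^ 2 ≤ K ^ 2 * s ^ 2 := by
      rw [← mul_pow]
      exact pow_le_pow_left₀ (by positivity) hx2 2
    have h3 : c * W ≤ K ^ 2 * s ^ 2 * T :=
      h1'.trans (mul_le_mul_of_nonneg_right h2 hT0)
    have h4 : c / K ^ 2 * W ≤ s ^ 2 * T := by
      rw [div_mul_eq_mul_div, div_le_iff₀ (by positivity)]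
      linarith
    have h5 : (1 - δ) * (c / K ^ 2 * W) ≤ (1 - δ) * (s ^ 2 * T) :=
      mul_le_mul_of_nonneg_left h4 (by linarith)
    have h6 : (1 - δ) * (c / K ^ 2 * W) = (1 + η / 2) * W := by rw [← hδη]; ring
    have h7 : (1 + η / 2) * W ≤ (1 - δ) * s ^ 2 * T := by rw [← h6]; linarith
    nlinarith
  -- conclusion
  have hconv : ∑' a : ℕ × ℕ, nu μ a * (if a.1 ≤ z then
        ENNReal.ofReal (B * (((z - a.1 + a.2 : ℕ) : ℝ) + A) ^ 2) else 0) ≤
      ENNReal.ofReal (B * (s ^ 2 - η / 2)) := by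
    calc ∑' a : ℕ × ℕ, nu μ a * (if a.1 ≤ z then
        ENNReal.ofReal (B * (((z - a.1 + a.2 : ℕ) : ℝ) + A) ^ 2) else 0)
        = ∑' a : ℕ × ℕ, nu μ a * ENNReal.ofReal (B * φ a) := by
          refine tsum_congr fun a => ?_
          simp only [hφ]
          split_ifs <;> simp
      _ = ∑' d, μ d * ENNReal.ofReal (Av d (fun a => B * φ a)) :=
          tsum_nu μ _ fun a => mul_nonneg hB0.le (hφ0 a)
      _ ≤ ∑' d, μ d * ENNReal.ofReal (B * β d) := by
          refine ENNReal.tsum_le_tsum fun d => ?_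
          gcongr
          rw [Av_mul_left]
          exact mul_le_mul_of_nonneg_left (hAv d) hB0.le
      _ = ∑' d, ENNReal.ofReal (B * (m d * β d)) := by
          refine tsum_congr fun d => ?_
          rw [show B * (m d * β d) = m d * (B * β d) by ring, ENNReal.ofReal_mul (hm0 d)]
          congr 1
          exact (ENNReal.ofReal_toReal (μ.apply_ne_top d)).symm
      _ = ENNReal.ofReal (∑' d, B * (m d * β d)) :=
          (ENNReal.ofReal_tsum_of_nonneg (fun d => mul_nonneg hB0.le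
            (mul_nonneg (hm0 d) (hβ0 d))) (hsum.summable.mul_left B)).symm
      _ = ENNReal.ofReal (B * (s ^ 2 + W - (1 - δ) * s ^ 2 * T)) := by
          rw [tsum_mul_left, hsum.tsum_eq]
      _ ≤ _ := by
          apply ENNReal.ofReal_le_ofReal
          exact mul_le_mul_of_nonneg_left hmain hB0.le
  have hBη : B * (s ^ 2 - η / 2) = B * s ^ 2 - 1 := by rw [hB]; field_simp
  rw [hBη] at hconv
  have hpos : 1 ≤ B * s ^ 2 := by
    have h8 : 0 ≤ s ^ 2 + W - (1 - δ) * s ^ 2 * T :=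
      hsum.tsum_eq ▸ tsum_nonneg fun d => mul_nonneg (hm0 d) (hβ0 d)
    have h9 : 0 ≤ s ^ 2 - η / 2 := h8.trans hmain
    have h10 : 0 ≤ B * (s ^ 2 - η / 2) := mul_nonneg hB0.le h9
    rw [hBη] at h10
    linarith
  calc _ ≤ ENNReal.ofReal (B * s ^ 2 - 1) + 1 := by gcongr
    _ = ENNReal.ofReal (B * s ^ 2 - 1) + ENNReal.ofReal 1 := by rw [ENNReal.ofReal_one]
    _ = ENNReal.ofReal (B * s ^ 2) := by
        rw [← ENNReal.ofReal_add (by linarith) (by norm_num)]
        congr 1; ring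

end Lyap

end Pool.Agent.W_MP_63dac5_pr
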