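import Pool.Agent.W_MP_63dac5_pr.Graph2
import Pool.Agent.W_MP_63dac5_pr.HeavyLyap

/-!
# Heavy tails: percolation
-/

namespace Pool.Agent.W_MP_63dac5_pr

open MeasureTheory ProbabilityTheory ENNReal Finset

variable {Ω : Type*} [MeasurableSpace Ω] {P : Measure Ω} [IsProbabilityMeasure P]
  {X : ℤ → Ω → ℕ × ℕ} {ν : ℕ × ℕ → ℝ≥0∞}

omit [IsProbabilityMeasure P] in
/-- The law of the swapped marks. -/
lemma swap_law (hν : ∀ i a, P (X i ⁻¹' {a}) = ν a) (hsymm : ∀ a, ν a.swap = ν a) :
    ∀ i a, P ((fun ω => (X i ω).swap) ⁻¹' {a}) = ν a := by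
  intro i a
  have : (fun ω => (X i ω).swap) ⁻¹' {a} = X i ⁻¹' {a.swap} := by
    ext ω
    simp only [Set.mem_preimage, Set.mem_singleton_iff]
    constructor
    · intro h; rw [← h, Prod.swap_swap]
    · intro h; rw [h, Prod.swap_swap]
  rw [this, hν, hsymm]

/-- probability of a closed interval. -/
lemma closed_prob_le (hX : ∀ i, Measurable (X i)) (hind : iIndepFun X P)
    (hν : ∀ i a, P (X i ⁻¹' {a}) = ν a) (hsymm : ∀ a, ν a.swap = ν a) (p q : ℕ) :
    P {ω | Closed (fun i => X i ω) (-(p : ℤ)) q} ≤ Sv ν (p + 1) 0 * Sv ν q 0 := by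
  classical
  set σ : ℕ → ℤ := fun k => if k < p + 1 then -(p : ℤ) + k else (q : ℤ) - ((k : ℤ) - (p + 1))
    with hσ
  have hinj : ∀ i j, i < (p + 1) + q → j < (p + 1) + q → σ i = σ j → i = j := by
    intro i j hi hj hij
    simp only [hσ] at hij
    split_ifs at hij <;> omega
  set A : List (ℕ × ℕ) → Prop := fun w =>
    alive 0 (w.take (p + 1)) ∧ alive 0 ((w.drop (p + 1)).map Prod.swap) with hA
  have hsub : {ω | Closed (fun i => X i ω) (-(p : ℤ)) q} ⊆
      {ω | A (pre (fun k => X (σ k) ω) ((p + 1) + q))} := by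
    intro ω hω
    have hc : Closed (fun i => X i ω) (-(p : ℤ)) q := hω
    show A _
    have e := pre_add (fun k => X (σ k) ω) (p + 1) q
    simp only [hA]
    have hl : (pre (fun k => X (σ k) ω) (p + 1)).length = p + 1 := pre_length _ _
    rw [e, List.take_append_of_le_length (by omega), List.take_of_length_le (by omega),
        List.drop_append_of_le_length (by omega), List.drop_of_length_le (by omega),
        List.nil_append]
    constructor
    · refine alive_pre fun k hk => ?_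
      have h1 := hc.left_le (i := -(p : ℤ) + k) (by omega)
      have e1 : ∑ i ∈ range (k + 1), (X (σ i) ω).1 =
          ∑ j ∈ Finset.Icc (-(p : ℤ)) (-(p : ℤ) + k), (X j ω).1 := by
        refine Finset.sum_nbij' (fun i => -(p : ℤ) + i) (fun j => (j + p).toNat) ?_ ?_ ?_ ?_ ?_
        · intro i hi; rw [Finset.mem_range] at hi; rw [Finset.mem_Icc]; omega
        · intro j hj; rw [Finset.mem_Icc] at hj; rw [Finset.mem_range]; omega
        · intro i hi; omega
        · intro j hj; rw [Finset.mem_Icc] at hj; omega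
        · intro i hi
          rw [Finset.mem_range] at hi
          simp only [hσ]
          rw [if_pos (by omega)]
      have e2 : ∑ i ∈ range k, (X (σ i) ω).2 =
          ∑ j ∈ Finset.Ico (-(p : ℤ)) (-(p : ℤ) + k), (X j ω).2 := by
        refine Finset.sum_nbij' (fun i => -(p : ℤ) + i) (fun j => (j + p).toNat) ?_ ?_ ?_ ?_ ?_
        · intro i hi; rw [Finset.mem_range] at hi; rw [Finset.mem_Ico]; omega
        · intro j hj; rw [Finset.mem_Ico] at hj; rw [Finset.mem_range]; omega
        · intro i hi; omega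
        · intro j hj; rw [Finset.mem_Ico] at hj; omega
        · intro i hi
          rw [Finset.mem_range] at hi
          simp only [hσ]
          rw [if_pos (by omega)]
      rw [e1, e2]
      simpa using h1
    · rw [← pre_map Prod.swap]
      refine alive_pre fun k hk => ?_
      have h1 := hc.right_le (i := (q : ℤ) - k) (by omega)
      have e1 : ∑ i ∈ range (k + 1), (X (σ (p + 1 + i)) ω).swap.1 =
          ∑ j ∈ Finset.Icc ((q : ℤ) - k) q, (X j ω).2 := by
        refine Finset.sum_nbij' (fun i => (q : ℤ) - i) (fun j => (q - j).toNat) ?_ ?_ ?_ ?_ ?_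
        · intro i hi; rw [Finset.mem_range] at hi; rw [Finset.mem_Icc]; omega
        · intro j hj; rw [Finset.mem_Icc] at hj; rw [Finset.mem_range]; omega
        · intro i hi; omega
        · intro j hj; rw [Finset.mem_Icc] at hj; omega
        · intro i hi
          rw [Finset.mem_range] at hi
          simp only [hσ, Prod.fst_swap]
          rw [if_neg (by omega)]
          congr 3
          push_cast
          ring
      have e2 : ∑ i ∈ range k, (X (σ (p + 1 + i)) ω).swap.2 =
          ∑ j ∈ Finset.Ioc ((q : ℤ) - k) q, (X j ω).1 := by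
        refine Finset.sum_nbij' (fun i => (q : ℤ) - i) (fun j => (q - j).toNat) ?_ ?_ ?_ ?_ ?_
        · intro i hi; rw [Finset.mem_range] at hi; rw [Finset.mem_Ioc]; omega
        · intro j hj; rw [Finset.mem_Ioc] at hj; rw [Finset.mem_range]; omega
        · intro i hi; omega
        · intro j hj; rw [Finset.mem_Ioc] at hj; omega
        · intro i hi
          rw [Finset.mem_range] at hi
          simp only [hσ, Prod.snd_swap]
          rw [if_neg (by omega)]
          congr 3
          push_cast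
          ring
      rw [e1, e2]
      simpa using h1
  refine (measure_mono hsub).trans ?_
  rw [measure_eq_Ex hX hind hν σ ((p + 1) + q) hinj A]
  refine le_of_eq ?_
  set f1 : List (ℕ × ℕ) → ℝ≥0∞ := fun u => if alive 0 u then (1 : ℝ≥0∞) else 0 with hf1
  set f2 : List (ℕ × ℕ) → ℝ≥0∞ := fun v => f1 (v.map Prod.swap) with hf2
  have e3 : (fun w : List (ℕ × ℕ) => if A w then (1 : ℝ≥0∞) else 0) =
      fun w => f1 (w.take (p + 1)) * f2 (w.drop (p + 1)) := by
    funext w
    simp only [hA, hf1, hf2]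
    by_cases h1 : alive 0 (w.take (p + 1))
    · by_cases h2 : alive 0 ((w.drop (p + 1)).map Prod.swap)
      · rw [if_pos ⟨h1, h2⟩, if_pos h1, if_pos h2, one_mul]
      · rw [if_neg (fun h => h2 h.2), if_neg h2, mul_zero]
    · rw [if_neg (fun h => h1 h.1), if_neg h1, zero_mul]
  rw [e3, Ex_append_mul ν (p + 1) q f1 f2]
  congr 1
  exact Ex_map ν (Equiv.prodComm ℕ ℕ) hsymm q f1

/-- the walk does not survive forever. -/
lemma no_survival (hX : ∀ i, Measurable (X i)) (hind : iIndepFun X P)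
    (hν : ∀ i a, P (X i ⁻¹' {a}) = ν a) (hS : ∀ h, ∑' n, Sv ν n h ≠ ∞)
    (σ : ℕ → ℤ) (hσ : Function.Injective σ) (h : ℕ) :
    ∀ᵐ ω ∂P, ∃ n, ¬ alive h (pre (fun k => X (σ k) ω) n) := by
  classical
  have h1 : P {ω | ∀ n, alive h (pre (fun k => X (σ k) ω) n)} = 0 := by
    have h2 : ∀ n, P {ω | ∀ n, alive h (pre (fun k => X (σ k) ω) n)} ≤ Sv ν n h := by
      intro n
      unfold Sv
      rw [← measure_eq_Ex hX hind hν σ n (fun i j _ _ hij => hσ hij) (alive h)]
      exact measure_mono fun ω hω => hω n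
    have h3 : Filter.Tendsto (fun n => Sv ν n h) Filter.atTop (nhds 0) :=
      ENNReal.tendsto_atTop_zero_of_tsum_ne_top (hS h)
    exact le_antisymm (ge_of_tendsto' h3 h2) bot_le
  have h4 : {ω | ¬ ∃ n, ¬ alive h (pre (fun k => X (σ k) ω) n)} =
      {ω | ∀ n, alive h (pre (fun k => X (σ k) ω) n)} := by
    ext ω
    simp only [Set.mem_ofPred_eq]
    push Not
    rfl
  rw [ae_iff, h4, h1]

/-- all stubs are matched. -/
lemma ae_matched (hX : ∀ i, Measurable (X i)) (hind : iIndepFun X P)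
    (hν : ∀ i a, P (X i ⁻¹' {a}) = ν a) (hsymm : ∀ a, ν a.swap = ν a)
    (hS : ∀ h, ∑' n, Sv ν n h ≠ ∞) :
    ∀ᵐ ω ∂P, Matched (fun i => X i ω) := by
  classical
  have hright : ∀ᵐ ω ∂P, ∀ (y0 : ℤ) (h : ℕ),
      ∃ n, ¬ alive h (pre (fun k => X (y0 + 1 + (k : ℤ)) ω) n) := by
    rw [ae_all_iff]; intro y0
    rw [ae_all_iff]; intro h
    exact no_survival hX hind hν hS (fun k => y0 + 1 + (k : ℤ)) (fun i j hij => by
      have : y0 + 1 + (i : ℤ) = y0 + 1 + (j : ℤ) := hij
      omega) h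
  have hX' : ∀ i, Measurable (fun ω => (X i ω).swap) := fun i => measurable_swap.comp (hX i)
  have hind' : iIndepFun (fun i ω => (X i ω).swap) P :=
    hind.comp (fun _ => Prod.swap) fun _ => measurable_swap
  have hν' := swap_law hν hsymm
  have hleft : ∀ᵐ ω ∂P, ∀ (y0 : ℤ) (h : ℕ),
      ∃ n, ¬ alive h (pre (fun k => (X (y0 - 1 - (k : ℤ)) ω).swap) n) := by
    rw [ae_all_iff]; intro y0
    rw [ae_all_iff]; intro h
    exact no_survival hX' hind' hν' hS (fun k => y0 - 1 - (k : ℤ)) (fun i j hij => by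
      have : y0 - 1 - (i : ℤ) = y0 - 1 - (j : ℤ) := hij
      omega) h
  filter_upwards [hright, hleft] with ω h1 h2
  intro x
  constructor
  · by_contra hne
    push Not at hne
    obtain ⟨y0, k, hk⟩ := unmatched_right (X := fun i => X i ω) (x := x)
      (fun n => lt_of_le_of_ne (rc_le _ x n) (hne n))
    obtain ⟨n, hn⟩ := h1 y0 k
    refine hn (alive_pre fun m _ => ?_)
    have h3 := hk (y0 + 1 + m) (by omega)
    have e1 : ∑ i ∈ range (m + 1), (X (y0 + 1 + (i : ℤ)) ω).1 =
        ∑ j ∈ Finset.Ioc y0 (y0 + 1 + m), (X j ω).1 := by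
      refine Finset.sum_nbij' (fun i => y0 + 1 + (i : ℤ)) (fun j => (j - y0 - 1).toNat) ?_ ?_ ?_ ?_ ?_
      · intro i hi; rw [Finset.mem_range] at hi; rw [Finset.mem_Ioc]; omega
      · intro j hj; rw [Finset.mem_Ioc] at hj; rw [Finset.mem_range]; omega
      · intro i hi; omega
      · intro j hj; rw [Finset.mem_Ioc] at hj; omega
      · intro i hi; rfl
    have e2 : ∑ i ∈ range m, (X (y0 + 1 + (i : ℤ)) ω).2 =
        ∑ j ∈ Finset.Ioo y0 (y0 + 1 + m), (X j ω).2 := by
      refine Finset.sum_nbij' (fun i => y0 + 1 + (i : ℤ)) (fun j => (j - y0 - 1).toNat) ?_ ?_ ?_ ?_ ?_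
      · intro i hi; rw [Finset.mem_range] at hi; rw [Finset.mem_Ioo]; omega
      · intro j hj; rw [Finset.mem_Ioo] at hj; rw [Finset.mem_range]; omega
      · intro i hi; omega
      · intro j hj; rw [Finset.mem_Ioo] at hj; omega
      · intro i hi; rfl
    rw [e1, e2]
    exact h3
  · by_contra hne
    push Not at hne
    obtain ⟨y0, k, hk⟩ := unmatched_left (X := fun i => X i ω) (x := x)
      (fun n => lt_of_le_of_ne (lc_le _ n x) (hne n))
    obtain ⟨n, hn⟩ := h2 y0 k
    refine hn (alive_pre fun m _ => ?_)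
    have h3 := hk (y0 - 1 - m) (by omega)
    have e1 : ∑ i ∈ range (m + 1), (X (y0 - 1 - (i : ℤ)) ω).swap.1 =
        ∑ j ∈ Finset.Ico (y0 - 1 - m) y0, (X j ω).2 := by
      refine Finset.sum_nbij' (fun i => y0 - 1 - (i : ℤ)) (fun j => (y0 - 1 - j).toNat) ?_ ?_ ?_ ?_ ?_
      · intro i hi; rw [Finset.mem_range] at hi; rw [Finset.mem_Ico]; omega
      · intro j hj; rw [Finset.mem_Ico] at hj; rw [Finset.mem_range]; omega
      · intro i hi; omega
      · intro j hj; rw [Finset.mem_Ico] at hj; omega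
      · intro i hi; rfl
    have e2 : ∑ i ∈ range m, (X (y0 - 1 - (i : ℤ)) ω).swap.2 =
        ∑ j ∈ Finset.Ioo (y0 - 1 - m) y0, (X j ω).1 := by
      refine Finset.sum_nbij' (fun i => y0 - 1 - (i : ℤ)) (fun j => (y0 - 1 - j).toNat) ?_ ?_ ?_ ?_ ?_
      · intro i hi; rw [Finset.mem_range] at hi; rw [Finset.mem_Ioo]; omega
      · intro j hj; rw [Finset.mem_Ioo] at hj; rw [Finset.mem_range]; omega
      · intro i hi; omega
      · intro j hj; rw [Finset.mem_Ioo] at hj; omega
      · intro i hi; rfl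
    rw [e1, e2]
    exact h3

/-- The abstract criterion: if the killed walk has a finite expected survival time, then there is
an infinite component. -/
theorem percolation_of_summable (hX : ∀ i, Measurable (X i)) (hind : iIndepFun X P)
    (hν : ∀ i a, P (X i ⁻¹' {a}) = ν a) (hsymm : ∀ a, ν a.swap = ν a)
    (hS : ∀ h, ∑' n, Sv ν n h ≠ ∞) :
    ∀ᵐ ω ∂P, ∃ i, {j | (G (fun i => X i ω)).Reachable i j}.Infinite := by
  classical
  have hsum : ∑' e : ℕ × ℕ, P {ω | Closed (fun i => X i ω) (-(e.1 : ℤ)) e.2} ≠ ∞ := by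
    refine ne_top_of_le_ne_top ?_ (ENNReal.tsum_le_tsum fun e =>
      closed_prob_le hX hind hν hsymm e.1 e.2)
    rw [ENNReal.tsum_prod']
    have e1 : ∀ p : ℕ, ∑' q : ℕ, Sv ν (p + 1) 0 * Sv ν q 0 =
        Sv ν (p + 1) 0 * ∑' q, Sv ν q 0 := fun p => ENNReal.tsum_mul_left
    simp only [e1]
    rw [ENNReal.tsum_mul_right]
    refine ENNReal.mul_ne_top ?_ (hS 0)
    refine ne_top_of_le_ne_top (hS 0) ?_
    exact ENNReal.tsum_comp_le_tsum_of_injective (add_left_injective 1) (fun n => Sv ν n 0)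
  filter_upwards [ae_matched hX hind hν hsymm hS, ae_finite_setOfPred_mem hsum] with ω h1 h2
  by_contra hne
  push Not at hne
  have hbig := exists_big_closed h1 (fun i => hne i)
  -- infinitely many closed intervals
  obtain ⟨N, hN⟩ : ∃ N : ℕ, ∀ p q : ℕ, Closed (fun i => X i ω) (-(p : ℤ)) q → p + q ≤ N := by
    obtain ⟨N, hN⟩ := (h2.image (fun e : ℕ × ℕ => e.1 + e.2)).bddAbove
    exact ⟨N, fun p q hpq => hN ⟨(p, q), hpq, rfl⟩⟩
  obtain ⟨a, b, ha, hb, hab, hlen⟩ := hbig (N + 1)
  obtain ⟨p, hp⟩ := Int.eq_ofNat_of_zero_le (show 0 ≤ -a by omega)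
  obtain ⟨q, hq⟩ := Int.eq_ofNat_of_zero_le hb
  have hap : a = -(p : ℤ) := by omega
  rw [hap, hq] at hab
  have := hN p q hab
  push_cast at hlen
  omega

end Pool.Agent.W_MP_63dac5_pr
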