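import Mathlib

/-!
# The law of the marks and averages over the random directions
-/

namespace Pool.Agent.W_MP_63dac5_pr

open Finset ENNReal

/-- average over the directions of `d` stubs: `a.1` of them to the left, `a.2` to the right. -/
noncomputable def Av (d : ℕ) (φ : ℕ × ℕ → ℝ) : ℝ :=
  ∑ a ∈ antidiagonal d, ((d.choose a.1 : ℝ) / 2 ^ d) * φ a

/-- the weight of the mark `(l, r)`. -/
noncomputable def nu (μ : PMF ℕ) (a : ℕ × ℕ) : ℝ≥0∞ :=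
  μ (a.1 + a.2) * ((a.1 + a.2).choose a.2 : ℝ≥0∞) / 2 ^ (a.1 + a.2)

lemma nu_swap (μ : PMF ℕ) (a : ℕ × ℕ) : nu μ a.swap = nu μ a := by
  unfold nu
  simp only [Prod.fst_swap, Prod.snd_swap]
  rw [add_comm a.2 a.1, Nat.choose_symm_add]

lemma nu_eq (μ : PMF ℕ) (a : ℕ × ℕ) :
    nu μ a = μ (a.1 + a.2) *
      ENNReal.ofReal (((a.1 + a.2).choose a.1 : ℝ) / 2 ^ (a.1 + a.2)) := by
  unfold nu
  rw [ENNReal.ofReal_div_of_pos (by positivity), ENNReal.ofReal_natCast,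
    ENNReal.ofReal_pow (by norm_num), ENNReal.ofReal_ofNat, ← mul_div_assoc, Nat.choose_symm_add]

lemma tsum_nu (μ : PMF ℕ) (φ : ℕ × ℕ → ℝ) (hφ : ∀ a, 0 ≤ φ a) :
    ∑' a, nu μ a * ENNReal.ofReal (φ a) = ∑' d, μ d * ENNReal.ofReal (Av d φ) := by
  rw [← (HasAntidiagonal.sigmaAntidiagonalEquivProd (A := ℕ)).tsum_eq
    (fun a => nu μ a * ENNReal.ofReal (φ a)), ENNReal.tsum_sigma']
  refine tsum_congr fun d => ?_
  rw [tsum_fintype, Av, ENNReal.ofReal_sum_of_nonneg (fun a _ => by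
    have := hφ a
    positivity), Finset.mul_sum, ← Finset.sum_coe_sort (antidiagonal d)]
  refine Finset.sum_congr rfl fun a _ => ?_
  have ha := mem_antidiagonal.1 a.2
  simp only [HasAntidiagonal.sigmaAntidiagonalEquivProd_apply]
  rw [nu_eq, ha, ENNReal.ofReal_mul (by positivity), mul_assoc]

lemma Av_mono {d : ℕ} {φ ψ : ℕ × ℕ → ℝ} (h : ∀ a, a.1 + a.2 = d → φ a ≤ ψ a) :
    Av d φ ≤ Av d ψ := by
  unfold Av
  refine Finset.sum_le_sum fun a ha => ?_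
  exact mul_le_mul_of_nonneg_left (h a (mem_antidiagonal.1 ha)) (by positivity)

lemma Av_congr {d : ℕ} {φ ψ : ℕ × ℕ → ℝ} (h : ∀ a, a.1 + a.2 = d → φ a = ψ a) :
    Av d φ = Av d ψ :=
  le_antisymm (Av_mono fun a ha => (h a ha).le) (Av_mono fun a ha => (h a ha).ge)

lemma Av_nonneg {d : ℕ} {φ : ℕ × ℕ → ℝ} (h : ∀ a, a.1 + a.2 = d → 0 ≤ φ a) : 0 ≤ Av d φ := by
  unfold Av
  refine Finset.sum_nonneg fun a ha => ?_
  have := h a (mem_antidiagonal.1 ha)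
  positivity

lemma Av_add (d : ℕ) (φ ψ : ℕ × ℕ → ℝ) : Av d (fun a => φ a + ψ a) = Av d φ + Av d ψ := by
  unfold Av
  rw [← Finset.sum_add_distrib]
  exact Finset.sum_congr rfl fun a _ => by ring

lemma Av_mul_left (d : ℕ) (c : ℝ) (φ : ℕ × ℕ → ℝ) : Av d (fun a => c * φ a) = c * Av d φ := by
  unfold Av
  rw [Finset.mul_sum]
  exact Finset.sum_congr rfl fun a _ => by ring

/-- the average of `h (z + ξ)`, where `ξ = r - l`. -/
noncomputable def Ad (d : ℕ) (h : ℤ → ℝ) (z : ℤ) : ℝ := Av d (fun a => h (z + a.2 - a.1))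

lemma Ad_zero (h : ℤ → ℝ) (z : ℤ) : Ad 0 h z = h z := by
  simp [Ad, Av]

lemma Ad_succ (d : ℕ) (h : ℤ → ℝ) (z : ℤ) :
    Ad (d + 1) h z = (Ad d h (z + 1) + Ad d h (z - 1)) / 2 := by
  unfold Ad Av
  have key := Finset.sum_antidiagonal_choose_succ_mul (R := ℝ)
    (fun l r => h (z + (r : ℤ) - (l : ℤ)) / 2 ^ (d + 1)) d
  have e : ∑ a ∈ antidiagonal (d + 1), (((d + 1).choose a.1 : ℝ) / 2 ^ (d + 1)) *
      h (z + (a.2 : ℤ) - (a.1 : ℤ)) = ∑ ij ∈ antidiagonal (d + 1), ((d + 1).choose ij.1 : ℝ) *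
        (h (z + (ij.2 : ℤ) - (ij.1 : ℤ)) / 2 ^ (d + 1)) :=
    Finset.sum_congr rfl fun a _ => by ring
  rw [e, key, add_div, Finset.sum_div, Finset.sum_div]
  congr 1
  · refine Finset.sum_congr rfl fun a _ => ?_
    rw [show z + ((a.2 + 1 : ℕ) : ℤ) - (a.1 : ℤ) = z + 1 + (a.2 : ℤ) - (a.1 : ℤ) by push_cast; ring]
    rw [pow_succ]
    ring
  · refine Finset.sum_congr rfl fun a ha => ?_
    rw [show z + (a.2 : ℤ) - ((a.1 + 1 : ℕ) : ℤ) = z - 1 + (a.2 : ℤ) - (a.1 : ℤ) by push_cast; ring]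
    rw [Nat.choose_symm_of_eq_add (mem_antidiagonal.1 ha).symm, pow_succ]
    ring

lemma Ad_one_eq (d : ℕ) (c : ℝ) (z : ℤ) : Ad d (fun _ => c) z = c := by
  induction d generalizing z with
  | zero => rw [Ad_zero]
  | succ d ih => rw [Ad_succ, ih, ih]; ring

lemma Av_const (d : ℕ) (c : ℝ) : Av d (fun _ => c) = c := Ad_one_eq d c 0

lemma Ad_sq (d : ℕ) (z : ℤ) : Ad d (fun y => (y : ℝ) ^ 2) z = (z : ℝ) ^ 2 + d := by
  induction d generalizing z with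
  | zero => rw [Ad_zero]; push_cast; ring
  | succ d ih => rw [Ad_succ, ih, ih]; push_cast; ring

lemma Ad_four (d : ℕ) (z : ℤ) :
    Ad d (fun y => (y : ℝ) ^ 4) z = (z : ℝ) ^ 4 + 6 * d * (z : ℝ) ^ 2 + 3 * (d : ℝ) ^ 2 - 2 * d := by
  induction d generalizing z with
  | zero => rw [Ad_zero]; push_cast; ring
  | succ d ih => rw [Ad_succ, ih, ih]; push_cast; ring

/-- second moment of `ξ`. -/
lemma Av_sq (d : ℕ) : Av d (fun a => ((a.2 : ℝ) - a.1) ^ 2) = d := by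
  have := Ad_sq d 0
  unfold Ad at this
  simpa using this

lemma Av_four (d : ℕ) : Av d (fun a => ((a.2 : ℝ) - a.1) ^ 4) ≤ 3 * (d : ℝ) ^ 2 := by
  have := Ad_four d 0
  unfold Ad at this
  have h2 : Av d (fun a => ((a.2 : ℝ) - a.1) ^ 4) = 3 * (d : ℝ) ^ 2 - 2 * d := by
    simpa using this
  rw [h2]
  have : (0 : ℝ) ≤ d := by positivity
  linarith

end Pool.Agent.W_MP_63dac5_pr
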