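import Pool.Agent.W_MP_63dac5_pr.Crit
import Pool.Agent.W_MP_63dac5_pr.Avg

/-!
# All stubs are matched, for every degree law
-/

namespace Pool.Agent.W_MP_63dac5_pr

open MeasureTheory ProbabilityTheory ENNReal

section General

variable {α : Type*} [MeasurableSpace α]
variable {Ω : Type*} [MeasurableSpace Ω] {P : Measure Ω} {X Y : ℤ → Ω → α}

/-- two i.i.d. sequences with the same marginals have the same law. -/
lemma law_eq (hX : ∀ i, Measurable (X i)) (hind : iIndepFun X P)
    (hY : ∀ i, Measurable (Y i)) (hindY : iIndepFun Y P)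
    (hid : ∀ i, P.map (X i) = P.map (Y i)) {B : Set (ℤ → α)} (hB : MeasurableSet B) :
    P {ω | (fun i => X i ω) ∈ B} = P {ω | (fun i => Y i ω) ∈ B} := by
  have h1 := iIndepFun.map_fun_eq_infinitePi_map hX hind
  have h2 := iIndepFun.map_fun_eq_infinitePi_map hY hindY
  have h3 : P.map (fun ω i => X i ω) = P.map (fun ω i => Y i ω) := by
    rw [h1, h2]
    congr 1
    funext i
    exact hid i
  have h4 : P {ω | (fun i => X i ω) ∈ B} = P.map (fun ω i => X i ω) B :=
    (Measure.map_apply (measurable_re hX id) hB).symm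
  have h5 : P {ω | (fun i => Y i ω) ∈ B} = P.map (fun ω i => Y i ω) B :=
    (Measure.map_apply (measurable_re hY id) hB).symm
  rw [h4, h5, h3]

end General

/-- the increments `R - L`, summed over `(a, b]`. -/
noncomputable def Wk (x : ℤ → ℕ × ℕ) (a b : ℤ) : ℤ := ∑ j ∈ Finset.Ioc a b, (((x j).2 : ℤ) - (x j).1)

lemma Wk_add (x : ℤ → ℕ × ℕ) {a b c : ℤ} (hab : a ≤ b) (hbc : b ≤ c) :
    Wk x a c = Wk x a b + Wk x b c := by
  unfold Wk
  rw [← Finset.sum_union]
  · congr 1
    ext m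
    simp only [Finset.mem_union, Finset.mem_Ioc]
    omega
  · rw [Finset.disjoint_left]
    intro m hm
    simp only [Finset.mem_Ioc] at hm ⊢
    omega

lemma Wk_shift (x : ℤ → ℕ × ℕ) (c a b : ℤ) : Wk (fun i => x (i + c)) a b = Wk x (a + c) (b + c) := by
  unfold Wk
  refine Finset.sum_nbij' (fun i => i + c) (fun i => i - c) ?_ ?_ ?_ ?_ ?_
  · intro i hi; rw [Finset.mem_Ioc] at hi ⊢; omega
  · intro i hi; rw [Finset.mem_Ioc] at hi ⊢; omega
  · intro i _; ring
  · intro i _; ring
  · intro i _; rfl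

lemma Wk_one (x : ℤ → ℕ × ℕ) : Wk x 0 1 = ((x 1).2 : ℤ) - (x 1).1 := by
  unfold Wk
  rw [show Finset.Ioc (0 : ℤ) 1 = {1} by decide]
  simp

lemma Wk_congr {x y : ℤ → ℕ × ℕ} {a b : ℤ} (h : ∀ i, a < i → i ≤ b → x i = y i) :
    Wk x a b = Wk y a b := by
  unfold Wk
  refine Finset.sum_congr rfl fun i hi => ?_
  rw [Finset.mem_Ioc] at hi
  rw [h i hi.1 hi.2]

lemma measurable_Wk (a b : ℤ) : Measurable (fun x : ℤ → ℕ × ℕ => Wk x a b) := by
  unfold Wk
  refine Finset.measurable_sum _ fun j _ => ?_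
  have h1 : Measurable (fun p : ℕ × ℕ => ((p.2 : ℤ) - p.1)) := measurable_of_countable _
  exact h1.comp (measurable_pi_apply j)

/-- the walk stays above `-k`. -/
def Bel (k : ℕ) : Set (ℤ → ℕ × ℕ) := {x | ∀ y : ℤ, 0 < y → -(k : ℤ) ≤ Wk x 0 y}

/-- the backward walk is strictly positive. -/
def Ngt : Set (ℤ → ℕ × ℕ) := {x | ∀ y : ℤ, y < 0 → Wk x y 0 < 0}

/-- the forward walk is strictly positive. -/
def Pst : Set (ℤ → ℕ × ℕ) := {x | ∀ y : ℤ, 0 < y → 0 < Wk x 0 y}

lemma measurableSet_Bel (k : ℕ) : MeasurableSet (Bel k) := by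
  have : Bel k = ⋂ (y : ℤ) (_ : 0 < y), {x | -(k : ℤ) ≤ Wk x 0 y} := by
    ext x; simp [Bel]
  rw [this]
  exact MeasurableSet.iInter fun y => MeasurableSet.iInter fun _ =>
    measurableSet_le measurable_const (measurable_Wk 0 y)

lemma measurableSet_Ngt : MeasurableSet Ngt := by
  have : Ngt = ⋂ (y : ℤ) (_ : y < 0), {x | Wk x y 0 < 0} := by
    ext x; simp [Ngt]
  rw [this]
  exact MeasurableSet.iInter fun y => MeasurableSet.iInter fun _ =>
    measurableSet_lt (measurable_Wk y 0) measurable_const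

lemma measurableSet_Pst : MeasurableSet Pst := by
  have : Pst = ⋂ (y : ℤ) (_ : 0 < y), {x | 0 < Wk x 0 y} := by
    ext x; simp [Pst]
  rw [this]
  exact MeasurableSet.iInter fun y => MeasurableSet.iInter fun _ =>
    measurableSet_lt measurable_const (measurable_Wk 0 y)

section Walk

variable {Ω : Type*} [MeasurableSpace Ω] {P : Measure Ω} [IsProbabilityMeasure P]
  {X : ℤ → Ω → ℕ × ℕ} {ν : ℕ × ℕ → ℝ≥0∞}

omit [IsProbabilityMeasure P] in
lemma map_eq_of_singleton {Y Z : Ω → ℕ × ℕ} (hY : Measurable Y) (hZ : Measurable Z)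
    (h : ∀ a, P (Y ⁻¹' {a}) = P (Z ⁻¹' {a})) : P.map Y = P.map Z := by
  refine Measure.ext_of_singleton fun a => ?_
  rw [Measure.map_apply hY (measurableSet_singleton a),
    Measure.map_apply hZ (measurableSet_singleton a), h]

omit [IsProbabilityMeasure P] in
/-- first step up, then the rest. -/
lemma step_up (hX : ∀ i, Measurable (X i)) (hind : iIndepFun X P)
    (hid : ∀ i j, P.map (X i) = P.map (X j)) {B C : Set (ℤ → ℕ × ℕ)} (hB : MeasurableSet B)
    (hBfut : ∀ x y : ℤ → ℕ × ℕ, (∀ i, 0 < i → x i = y i) → x ∈ B → y ∈ B)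
    (hBC : ∀ x : ℤ → ℕ × ℕ, (x 1).1 < (x 1).2 → (fun i => x (i + 1)) ∈ B → x ∈ C) :
    P {ω | (X 1 ω).1 < (X 1 ω).2} * P {ω | (fun i => X i ω) ∈ B} ≤
      P {ω | (fun i => X i ω) ∈ C} := by
  have hA : MeasurableSet {x : ℤ → ℕ × ℕ | (x 1).1 < (x 1).2} := by
    have h1 : MeasurableSet {p : ℕ × ℕ | p.1 < p.2} := (Set.to_countable _).measurableSet
    have h2 : Measurable (fun x : ℤ → ℕ × ℕ => x 1) := measurable_pi_apply 1
    exact h2 h1
  have h1 := indep_blocks (P := P) hX hind (f := fun _ => 1) (g := fun i => max (i + 1) 2)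
    (fun i j => by
      have : (2 : ℤ) ≤ max (j + 1) 2 := le_max_right _ _
      omega) hA hB
  have h2 : P {ω | (fun i => X (max (i + 1) 2) ω) ∈ B} = P {ω | (fun i => X i ω) ∈ B} := by
    have h3 := law_reindex hX hind hid (g := fun i => i + 1) (add_left_injective 1) hB
    rw [← h3]
    congr 1
    ext ω
    simp only [Set.mem_ofPred_eq]
    constructor
    · refine hBfut _ _ fun i hi => ?_
      rw [max_eq_left (by omega)]
    · refine hBfut _ _ fun i hi => ?_
      rw [max_eq_left (by omega)]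
  rw [h2] at h1
  refine le_of_eq_of_le h1.symm (measure_mono ?_)
  rintro ω ⟨h3, h4⟩
  refine hBC _ h3 (hBfut _ _ (fun i hi => ?_) h4)
  rw [max_eq_left (by omega)]

omit [IsProbabilityMeasure P] in
lemma prob_up_pos (hν : ∀ i a, P (X i ⁻¹' {a}) = ν a)
    {d : ℕ} (hd : 1 ≤ d) (hd' : ν (0, d) ≠ 0) : P {ω | (X 1 ω).1 < (X 1 ω).2} ≠ 0 := by
  intro h
  apply hd'
  rw [← hν 1]
  refine measure_mono_null ?_ h
  intro ω hω
  have h1 : X 1 ω = (0, d) := hω
  show (X 1 ω).1 < (X 1 ω).2
  rw [h1]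
  exact hd

/-- the walk does not stay above `-k`. -/
lemma Bel_null (hX : ∀ i, Measurable (X i)) (hind : iIndepFun X P)
    (hν : ∀ i a, P (X i ⁻¹' {a}) = ν a) (hsymm : ∀ a, ν a.swap = ν a)
    {d : ℕ} (hd : 1 ≤ d) (hd' : ν (0, d) ≠ 0) (k : ℕ) :
    P {ω | (fun i => X i ω) ∈ Bel k} = 0 := by
  have hid : ∀ i j, P.map (X i) = P.map (X j) := fun i j =>
    map_eq_of_singleton (hX i) (hX j) fun a => by rw [hν, hν]
  have hp := prob_up_pos hν hd hd'
  -- the strictly positive walk
  have h1 : P {ω | (X 1 ω).1 < (X 1 ω).2} * P {ω | (fun i => X i ω) ∈ Bel 0} ≤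
      P {ω | (fun i => X i ω) ∈ Pst} := by
    refine step_up hX hind hid (measurableSet_Bel 0) ?_ ?_
    · intro x y hxy hx z hz
      rw [← Wk_congr (x := x) (y := y) fun i hi _ => hxy i hi]
      exact hx z hz
    · intro x hx1 hx z hz
      rw [Wk_add x (show (0 : ℤ) ≤ 1 by norm_num) (show 1 ≤ z by omega), Wk_one]
      have h2 : 0 ≤ Wk x 1 z := by
        by_cases hz1 : z = 1
        · subst hz1; simp [Wk]
        · have h3 := hx (z - 1) (by omega)
          rw [Wk_shift] at h3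
          simpa using h3
      omega
  -- reflection
  have h2 : P {ω | (fun i => X i ω) ∈ Ngt} = P {ω | (fun i => X i ω) ∈ Pst} := by
    set Y : ℤ → Ω → ℕ × ℕ := fun i ω => (X (1 - i) ω).swap with hY
    have hYm : ∀ i, Measurable (Y i) := fun i => measurable_swap.comp (hX _)
    have hinj : Function.Injective (fun i : ℤ => 1 - i) := fun i j h => by
      have : 1 - i = 1 - j := h
      omega
    have hYi : iIndepFun Y P :=
      (hind.precomp hinj).comp (fun _ => Prod.swap) fun _ => measurable_swap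
    have hXY : ∀ i, P.map (X i) = P.map (Y i) := by
      intro i
      refine map_eq_of_singleton (hX i) (hYm i) fun a => ?_
      have h3 : Y i ⁻¹' {a} = X (1 - i) ⁻¹' {a.swap} := by
        ext ω
        simp only [hY, Set.mem_preimage, Set.mem_singleton_iff]
        constructor
        · intro h; rw [← h, Prod.swap_swap]
        · intro h; rw [h, Prod.swap_swap]
      rw [h3, hν, hν, hsymm]
    rw [law_eq hX hind hYm hYi hXY measurableSet_Ngt]
    congr 1
    ext ω
    simp only [Set.mem_ofPred_eq, Ngt, Pst]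
    have h4 : ∀ y : ℤ, y < 0 → Wk (fun i => Y i ω) y 0 = - Wk (fun i => X i ω) 0 (-y) := by
      intro y _
      unfold Wk
      rw [← Finset.sum_neg_distrib]
      refine Finset.sum_nbij' (fun i => 1 - i) (fun i => 1 - i) ?_ ?_ ?_ ?_ ?_
      · intro i hi; rw [Finset.mem_Ioc] at hi ⊢; omega
      · intro i hi; rw [Finset.mem_Ioc] at hi ⊢; omega
      · intro i _; ring
      · intro i _; ring
      · intro i _
        simp only [hY, Prod.snd_swap, Prod.fst_swap]
        ring
    constructor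
    · intro h y hy
      have h5 := h (-y) (by omega)
      rw [h4 (-y) (by omega), neg_neg] at h5
      omega
    · intro h y hy
      rw [h4 y hy]
      have h5 := h (-y) (by omega)
      omega
  -- disjointness
  set A : ℤ → Set Ω := fun t => {ω | (fun i => X (max i 1 + t) ω) ∈ Bel 0} ∩
    {ω | (fun i => X (min i 0 + t) ω) ∈ Ngt} with hA
  have hPA : ∀ t, P (A t) = P {ω | (fun i => X i ω) ∈ Bel 0} * P {ω | (fun i => X i ω) ∈ Ngt} := by
    intro t
    simp only [hA]
    rw [indep_blocks hX hind (f := fun i => max i 1 + t) (g := fun i => min i 0 + t)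
      (fun i j => by
        have h3 : (1 : ℤ) ≤ max i 1 := le_max_right _ _
        have h4 : min j 0 ≤ (0 : ℤ) := min_le_right _ _
        omega) (measurableSet_Bel 0) measurableSet_Ngt]
    congr 1
    · rw [← law_reindex hX hind hid (g := fun i => i + t) (add_left_injective t)
        (measurableSet_Bel 0)]
      congr 1
      ext ω
      simp only [Set.mem_ofPred_eq, Bel]
      refine forall_congr' fun y => forall_congr' fun _ => ?_
      rw [Wk_congr (x := fun i => X (max i 1 + t) ω) (y := fun i => X (i + t) ω)]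
      intro i hi _
      rw [max_eq_left (by omega)]
    · rw [← law_reindex hX hind hid (g := fun i => i + t) (add_left_injective t)
        measurableSet_Ngt]
      congr 1
      ext ω
      simp only [Set.mem_ofPred_eq, Ngt]
      refine forall_congr' fun y => forall_congr' fun _ => ?_
      rw [Wk_congr (x := fun i => X (min i 0 + t) ω) (y := fun i => X (i + t) ω)]
      intro i _ hi
      rw [min_eq_left hi]
  have hmeas : ∀ t, MeasurableSet (A t) := fun t =>
    ((measurable_re hX (fun i => max i 1 + t)) (measurableSet_Bel 0)).inter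
      ((measurable_re hX (fun i => min i 0 + t)) measurableSet_Ngt)
  have hdisj' : ∀ s t : ℤ, s < t → Disjoint (A s) (A t) := by
    intro s t hst
    rw [Set.disjoint_left]
    rintro ω ⟨h3, -⟩ ⟨-, h4⟩
    have h5 := h3 (t - s) (by omega)
    have h6 := h4 (s - t) (by omega)
    rw [Wk_congr (x := fun i => X (max i 1 + s) ω) (y := fun i => X (i + s) ω) (by
      intro i hi _
      rw [max_eq_left (by omega)]), Wk_shift (fun i => X i ω)] at h5
    rw [Wk_congr (x := fun i => X (min i 0 + t) ω) (y := fun i => X (i + t) ω) (by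
      intro i _ hi
      rw [min_eq_left hi]), Wk_shift (fun i => X i ω)] at h6
    have e1 : t - s + s = t := by ring
    have e2 : s - t + t = s := by ring
    rw [e1] at h5
    rw [e2] at h6
    simp only [zero_add, Nat.cast_zero, neg_zero] at h5 h6
    omega
  have hdisj : Pairwise (Function.onFun Disjoint A) := by
    intro s t hst
    rcases lt_or_gt_of_ne hst with h | h
    · exact hdisj' s t h
    · exact (hdisj' t s h).symm
  have hsum : ∑' t, P (A t) ≤ 1 := by
    rw [← measure_iUnion hdisj hmeas]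
    exact prob_le_one
  have hprod : P {ω | (fun i => X i ω) ∈ Bel 0} * P {ω | (fun i => X i ω) ∈ Ngt} = 0 := by
    by_contra hne
    simp only [hPA] at hsum
    rw [ENNReal.tsum_const_eq_top_of_ne_zero hne] at hsum
    exact absurd hsum (by simp)
  have hzero : P {ω | (fun i => X i ω) ∈ Bel 0} = 0 := by
    by_contra hne
    rcases mul_eq_zero.1 hprod with h | h
    · exact hne h
    · rw [h2] at h
      rw [h] at h1
      have h3 := le_antisymm h1 bot_le
      rcases mul_eq_zero.1 h3 with h4 | h4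
      · exact hp h4
      · exact hne h4
  -- all levels
  induction k with
  | zero => exact hzero
  | succ k ih =>
    have h3 : P {ω | (X 1 ω).1 < (X 1 ω).2} * P {ω | (fun i => X i ω) ∈ Bel (k + 1)} ≤
        P {ω | (fun i => X i ω) ∈ Bel k} := by
      refine step_up hX hind hid (measurableSet_Bel (k + 1)) ?_ ?_
      · intro x y hxy hx z hz
        rw [← Wk_congr (x := x) (y := y) fun i hi _ => hxy i hi]
        exact hx z hz
      · intro x hx1 hx z hz
        rw [Wk_add x (show (0 : ℤ) ≤ 1 by norm_num) (show 1 ≤ z by omega), Wk_one]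
        have h2 : -((k : ℤ) + 1) ≤ Wk x 1 z := by
          by_cases hz1 : z = 1
          · subst hz1; simp only [Wk, Finset.Ioc_self, Finset.sum_empty]; omega
          · have h3 := hx (z - 1) (by omega)
            rw [Wk_shift] at h3
            push_cast at h3
            simpa using h3
        omega
    rw [ih] at h3
    have h4 := le_antisymm h3 bot_le
    rcases mul_eq_zero.1 h4 with h5 | h5
    · exact absurd h5 hp
    · exact h5

/-- all stubs are matched. -/
lemma ae_matched' (hX : ∀ i, Measurable (X i)) (hind : iIndepFun X P)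
    (hν : ∀ i a, P (X i ⁻¹' {a}) = ν a) (hsymm : ∀ a, ν a.swap = ν a)
    {d : ℕ} (hd : 1 ≤ d) (hd' : ν (0, d) ≠ 0) :
    ∀ᵐ ω ∂P, Matched (fun i => X i ω) := by
  have hid : ∀ i j, P.map (X i) = P.map (X j) := fun i j =>
    map_eq_of_singleton (hX i) (hX j) fun a => by rw [hν, hν]
  have hright : ∀ᵐ ω ∂P, ∀ (t : ℤ) (k : ℕ), (fun i => X (i + t) ω) ∉ Bel k := by
    rw [ae_all_iff]; intro t
    rw [ae_all_iff]; intro k
    rw [ae_iff]
    have := law_reindex hX hind hid (g := fun i => i + t) (add_left_injective t)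
      (measurableSet_Bel k)
    rw [Bel_null hX hind hν hsymm hd hd' k] at this
    rw [← this]
    congr 1
    ext ω
    simp
  have hX' : ∀ i, Measurable (fun ω => (X (-i) ω).swap) := fun i => measurable_swap.comp (hX _)
  have hind' : iIndepFun (fun i ω => (X (-i) ω).swap) P :=
    (hind.precomp neg_injective).comp (fun _ => Prod.swap) fun _ => measurable_swap
  have hν' : ∀ i a, P ((fun ω => (X (-i) ω).swap) ⁻¹' {a}) = ν a := by
    intro i a
    have h3 : (fun ω => (X (-i) ω).swap) ⁻¹' {a} = X (-i) ⁻¹' {a.swap} := by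
      ext ω
      simp only [Set.mem_preimage, Set.mem_singleton_iff]
      constructor
      · intro h; rw [← h, Prod.swap_swap]
      · intro h; rw [h, Prod.swap_swap]
    rw [h3, hν, hsymm]
  have hid' : ∀ i j, P.map (fun ω => (X (-i) ω).swap) = P.map (fun ω => (X (-j) ω).swap) :=
    fun i j => map_eq_of_singleton (hX' i) (hX' j) fun a => by rw [hν', hν']
  have hleft : ∀ᵐ ω ∂P, ∀ (t : ℤ) (k : ℕ), (fun i => (X (-(i + t)) ω).swap) ∉ Bel k := by
    rw [ae_all_iff]; intro t
    rw [ae_all_iff]; intro k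
    rw [ae_iff]
    have := law_reindex hX' hind' hid' (g := fun i => i + t) (add_left_injective t)
      (measurableSet_Bel k)
    rw [Bel_null hX' hind' hν' hsymm hd hd' k] at this
    rw [← this]
    congr 1
    ext ω
    simp
  filter_upwards [hright, hleft] with ω h1 h2
  intro x
  constructor
  · by_contra hne
    push Not at hne
    obtain ⟨y0, k, hk⟩ := unmatched_right (X := fun i => X i ω) (x := x)
      (fun n => lt_of_le_of_ne (rc_le _ x n) (hne n))
    refine h1 y0 k fun y hy => ?_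
    rw [Wk_shift (fun i => X i ω), zero_add]
    have h3 := hk (y + y0) (by omega)
    have h4 : ∑ j ∈ Finset.Ioo y0 (y + y0), (X j ω).2 ≤ ∑ j ∈ Finset.Ioc y0 (y + y0), (X j ω).2 :=
      Finset.sum_le_sum_of_subset Finset.Ioo_subset_Ioc_self
    have h5 : ∑ j ∈ Finset.Ioc y0 (y + y0), (X j ω).1 ≤
        k + ∑ j ∈ Finset.Ioc y0 (y + y0), (X j ω).2 := by omega
    unfold Wk
    rw [Finset.sum_sub_distrib]
    have h6 : ((∑ j ∈ Finset.Ioc y0 (y + y0), (X j ω).1 : ℕ) : ℤ) ≤
        ((k + ∑ j ∈ Finset.Ioc y0 (y + y0), (X j ω).2 : ℕ) : ℤ) := by exact_mod_cast h5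
    push_cast at h6
    linarith
  · by_contra hne
    push Not at hne
    obtain ⟨y0, k, hk⟩ := unmatched_left (X := fun i => X i ω) (x := x)
      (fun n => lt_of_le_of_ne (lc_le _ n x) (hne n))
    refine h2 (-y0) k fun y hy => ?_
    have h3 := hk (y0 - y) (by omega)
    have h4 : ∑ j ∈ Finset.Ioo (y0 - y) y0, (X j ω).1 ≤ ∑ j ∈ Finset.Ico (y0 - y) y0, (X j ω).1 :=
      Finset.sum_le_sum_of_subset Finset.Ioo_subset_Ico_self
    have h5 : ∑ j ∈ Finset.Ico (y0 - y) y0, (X j ω).2 ≤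
        k + ∑ j ∈ Finset.Ico (y0 - y) y0, (X j ω).1 := by omega
    have h6 : ((∑ j ∈ Finset.Ico (y0 - y) y0, (X j ω).2 : ℕ) : ℤ) ≤
        ((k + ∑ j ∈ Finset.Ico (y0 - y) y0, (X j ω).1 : ℕ) : ℤ) := by exact_mod_cast h5
    push_cast at h6
    have h7 : Wk (fun i => (X (-(i + -y0)) ω).swap) 0 y =
        ∑ j ∈ Finset.Ico (y0 - y) y0, (((X j ω).1 : ℤ) - (X j ω).2) := by
      unfold Wk
      refine Finset.sum_nbij' (fun i => y0 - i) (fun i => y0 - i) ?_ ?_ ?_ ?_ ?_
      · intro i hi; rw [Finset.mem_Ioc] at hi; rw [Finset.mem_Ico]; omega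
      · intro i hi; rw [Finset.mem_Ico] at hi; rw [Finset.mem_Ioc]; omega
      · intro i _; ring
      · intro i _; ring
      · intro i _
        simp only [Prod.snd_swap, Prod.fst_swap]
        rw [show -(i + -y0) = y0 - i by ring]
    rw [h7, Finset.sum_sub_distrib]
    linarith

/-- percolation from summability. -/
theorem percolation_of_tsum (hX : ∀ i, Measurable (X i)) (hind : iIndepFun X P)
    (hν : ∀ i a, P (X i ⁻¹' {a}) = ν a) (hsymm : ∀ a, ν a.swap = ν a)
    {d : ℕ} (hd : 1 ≤ d) (hd' : ν (0, d) ≠ 0)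
    (hsum : ∑' n : ℕ, (n : ℝ≥0∞) * P {ω | Closed (fun i => X i ω) 1 (n : ℤ)} ≠ ∞) :
    ∀ᵐ ω ∂P, ∃ i, {j | (G (fun i => X i ω)).Reachable i j}.Infinite := by
  have hid : ∀ i j, P.map (X i) = P.map (X j) := fun i j =>
    map_eq_of_singleton (hX i) (hX j) fun a => by rw [hν, hν]
  have hsh : ∀ e : ℕ × ℕ, P {ω | Closed (fun i => X i ω) (-(e.1 : ℤ)) e.2} =
      P {ω | Closed (fun i => X i ω) 1 ((e.1 + e.2 + 1 : ℕ) : ℤ)} := by
    intro e
    have h1 := law_reindex hX hind hid (g := fun i => i + (-(e.1 : ℤ) - 1)) (add_left_injective _)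
      (measurableSet_closed 1 ((e.1 + e.2 + 1 : ℕ) : ℤ))
    have h2 : {ω | (fun i => X i ω) ∈ {x | Closed x 1 ((e.1 + e.2 + 1 : ℕ) : ℤ)}} =
        {ω | Closed (fun i => X i ω) 1 ((e.1 + e.2 + 1 : ℕ) : ℤ)} := rfl
    rw [← h2, ← h1]
    congr 1
    ext ω
    simp only [Set.mem_ofPred_eq]
    rw [Closed.shift (fun i => X i ω)]
    have e1 : (1 : ℤ) + (-(e.1 : ℤ) - 1) = -(e.1 : ℤ) := by ring
    have e2 : ((e.1 + e.2 + 1 : ℕ) : ℤ) + (-(e.1 : ℤ) - 1) = e.2 := by push_cast; ring
    rw [e1, e2]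
  have hsum' : ∑' e : ℕ × ℕ, P {ω | Closed (fun i => X i ω) (-(e.1 : ℤ)) e.2} ≠ ∞ := by
    simp only [hsh]
    rw [← (Finset.HasAntidiagonal.sigmaAntidiagonalEquivProd (A := ℕ)).tsum_eq
      (fun e : ℕ × ℕ => P {ω | Closed (fun i => X i ω) 1 ((e.1 + e.2 + 1 : ℕ) : ℤ)}),
      ENNReal.tsum_sigma']
    have h3 : ∀ n : ℕ, ∑' a : Finset.HasAntidiagonal.antidiagonal n,
        P {ω | Closed (fun i => X i ω) 1
          ((((Finset.HasAntidiagonal.sigmaAntidiagonalEquivProd (A := ℕ)) ⟨n, a⟩).1 +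
            ((Finset.HasAntidiagonal.sigmaAntidiagonalEquivProd (A := ℕ)) ⟨n, a⟩).2 + 1 : ℕ) : ℤ)} =
        ((n + 1 : ℕ) : ℝ≥0∞) * P {ω | Closed (fun i => X i ω) 1 ((n + 1 : ℕ) : ℤ)} := by
      intro n
      have h4 : ∀ a : Finset.HasAntidiagonal.antidiagonal n,
        P {ω | Closed (fun i => X i ω) 1
          ((((Finset.HasAntidiagonal.sigmaAntidiagonalEquivProd (A := ℕ)) ⟨n, a⟩).1 +
            ((Finset.HasAntidiagonal.sigmaAntidiagonalEquivProd (A := ℕ)) ⟨n, a⟩).2 + 1 : ℕ) : ℤ)} =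
        P {ω | Closed (fun i => X i ω) 1 ((n + 1 : ℕ) : ℤ)} := by
        intro a
        have := Finset.HasAntidiagonal.mem_antidiagonal.1 a.2
        simp only [Finset.HasAntidiagonal.sigmaAntidiagonalEquivProd_apply]
        rw [this]
      rw [tsum_fintype, Finset.sum_congr rfl (fun a _ => h4 a), Finset.sum_const,
        Finset.card_univ, Fintype.card_coe, Finset.Nat.card_antidiagonal, nsmul_eq_mul]
    rw [tsum_congr h3]
    exact ne_top_of_le_ne_top hsum (ENNReal.tsum_comp_le_tsum_of_injective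
      (add_left_injective 1) (fun n : ℕ => (n : ℝ≥0∞) * P {ω | Closed (fun i => X i ω) 1 (n : ℤ)}))
  filter_upwards [ae_matched' hX hind hν hsymm hd hd', ae_finite_setOfPred_mem hsum'] with ω h1 h2
  by_contra hne
  push Not at hne
  have hbig := exists_big_closed h1 (fun i => hne i)
  obtain ⟨N, hN⟩ : ∃ N : ℕ, ∀ p q : ℕ, Closed (fun i => X i ω) (-(p : ℤ)) q → p + q ≤ N := by
    obtain ⟨N, hN⟩ := (h2.image (fun e : ℕ × ℕ => e.1 + e.2)).bddAbove
    exact ⟨N, fun p q hpq => hN ⟨(p, q), hpq, rfl⟩⟩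
  obtain ⟨a, b, ha, hb, hab, hlen⟩ := hbig (N + 1)
  obtain ⟨p, hp⟩ := Int.eq_ofNat_of_zero_le (show 0 ≤ -a by omega)
  obtain ⟨q, hq⟩ := Int.eq_ofNat_of_zero_le hb
  have hap : a = -(p : ℤ) := by omega
  rw [hap, hq] at hab
  have := hN p q hab
  push_cast at hlen
  omega

/-- absence of percolation, in terms of the same series. -/
theorem no_percolation_of_tsum' (hX : ∀ i, Measurable (X i)) (hind : iIndepFun X P)
    (hν : ∀ i a, P (X i ⁻¹' {a}) = ν a)
    (hsum : ∑' n : ℕ, (n : ℝ≥0∞) * P {ω | Closed (fun i => X i ω) 1 (n : ℤ)} = ∞) :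
    ∀ᵐ ω ∂P, ∀ i, {j | (G (fun i => X i ω)).Reachable i j}.Finite := by
  have hid : ∀ i j, P.map (X i) = P.map (X j) := fun i j =>
    map_eq_of_singleton (hX i) (hX j) fun a => by rw [hν, hν]
  refine no_percolation_of_tsum hX hind hid ?_
  rw [eq_top_iff, ← hsum]
  rw [← (Finset.HasAntidiagonal.sigmaAntidiagonalEquivProd (A := ℕ)).tsum_eq
    (fun e : ℕ × ℕ => P {ω | Closed (fun i => X i ω) 1 ((e.1 + e.2 : ℕ) : ℤ)}),
    ENNReal.tsum_sigma']
  refine ENNReal.tsum_le_tsum fun n => ?_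
  have h4 : ∀ a : Finset.HasAntidiagonal.antidiagonal n,
      P {ω | Closed (fun i => X i ω) 1
        ((((Finset.HasAntidiagonal.sigmaAntidiagonalEquivProd (A := ℕ)) ⟨n, a⟩).1 +
          ((Finset.HasAntidiagonal.sigmaAntidiagonalEquivProd (A := ℕ)) ⟨n, a⟩).2 : ℕ) : ℤ)} =
      P {ω | Closed (fun i => X i ω) 1 (n : ℤ)} := by
    intro a
    have := Finset.HasAntidiagonal.mem_antidiagonal.1 a.2
    simp only [Finset.HasAntidiagonal.sigmaAntidiagonalEquivProd_apply]
    rw [this]
  rw [tsum_fintype, Finset.sum_congr rfl (fun a _ => h4 a), Finset.sum_const,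
    Finset.card_univ, Fintype.card_coe, Finset.Nat.card_antidiagonal, nsmul_eq_mul]
  gcongr
  omega

end Walk

end Pool.Agent.W_MP_63dac5_pr
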