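import Pool.Agent.W_MP_63dac5_pr.Deletion

/-!
# The criterion for the absence of infinite components
-/

namespace Pool.Agent.W_MP_63dac5_pr

open MeasureTheory ProbabilityTheory ENNReal

section General

variable {α : Type*} [MeasurableSpace α]
variable {Ω : Type*} [MeasurableSpace Ω] {P : Measure Ω} [IsProbabilityMeasure P]
  {X : ℤ → Ω → α}

lemma measurable_re (hX : ∀ i, Measurable (X i)) (g : ℤ → ℤ) :
    Measurable (fun ω i => X (g i) ω) := measurable_pi_lambda _ fun _ => hX _

omit [IsProbabilityMeasure P] in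
/-- the law of a re-indexed sequence. -/
lemma law_reindex (hX : ∀ i, Measurable (X i)) (hind : iIndepFun X P)
    (hid : ∀ i j, P.map (X i) = P.map (X j)) {g : ℤ → ℤ} (hg : Function.Injective g)
    {B : Set (ℤ → α)} (hB : MeasurableSet B) :
    P {ω | (fun i => X (g i) ω) ∈ B} = P {ω | (fun i => X i ω) ∈ B} := by
  have h1 := iIndepFun.map_fun_eq_infinitePi_map hX hind
  have h2 := iIndepFun.map_fun_eq_infinitePi_map (X := fun i => X (g i)) (fun i => hX (g i))
    (hind.precomp hg)
  have h3 : P.map (fun ω i => X (g i) ω) = P.map (fun ω i => X i ω) := by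
    rw [h1, h2]
    congr 1
    funext i
    exact hid _ _
  have h4 : P {ω | (fun i => X (g i) ω) ∈ B} = P.map (fun ω i => X (g i) ω) B :=
    (Measure.map_apply (measurable_re hX g) hB).symm
  have h5 : P {ω | (fun i => X i ω) ∈ B} = P.map (fun ω i => X i ω) B :=
    (Measure.map_apply (measurable_re hX id) hB).symm
  rw [h4, h5, h3]

omit [IsProbabilityMeasure P] in
/-- independence of disjoint blocks. -/
lemma indep_blocks (hX : ∀ i, Measurable (X i)) (hind : iIndepFun X P)
    {f g : ℤ → ℤ} (hfg : ∀ i j, f i ≠ g j)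
    {A B : Set (ℤ → α)} (hA : MeasurableSet A) (hB : MeasurableSet B) :
    P ({ω | (fun i => X (f i) ω) ∈ A} ∩ {ω | (fun i => X (g i) ω) ∈ B}) =
      P {ω | (fun i => X (f i) ω) ∈ A} * P {ω | (fun i => X (g i) ω) ∈ B} := by
  have hdisj : Disjoint (Set.range f) (Set.range g) := by
    rw [Set.disjoint_left]
    rintro _ ⟨i, rfl⟩ ⟨j, hj⟩
    exact hfg i j hj.symm
  have hindep := indep_iSup_of_disjoint (fun i => (hX i).comap_le) hind.iIndep hdisj
  rw [Indep_iff] at hindep
  have hmeas : ∀ (h : ℤ → ℤ) {B : Set (ℤ → α)}, MeasurableSet B →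
      MeasurableSet[⨆ i ∈ Set.range h, MeasurableSpace.comap (X i) inferInstance]
        {ω | (fun i => X (h i) ω) ∈ B} := by
    intro h B hB
    have : @Measurable Ω (ℤ → α)
        (⨆ i ∈ Set.range h, MeasurableSpace.comap (X i) inferInstance) _
        (fun ω i => X (h i) ω) := by
      refine @measurable_pi_lambda Ω ℤ (fun _ => α)
        (⨆ i ∈ Set.range h, MeasurableSpace.comap (X i) inferInstance) _ _ fun i => ?_
      refine Measurable.mono (comap_measurable (X (h i))) ?_ le_rfl
      exact le_iSup₂_of_le (h i) ⟨i, rfl⟩ le_rfl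
    exact this hB
  exact hindep _ _ (hmeas f hA) (hmeas g hB)

end General

/-! ### measurability -/

lemma measurableSet_closed (a b : ℤ) : MeasurableSet {x : ℤ → ℕ × ℕ | Closed x a b} := by
  classical
  set g : ((Finset.Icc a b) → ℕ × ℕ) → (ℤ → ℕ × ℕ) :=
    fun w i => if h : i ∈ Finset.Icc a b then w ⟨i, h⟩ else (0, 0) with hg
  have hset : {x : ℤ → ℕ × ℕ | Closed x a b} =
      (Finset.restrict (Finset.Icc a b)) ⁻¹' {w | Closed (g w) a b} := by
    ext x
    simp only [Set.mem_ofPred_eq, Set.mem_preimage]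
    refine Closed.congr fun i hi1 hi2 => ?_
    simp only [hg]
    rw [dif_pos (Finset.mem_Icc.2 ⟨hi1, hi2⟩)]
    rfl
  rw [hset]
  exact (Finset.measurable_restrict _) (Set.to_countable _).measurableSet

/-- A nonempty closed interval touches the cut between `0` and `1`. -/
def Touch (x : ℤ → ℕ × ℕ) : Prop := ∃ c d : ℤ, c ≤ 1 ∧ 0 ≤ d ∧ c ≤ d ∧ Closed x c d

/-- The point `i` is in no closed interval. -/
def Exposed (x : ℤ → ℕ × ℕ) (i : ℤ) : Prop := ∀ a b : ℤ, a ≤ i → i ≤ b → ¬ Closed x a b

lemma measurableSet_touch : MeasurableSet {x : ℤ → ℕ × ℕ | Touch x} := by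
  have : {x : ℤ → ℕ × ℕ | Touch x} =
      ⋃ (c : ℤ) (d : ℤ), {x | c ≤ 1 ∧ 0 ≤ d ∧ c ≤ d ∧ Closed x c d} := by
    ext x
    simp only [Set.mem_iUnion, Set.mem_ofPred_eq, Touch]
  rw [this]
  refine MeasurableSet.iUnion fun c => MeasurableSet.iUnion fun d => ?_
  exact (MeasurableSet.const _).inter ((MeasurableSet.const _).inter
    ((MeasurableSet.const _).inter (measurableSet_closed c d)))

lemma measurableSet_exposed (i : ℤ) : MeasurableSet {x : ℤ → ℕ × ℕ | Exposed x i} := by
  have : {x : ℤ → ℕ × ℕ | Exposed x i} =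
      ⋂ (a : ℤ) (b : ℤ), {x | a ≤ i → i ≤ b → ¬ Closed x a b} := by
    ext x
    simp only [Set.mem_iInter, Set.mem_ofPred_eq, Exposed]
  rw [this]
  refine MeasurableSet.iInter fun a => MeasurableSet.iInter fun b => ?_
  have : {x : ℤ → ℕ × ℕ | a ≤ i → i ≤ b → ¬ Closed x a b} =
      {x | ¬ (a ≤ i ∧ i ≤ b)} ∪ {x | Closed x a b}ᶜ := by
    ext x
    simp only [Set.mem_ofPred_eq, Set.mem_union, Set.mem_compl_iff]
    tauto
  rw [this]
  exact (MeasurableSet.const _).union (measurableSet_closed a b).compl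

/-! ### deterministic consequences -/

/-- the cut `t | t+1` is touched and every closed interval at it can be extended. -/
def GoodCut (x : ℤ → ℕ × ℕ) : Prop :=
  Touch x ∧ ∀ u v : ℕ, Closed x (1 - (u : ℤ)) v → Touch (fun i => x (del (1 - (u : ℤ)) v i))

lemma exists_long {x : ℤ → ℕ × ℕ} (hx : GoodCut x) (h0 : Exposed x 0) (n : ℕ) :
    ∃ v : ℕ, n ≤ v ∧ Closed x 1 v := by
  induction n with
  | zero =>
    obtain ⟨c, d, hc, hd, hcd, hcl⟩ := hx.1
    have hc1 : c = 1 := by
      by_contra h
      exact h0 c d (by omega) hd hcl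
    subst hc1
    obtain ⟨v, rfl⟩ := Int.eq_ofNat_of_zero_le hd
    exact ⟨v, Nat.zero_le _, hcl⟩
  | succ n ih =>
    obtain ⟨v, hv, hcl⟩ := ih
    have h1 := hx.2 0 v (by simpa using hcl)
    simp only [Nat.cast_zero, sub_zero] at h1
    obtain ⟨c, d, hc, hd, hcd, hcl'⟩ := h1
    rw [del_closed (by omega) hcl hc hd] at hcl'
    have hc1 : c = 1 := by
      by_contra h
      exact h0 (c + 1 - 1) (d + v) (by omega) (by omega) hcl'
    subst hc1
    obtain ⟨w, rfl⟩ := Int.eq_ofNat_of_zero_le hd
    refine ⟨w + v, by omega, ?_⟩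
    simpa using hcl'

/-! ### the criterion -/

section Crit

variable {Ω : Type*} [MeasurableSpace Ω] {P : Measure Ω} [IsProbabilityMeasure P]
  {X : ℤ → Ω → ℕ × ℕ}

/-- factorization of the probability of the events `M_I`. -/
lemma prob_M (hX : ∀ i, Measurable (X i)) (hind : iIndepFun X P)
    (hid : ∀ i j, P.map (X i) = P.map (X j)) (t : ℤ) (u v : ℕ) :
    P {ω | Closed (fun i => X (i + t) ω) (1 - (u : ℤ)) v ∧
      ¬ Touch (fun i => X (del (1 - (u : ℤ)) v i + t) ω)} =
    P {ω | Closed (fun i => X i ω) 1 ((u + v : ℕ) : ℤ)} * P {ω | ¬ Touch (fun i => X i ω)} := by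
  by_cases huv : u + v = 0
  · -- empty interval
    obtain ⟨rfl, rfl⟩ : u = 0 ∧ v = 0 := by omega
    have h1 : {ω | Closed (fun i => X i ω) 1 ((0 + 0 : ℕ) : ℤ)} = Set.univ := by
      ext ω
      simp only [Set.mem_ofPred_eq, Set.mem_univ, iff_true]
      intro i h1 h2
      exfalso
      push_cast at h2
      omega
    have h2 : {ω | Closed (fun i => X (i + t) ω) (1 - ((0 : ℕ) : ℤ)) ((0 : ℕ) : ℤ) ∧
        ¬ Touch (fun i => X (del (1 - ((0 : ℕ) : ℤ)) ((0 : ℕ) : ℤ) i + t) ω)} =
        {ω | (fun i => X (i + t) ω) ∈ {x | Touch x}ᶜ} := by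
      ext ω
      simp only [Set.mem_ofPred_eq, Set.mem_compl_iff]
      have e : ∀ i, del (1 - ((0 : ℕ) : ℤ)) ((0 : ℕ) : ℤ) i = i := by
        intro i
        unfold del
        push_cast
        split_ifs <;> omega
      simp only [e]
      constructor
      · exact fun h => h.2
      · intro h
        refine ⟨?_, h⟩
        intro i h1 h2
        exfalso
        push_cast at h1 h2
        omega
    rw [h1, h2, law_reindex hX hind hid (g := fun i => i + t) (add_left_injective t)
      measurableSet_touch.compl, measure_univ, one_mul]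
    rfl
  · set f : ℤ → ℤ := fun i => max (1 - (u : ℤ)) (min (v : ℤ) i) + t with hf
    set g : ℤ → ℤ := fun i => del (1 - (u : ℤ)) v i + t with hg
    have hfg : ∀ i j, f i ≠ g j := by
      intro i j hij
      simp only [hf, hg] at hij
      have h1 := del_not_mem (a := 1 - (u : ℤ)) (b := v) (i := j) (by omega)
      have h2 : 1 - (u : ℤ) ≤ max (1 - (u : ℤ)) (min (v : ℤ) i) := le_max_left _ _
      have h3 : max (1 - (u : ℤ)) (min (v : ℤ) i) ≤ v := by
        refine max_le (by omega) (min_le_left _ _)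
      omega
    have hset : {ω | Closed (fun i => X (i + t) ω) (1 - (u : ℤ)) v ∧
        ¬ Touch (fun i => X (del (1 - (u : ℤ)) v i + t) ω)} =
        {ω | (fun i => X (f i) ω) ∈ {x | Closed x (1 - (u : ℤ)) v}} ∩
        {ω | (fun i => X (g i) ω) ∈ {x | Touch x}ᶜ} := by
      ext ω
      simp only [Set.mem_ofPred_eq, Set.mem_inter_iff, Set.mem_compl_iff]
      refine and_congr ?_ Iff.rfl
      refine Closed.congr fun i hi1 hi2 => ?_
      simp only [hf]
      rw [min_eq_right hi2, max_eq_right hi1]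
    have hginj : Function.Injective g := by
      intro i j hij
      have : del (1 - (u : ℤ)) v i = del (1 - (u : ℤ)) v j := by
        simpa [hg] using hij
      exact (del_strictMono (by omega)).injective this
    rw [hset, indep_blocks hX hind hfg (measurableSet_closed _ _) measurableSet_touch.compl,
      law_reindex hX hind hid hginj measurableSet_touch.compl]
    congr 1
    have h1 : {ω | (fun i => X (f i) ω) ∈ {x | Closed x (1 - (u : ℤ)) v}} =
        {ω | (fun i => X (i + (t - u)) ω) ∈ {x | Closed x 1 ((u + v : ℕ) : ℤ)}} := by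
      ext ω
      simp only [Set.mem_ofPred_eq]
      have e1 : Closed (fun i => X (f i) ω) (1 - (u : ℤ)) v ↔
          Closed (fun i => X (i + t) ω) (1 - (u : ℤ)) v := by
        refine (Closed.congr fun i hi1 hi2 => ?_)
        simp only [hf]
        rw [min_eq_right hi2, max_eq_right hi1]
      have e2 := Closed.shift (fun i => X (i + t) ω) (-(u : ℤ)) 1 ((u + v : ℕ) : ℤ)
      have e3 : (1 : ℤ) + -(u : ℤ) = 1 - u := by ring
      have e4 : (((u + v : ℕ) : ℤ)) + -(u : ℤ) = v := by push_cast; ring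
      rw [e3, e4] at e2
      rw [e1, ← e2]
      have e5 : (fun i => X (i + -(u : ℤ) + t) ω) = (fun i => X (i + (t - u)) ω) := by
        funext i
        rw [show i + -(u : ℤ) + t = i + (t - u) by ring]
      rw [e5]
    rw [h1, law_reindex hX hind hid (g := fun i => i + (t - u)) (add_left_injective _)
      (measurableSet_closed _ _)]
    rfl

lemma del_del_aux {x : ℤ → ℕ × ℕ} {u v u' v' : ℕ}
    (h : Closed x (1 - (u : ℤ)) v) (h' : Closed x (1 - (u' : ℤ)) v')
    (hne : ¬ (u' ≤ u ∧ v' ≤ v)) :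
    Touch (fun i => x (del (1 - (u : ℤ)) v i)) := by
  have hU := h.union h' (by omega) (by omega)
  refine ⟨min (1 - (u : ℤ)) (1 - (u' : ℤ)) - (1 - (u : ℤ)) + 1, max (v : ℤ) v' - v, by omega,
    by omega, by omega, ?_⟩
  rw [del_closed (by omega) h (by omega) (by omega)]
  convert hU using 1 <;> ring

/-- if the closed intervals are likely enough, then every cut is touched. -/
lemma prob_untouched (hX : ∀ i, Measurable (X i)) (hind : iIndepFun X P)
    (hid : ∀ i j, P.map (X i) = P.map (X j))
    (hinf : ∑' e : ℕ × ℕ, P {ω | Closed (fun i => X i ω) 1 ((e.1 + e.2 : ℕ) : ℤ)} = ∞) :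
    P {ω | ¬ Touch (fun i => X i ω)} = 0 := by
  by_contra hp
  set p := P {ω | ¬ Touch (fun i => X i ω)} with hpdef
  set M : ℕ × ℕ → Set Ω := fun e => {ω | Closed (fun i => X (i + 0) ω) (1 - (e.1 : ℤ)) e.2 ∧
      ¬ Touch (fun i => X (del (1 - (e.1 : ℤ)) e.2 i + 0) ω)} with hM
  have hmeas : ∀ e, MeasurableSet (M e) := by
    intro e
    exact ((measurable_re hX (fun i => i + 0)) (measurableSet_closed _ _)).inter
      ((measurable_re hX (fun i => del (1 - (e.1 : ℤ)) e.2 i + 0)) measurableSet_touch.compl)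
  have hdisj : Pairwise (Function.onFun Disjoint M) := by
    intro e e' hee
    rw [Function.onFun, Set.disjoint_left]
    rintro ω ⟨h1, h2⟩ ⟨h1', h2'⟩
    simp only [add_zero] at h1 h2 h1' h2'
    by_cases hc : e'.1 ≤ e.1 ∧ e'.2 ≤ e.2
    · by_cases hc' : e.1 ≤ e'.1 ∧ e.2 ≤ e'.2
      · exact hee (Prod.ext (by omega) (by omega))
      · exact h2' (del_del_aux h1' h1 hc')
    · exact h2 (del_del_aux h1 h1' hc)
  have hsum : ∑' e, P (M e) ≤ 1 := by
    rw [← measure_iUnion hdisj hmeas]
    exact prob_le_one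
  have hMe : ∀ e, P (M e) =
      P {ω | Closed (fun i => X i ω) 1 ((e.1 + e.2 : ℕ) : ℤ)} * p := fun e =>
    prob_M hX hind hid 0 e.1 e.2
  simp only [hMe] at hsum
  rw [ENNReal.tsum_mul_right, hinf, ENNReal.top_mul hp] at hsum
  exact absurd hsum (by simp)

/-- The criterion: if `∑ (n + 1) P([1, n] closed) = ∞` then almost surely every point is in a
closed interval. -/
theorem ae_closed_of_tsum (hX : ∀ i, Measurable (X i)) (hind : iIndepFun X P)
    (hid : ∀ i j, P.map (X i) = P.map (X j))
    (hinf : ∑' e : ℕ × ℕ, P {ω | Closed (fun i => X i ω) 1 ((e.1 + e.2 : ℕ) : ℤ)} = ∞) :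
    ∀ᵐ ω ∂P, ∀ i, ¬ Exposed (fun i => X i ω) i := by
  have h0 := prob_untouched hX hind hid hinf
  -- every cut is good
  have hgood : ∀ᵐ ω ∂P, ∀ t : ℤ, GoodCut (fun i => X (i + t) ω) := by
    rw [ae_all_iff]
    intro t
    have h1 : ∀ᵐ ω ∂P, Touch (fun i => X (i + t) ω) := by
      rw [ae_iff]
      have := law_reindex hX hind hid (g := fun i => i + t) (add_left_injective t)
        measurableSet_touch.compl
      have e : {ω | ¬ Touch (fun i => X (i + t) ω)} =
          {ω | (fun i => X (i + t) ω) ∈ {x | Touch x}ᶜ} := rfl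
      rw [e, this]
      exact h0
    have h2 : ∀ᵐ ω ∂P, ∀ u v : ℕ, Closed (fun i => X (i + t) ω) (1 - (u : ℤ)) v →
        Touch (fun i => X (del (1 - (u : ℤ)) v i + t) ω) := by
      rw [ae_all_iff]; intro u
      rw [ae_all_iff]; intro v
      rw [ae_iff]
      have := prob_M hX hind hid t u v
      rw [h0, mul_zero] at this
      rw [← this]
      congr 1
      ext ω
      simp only [Set.mem_ofPred_eq]
      tauto
    filter_upwards [h1, h2] with ω h3 h4
    exact ⟨h3, h4⟩
  -- at most one exposed point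
  have huniq : ∀ᵐ ω ∂P, ∀ i j : ℤ, i < j → Exposed (fun i => X i ω) i →
      ¬ Exposed (fun i => X i ω) j := by
    filter_upwards [hgood] with ω h i j hij hi hj
    have hi' : Exposed (fun k => X (k + i) ω) 0 := by
      intro a b ha hb hcl
      rw [Closed.shift (fun k => X k ω) i a b] at hcl
      exact hi (a + i) (b + i) (by omega) (by omega) hcl
    obtain ⟨v, hv, hcl⟩ := exists_long (h i) hi' (j - i).toNat
    rw [Closed.shift (fun k => X k ω) i 1 v] at hcl
    exact hj (1 + i) (v + i) (by omega) (by omega) hcl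
  -- the probabilities are equal
  set Ev : ℤ → Set Ω := fun i => {ω | Exposed (fun i => X i ω) i} with hEv
  have hEvm : ∀ i, MeasurableSet (Ev i) := fun i =>
    (measurable_re hX id) (measurableSet_exposed i)
  have heq : ∀ i, P (Ev i) = P (Ev 0) := by
    intro i
    have h1 : Ev i = {ω | (fun k => X (k + i) ω) ∈ {x | Exposed x 0}} := by
      ext ω
      simp only [hEv, Set.mem_ofPred_eq, Exposed]
      constructor
      · intro h a b ha hb hcl
        rw [Closed.shift (fun k => X k ω) i a b] at hcl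
        exact h (a + i) (b + i) (by omega) (by omega) hcl
      · intro h a b ha hb hcl
        refine h (a - i) (b - i) (by omega) (by omega) ?_
        rw [Closed.shift (fun k => X k ω) i (a - i) (b - i)]
        simpa using hcl
    rw [h1, law_reindex hX hind hid (g := fun k => k + i) (add_left_injective i)
      (measurableSet_exposed 0)]
    rfl
  have hdisj : Pairwise (Function.onFun (AEDisjoint P) Ev) := by
    intro i j hij
    have : ∀ i j : ℤ, i < j → AEDisjoint P (Ev i) (Ev j) := by
      intro i j hij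
      show P (Ev i ∩ Ev j) = 0
      refine measure_mono_null ?_ huniq
      intro ω hω h
      exact h i j hij hω.1 hω.2
    rcases lt_or_gt_of_ne hij with h | h
    · exact this i j h
    · exact (this j i h).symm
  have hsum : ∑' i, P (Ev i) ≤ 1 := by
    rw [← measure_iUnion₀ hdisj fun i => (hEvm i).nullMeasurableSet]
    exact prob_le_one
  have hzero : P (Ev 0) = 0 := by
    by_contra hne
    simp only [heq] at hsum
    rw [ENNReal.tsum_const_eq_top_of_ne_zero hne] at hsum
    exact absurd hsum (by simp)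
  rw [ae_all_iff]
  intro i
  rw [ae_iff]
  have : {ω | ¬ ¬ Exposed (fun i => X i ω) i} = Ev i := by
    ext ω
    simp [hEv]
  rw [this, heq, hzero]

/-- absence of infinite components. -/
theorem no_percolation_of_tsum (hX : ∀ i, Measurable (X i)) (hind : iIndepFun X P)
    (hid : ∀ i j, P.map (X i) = P.map (X j))
    (hinf : ∑' e : ℕ × ℕ, P {ω | Closed (fun i => X i ω) 1 ((e.1 + e.2 : ℕ) : ℤ)} = ∞) :
    ∀ᵐ ω ∂P, ∀ i, {j | (G (fun i => X i ω)).Reachable i j}.Finite := by
  filter_upwards [ae_closed_of_tsum hX hind hid hinf] with ω h i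
  have := h i
  unfold Exposed at this
  push Not at this
  obtain ⟨a, b, ha, hb, hcl⟩ := this
  exact hcl.finite ha hb

end Crit

end Pool.Agent.W_MP_63dac5_pr
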