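import Pool.Agent.W_MP_63dac5_pr.Graph2

/-!
# Deleting a closed interval
-/

namespace Pool.Agent.W_MP_63dac5_pr

/-- The enumeration of the points outside `[a, b]`. -/
def del (a b : ℤ) (i : ℤ) : ℤ := if i ≤ 0 then i + a - 1 else i + b

lemma del_strictMono {a b : ℤ} (hab : a ≤ b + 1) : StrictMono (del a b) := by
  intro i j hij
  unfold del
  split_ifs <;> omega

lemma del_not_mem {a b i : ℤ} (hab : a ≤ b + 1) : del a b i < a ∨ b < del a b i := by
  have _ := hab
  unfold del
  split_ifs <;> omega

lemma del_surj {a b m : ℤ} (hm : ¬ (a ≤ m ∧ m ≤ b)) : m ∈ Set.range (del a b) := by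
  by_cases h : m < a
  · refine ⟨m - a + 1, ?_⟩
    unfold del
    rw [if_pos (by omega)]; ring
  · refine ⟨m - b, ?_⟩
    unfold del
    rw [if_neg (by omega)]; ring

lemma del_E {X : ℤ → ℕ × ℕ} {a b : ℤ} (hab : a ≤ b + 1) (hI : Closed X a b) {i j : ℤ}
    (hij : i < j) : E (fun i => X (del a b i)) i j ↔ E X (del a b i) (del a b j) := by
  refine embed_E (X := X) (Y := fun i => X (del a b i)) (f := del a b) (p := i) (q := j)
    (del_strictMono hab) (fun _ _ _ => rfl) ?_ (j - i).toNat i j le_rfl hij le_rfl le_rfl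
  intro k _ _ m _ _ hm
  have hm' : a ≤ m ∧ m ≤ b := by
    by_contra h
    exact hm (del_surj h)
  have hk := del_not_mem (i := k) hab
  constructor
  · intro hE
    have := hI.mem_of_adj hm'.1 hm'.2 (j := del a b k) (Or.inr hE)
    omega
  · intro hE
    have := hI.mem_of_adj hm'.1 hm'.2 (j := del a b k) (Or.inl hE)
    omega

lemma del_closed {X : ℤ → ℕ × ℕ} {a b : ℤ} (hab : a ≤ b + 1) (hI : Closed X a b) {c d : ℤ}
    (hc : c ≤ 1) (hd : 0 ≤ d) :
    Closed (fun i => X (del a b i)) c d ↔ Closed X (c + a - 1) (d + b) := by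
  have hf := del_strictMono hab
  have e1 : ∀ i, rc (fun i => X (del a b i)) i d = rc X (del a b i) (d + b) := by
    intro i
    refine embed_rc (X := X) (f := del a b) hf (fun m hm _ => del_E hab hI hm) ?_ ?_
    · intro m _ hm
      unfold del
      split_ifs <;> omega
    · intro m' h1 h2 hE
      have hm' : ¬ (a ≤ m' ∧ m' ≤ b) := by
        intro h
        have h3 := hI.mem_of_adj h.1 h.2 (j := del a b i) (Or.inr hE)
        have := del_not_mem (i := i) hab
        omega
      obtain ⟨m, rfl⟩ := del_surj hm'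
      refine ⟨m, ?_, rfl⟩
      unfold del at h2
      split_ifs at h2 <;> omega
  have e2 : ∀ i, lc (fun i => X (del a b i)) c i = lc X (c + a - 1) (del a b i) := by
    intro i
    refine embed_lc (X := X) (f := del a b) hf (fun m hm _ => del_E hab hI hm) ?_ ?_
    · intro m _ hm
      unfold del
      split_ifs <;> omega
    · intro m' h1 h2 hE
      have hm' : ¬ (a ≤ m' ∧ m' ≤ b) := by
        intro h
        have h3 := hI.mem_of_adj h.1 h.2 (j := del a b i) (Or.inl hE)
        have := del_not_mem (i := i) hab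
        omega
      obtain ⟨m, rfl⟩ := del_surj hm'
      refine ⟨m, ?_, rfl⟩
      unfold del at h2
      split_ifs at h2 <;> omega
  constructor
  · intro h k hk1 hk2
    by_cases hk : a ≤ k ∧ k ≤ b
    · obtain ⟨h1, h2⟩ := hI k hk.1 hk.2
      exact ⟨rc_eq_of_le h1 (by omega), lc_eq_of_le h2 (by omega)⟩
    · obtain ⟨i, rfl⟩ := del_surj hk
      have hi : c ≤ i ∧ i ≤ d := by
        unfold del at hk1 hk2
        split_ifs at hk1 hk2 <;> omega
      have := h i hi.1 hi.2
      rw [e1, e2] at this
      exact this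
  · intro h i hi1 hi2
    rw [e1, e2]
    refine h (del a b i) ?_ ?_
    · unfold del
      split_ifs <;> omega
    · unfold del
      split_ifs <;> omega

end Pool.Agent.W_MP_63dac5_pr
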