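import Pool.Agent.W_MP_63dac5_pr.Model

/-!
# Deterministic facts on the procedure
-/

namespace Pool.Agent.W_MP_63dac5_pr

open Set

/-- The identity enumeration of the points. -/
def idT : ℤ → ℝ := fun n => (n : ℝ)

/-- `E X i j`: the points `i < j` are joined. -/
def E (X : ℤ → ℕ × ℕ) (i j : ℤ) : Prop := ∃ k, (i, j) ∈ stage idT X k

lemma stage_congr {T : ℤ → ℝ} (hT : StrictMono T) (X : ℤ → ℕ × ℕ) (k : ℕ) :
    stage T X k = stage idT X k := by
  induction k with
  | zero => rfl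
  | succ k ih =>
    simp only [stage, ih, hT.lt_iff_lt]
    simp only [idT, Int.cast_lt]

lemma graph_congr {T : ℤ → ℝ} (hT : StrictMono T) (X : ℤ → ℕ × ℕ) :
    graph T X = SimpleGraph.fromRel (E X) := by
  unfold graph
  congr 1
  ext i j
  simp only [E, stage_congr hT]

lemma stage_succ_mem (X : ℤ → ℕ × ℕ) (k : ℕ) (i j : ℤ) :
    (i, j) ∈ stage idT X (k + 1) ↔ (i, j) ∈ stage idT X k ∨ (j = i + k + 1 ∧
      {m | (i, m) ∈ stage idT X k}.ncard < (X i).2 ∧
      {m | (m, j) ∈ stage idT X k}.ncard < (X j).1) := by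
  have key : (idT i < idT j ∧ {m | idT i < idT m ∧ idT m < idT j}.encard = (k : ℕ∞)) ↔
      j = i + k + 1 := by
    simp only [idT, Int.cast_lt]
    have hset : {m : ℤ | i < m ∧ m < j} = ((Finset.Ioo i j : Finset ℤ) : Set ℤ) := by
      ext m; simp
    rw [hset, Set.encard_coe_eq_coe_finsetCard, Int.card_Ioo]
    constructor
    · rintro ⟨h1, h2⟩
      have h2' : (j - i - 1).toNat = k := by exact_mod_cast h2
      omega
    · intro h
      refine ⟨by omega, ?_⟩
      have : (j - i - 1).toNat = k := by omega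
      rw [this]
  constructor
  · intro h
    rcases h with h | ⟨h1, h2, h3, h4⟩
    · exact Or.inl h
    · exact Or.inr ⟨key.1 ⟨h1, h2⟩, h3, h4⟩
  · rintro (h | ⟨h1, h3, h4⟩)
    · exact Or.inl h
    · obtain ⟨h1, h2⟩ := key.2 h1
      exact Or.inr ⟨h1, h2, h3, h4⟩

lemma stage_bounds (X : ℤ → ℕ × ℕ) (k : ℕ) {i j : ℤ} (h : (i, j) ∈ stage idT X k) :
    i < j ∧ j ≤ i + k := by
  induction k with
  | zero => exact absurd h (by simp [stage])
  | succ k ih =>
    rw [stage_succ_mem] at h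
    rcases h with h | ⟨h, -, -⟩
    · obtain ⟨h1, h2⟩ := ih h
      push_cast
      omega
    · push_cast
      omega

lemma stage_mono (X : ℤ → ℕ × ℕ) : Monotone (stage idT X) :=
  monotone_nat_of_le_succ fun k => by
    intro e he
    obtain ⟨i, j⟩ := e
    exact (stage_succ_mem X k i j).2 (Or.inl he)

lemma stage_eq (X : ℤ → ℕ × ℕ) (k : ℕ) (i j : ℤ) :
    (i, j) ∈ stage idT X k ↔ E X i j ∧ j ≤ i + k := by
  constructor
  · intro h
    exact ⟨⟨k, h⟩, (stage_bounds X k h).2⟩
  · rintro ⟨⟨n, hn⟩, hle⟩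
    by_cases hkn : n ≤ k
    · exact stage_mono X hkn hn
    push Not at hkn
    -- go down from n to k
    have : ∀ d : ℕ, (i, j) ∈ stage idT X (k + d) → (i, j) ∈ stage idT X k := by
      intro d
      induction d with
      | zero => exact id
      | succ d ih =>
        intro h
        rw [← add_assoc, stage_succ_mem] at h
        rcases h with h | ⟨h, -, -⟩
        · exact ih h
        · exfalso
          push_cast at h
          omega
    obtain ⟨d, rfl⟩ := Nat.exists_eq_add_of_le hkn.le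
    exact this d hn

lemma E_lt {X : ℤ → ℕ × ℕ} {i j : ℤ} (h : E X i j) : i < j := by
  obtain ⟨k, hk⟩ := h
  exact (stage_bounds X k hk).1

open Classical in
/-- number of right edges of `i` ending in `(i, n]`. -/
noncomputable def rc (X : ℤ → ℕ × ℕ) (i n : ℤ) : ℕ := ((Finset.Ioc i n).filter (fun m => E X i m)).card

open Classical in
/-- number of left edges of `j` starting in `[a, j)`. -/
noncomputable def lc (X : ℤ → ℕ × ℕ) (a j : ℤ) : ℕ := ((Finset.Ico a j).filter (fun m => E X m j)).card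

/-- The characterization of the edges. -/
lemma E_iff (X : ℤ → ℕ × ℕ) {i j : ℤ} (hij : i < j) :
    E X i j ↔ rc X i (j - 1) < (X i).2 ∧ lc X (i + 1) j < (X j).1 := by
  classical
  obtain ⟨k, hk⟩ : ∃ k : ℕ, j = i + k + 1 := ⟨(j - i - 1).toNat, by omega⟩
  have h1 : {m | (i, m) ∈ stage idT X k}.ncard = rc X i (j - 1) := by
    unfold rc
    rw [← Set.ncard_coe_finset]
    congr 1
    ext m
    simp only [Finset.coe_filter, Finset.mem_Ioc, Set.mem_ofPred_eq, stage_eq]
    constructor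
    · rintro ⟨h1, h2⟩
      exact ⟨⟨E_lt h1, by omega⟩, h1⟩
    · rintro ⟨h1, h2⟩
      exact ⟨h2, by omega⟩
  have h2 : {m | (m, j) ∈ stage idT X k}.ncard = lc X (i + 1) j := by
    unfold lc
    rw [← Set.ncard_coe_finset]
    congr 1
    ext m
    simp only [Finset.coe_filter, Finset.mem_Ico, Set.mem_ofPred_eq, stage_eq]
    constructor
    · rintro ⟨h1, h2⟩
      exact ⟨⟨by omega, E_lt h1⟩, h1⟩
    · rintro ⟨h1, h2⟩
      exact ⟨h2, by omega⟩
  have h3 : E X i j ↔ (i, j) ∈ stage idT X (k + 1) := by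
    rw [stage_eq]
    push_cast
    constructor
    · intro h; exact ⟨h, by omega⟩
    · exact fun h => h.1
  rw [h3, stage_succ_mem, h1, h2]
  constructor
  · rintro (h | ⟨-, h⟩)
    · exfalso
      have := (stage_bounds X k h).2
      omega
    · exact h
  · intro h
    exact Or.inr ⟨hk, h⟩

lemma rc_succ (X : ℤ → ℕ × ℕ) {i n : ℤ} (h : i ≤ n) [Decidable (E X i (n + 1))] :
    rc X i (n + 1) = rc X i n + (if E X i (n + 1) then 1 else 0) := by
  classical
  unfold rc
  have : Finset.Ioc i (n + 1) = insert (n + 1) (Finset.Ioc i n) := by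
    ext m; simp only [Finset.mem_Ioc, Finset.mem_insert]; omega
  rw [this, Finset.filter_insert]
  split_ifs with h1
  · rw [Finset.card_insert_of_notMem]
    simp
  · rfl

lemma lc_pred (X : ℤ → ℕ × ℕ) {a j : ℤ} (h : a < j) [Decidable (E X a j)] :
    lc X a j = lc X (a + 1) j + (if E X a j then 1 else 0) := by
  classical
  unfold lc
  have : Finset.Ico a j = insert a (Finset.Ico (a + 1) j) := by
    ext m; simp only [Finset.mem_Ico, Finset.mem_insert]; omega
  rw [this, Finset.filter_insert]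
  split_ifs with h1
  · rw [Finset.card_insert_of_notMem]
    simp
  · rfl

lemma rc_of_le (X : ℤ → ℕ × ℕ) {i n : ℤ} (h : n ≤ i) : rc X i n = 0 := by
  unfold rc
  rw [Finset.Ioc_eq_empty (by omega)]
  simp

lemma lc_of_le (X : ℤ → ℕ × ℕ) {a j : ℤ} (h : j ≤ a) : lc X a j = 0 := by
  unfold lc
  rw [Finset.Ico_eq_empty (by omega)]
  simp

lemma rc_mono (X : ℤ → ℕ × ℕ) (i : ℤ) {n n' : ℤ} (h : n ≤ n') : rc X i n ≤ rc X i n' := by
  classical
  unfold rc
  exact Finset.card_le_card (Finset.filter_subset_filter _ (Finset.Ioc_subset_Ioc le_rfl h))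

lemma lc_anti (X : ℤ → ℕ × ℕ) (j : ℤ) {a a' : ℤ} (h : a ≤ a') : lc X a' j ≤ lc X a j := by
  classical
  unfold lc
  exact Finset.card_le_card (Finset.filter_subset_filter _ (Finset.Ico_subset_Ico h le_rfl))

lemma rc_le (X : ℤ → ℕ × ℕ) (i n : ℤ) : rc X i n ≤ (X i).2 := by
  classical
  by_cases h : n ≤ i
  · rw [rc_of_le X h]; exact Nat.zero_le _
  push Not at h
  obtain ⟨k, rfl⟩ : ∃ k : ℕ, n = i + k := ⟨(n - i).toNat, by omega⟩
  clear h
  induction k with
  | zero => rw [rc_of_le X (by simp)]; exact Nat.zero_le _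
  | succ k ih =>
    have e : i + ((k + 1 : ℕ) : ℤ) = (i + k) + 1 := by push_cast; ring
    rw [e, rc_succ X (by omega)]
    split_ifs with h
    · rw [E_iff X (by omega)] at h
      have h1 := h.1
      rw [show i + (k : ℤ) + 1 - 1 = i + k by ring] at h1
      omega
    · simpa using ih

lemma lc_le (X : ℤ → ℕ × ℕ) (a j : ℤ) : lc X a j ≤ (X j).1 := by
  classical
  by_cases h : j ≤ a
  · rw [lc_of_le X h]; exact Nat.zero_le _
  push Not at h
  obtain ⟨k, rfl⟩ : ∃ k : ℕ, a = j - k := ⟨(j - a).toNat, by omega⟩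
  clear h
  induction k with
  | zero => rw [lc_of_le X (by simp)]; exact Nat.zero_le _
  | succ k ih =>
    have e : j - ((k + 1 : ℕ) : ℤ) + 1 = (j - k) := by push_cast; ring
    rw [lc_pred X (by push_cast; omega), e]
    split_ifs with h
    · rw [E_iff X (by push_cast; omega), e] at h
      omega
    · simpa using ih

/-- crossing edges -/
lemma E_cross {X : ℤ → ℕ × ℕ} {x x' y y' : ℤ} (h1 : x < x') (h2 : x' < y) (h3 : y < y')
    (e1 : E X x y) (e2 : E X x' y') : E X x' y := by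
  rw [E_iff X (by omega)]
  constructor
  · have := ((E_iff X (by omega)).1 e2).1
    exact lt_of_le_of_lt (rc_mono X x' (by omega)) this
  · have := ((E_iff X (by omega)).1 e1).2
    exact lt_of_le_of_lt (lc_anti X y (by omega)) this

/-- The interval `[a, b]` is closed: all stubs of its points are used within it. -/
def Closed (X : ℤ → ℕ × ℕ) (a b : ℤ) : Prop :=
  ∀ i, a ≤ i → i ≤ b → rc X i b = (X i).2 ∧ lc X a i = (X i).1

lemma not_E_of_rc {X : ℤ → ℕ × ℕ} {i b m : ℤ} (h : rc X i b = (X i).2) (hm : b < m) :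
    ¬ E X i m := by
  intro hE
  have h1 := ((E_iff X (E_lt hE)).1 hE).1
  have h2 : rc X i b ≤ rc X i (m - 1) := rc_mono X i (by omega)
  omega

lemma not_E_of_lc {X : ℤ → ℕ × ℕ} {i a m : ℤ} (h : lc X a i = (X i).1) (hm : m < a) :
    ¬ E X m i := by
  intro hE
  have h1 := ((E_iff X (E_lt hE)).1 hE).2
  have h2 : lc X a i ≤ lc X (m + 1) i := lc_anti X i (by omega)
  omega

lemma rc_eq_of_le {X : ℤ → ℕ × ℕ} {i b c : ℤ} (h : rc X i b = (X i).2) (hc : b ≤ c) :
    rc X i c = (X i).2 :=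
  le_antisymm (rc_le X i c) (h ▸ rc_mono X i hc)

lemma lc_eq_of_le {X : ℤ → ℕ × ℕ} {i a c : ℤ} (h : lc X a i = (X i).1) (hc : c ≤ a) :
    lc X c i = (X i).1 :=
  le_antisymm (lc_le X c i) (h ▸ lc_anti X i hc)

/-- union of two overlapping or adjacent closed intervals. -/
lemma Closed.union {X : ℤ → ℕ × ℕ} {a b c d : ℤ} (h1 : Closed X a b) (h2 : Closed X c d)
    (hcb : c ≤ b + 1) (had : a ≤ d + 1) : Closed X (min a c) (max b d) := by
  intro i hi1 hi2
  by_cases hab : a ≤ i ∧ i ≤ b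
  · obtain ⟨h3, h4⟩ := h1 i hab.1 hab.2
    exact ⟨rc_eq_of_le h3 (le_max_left _ _), lc_eq_of_le h4 (min_le_left _ _)⟩
  · have hcd : c ≤ i ∧ i ≤ d := by
      rcases min_le_iff.1 hi1 with h | h <;> rcases le_max_iff.1 hi2 with h' | h' <;> omega
    obtain ⟨h3, h4⟩ := h2 i hcd.1 hcd.2
    exact ⟨rc_eq_of_le h3 (le_max_right _ _), lc_eq_of_le h4 (min_le_right _ _)⟩

/-- no edge leaves a closed interval. -/
lemma Closed.mem_of_adj {X : ℤ → ℕ × ℕ} {a b i j : ℤ} (h : Closed X a b) (hi : a ≤ i) (hi' : i ≤ b)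
    (hE : E X i j ∨ E X j i) : a ≤ j ∧ j ≤ b := by
  obtain ⟨h1, h2⟩ := h i hi hi'
  rcases hE with hE | hE
  · have := E_lt hE
    refine ⟨by omega, ?_⟩
    by_contra hb
    exact not_E_of_rc h1 (by omega) hE
  · have := E_lt hE
    refine ⟨?_, by omega⟩
    by_contra hb
    exact not_E_of_lc h2 (by omega) hE

/-- The graph on the indices. -/
def G (X : ℤ → ℕ × ℕ) : SimpleGraph ℤ := SimpleGraph.fromRel (E X)

lemma G_adj {X : ℤ → ℕ × ℕ} {i j : ℤ} : (G X).Adj i j ↔ E X i j ∨ E X j i := by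
  unfold G
  rw [SimpleGraph.fromRel_adj]
  constructor
  · exact fun h => h.2
  · intro h
    refine ⟨?_, h⟩
    rcases h with h | h
    · exact (E_lt h).ne
    · exact (E_lt h).ne'

/-- the component of a point of a closed interval stays in the interval. -/
lemma Closed.reachable {X : ℤ → ℕ × ℕ} {a b i j : ℤ} (h : Closed X a b) (hi : a ≤ i) (hi' : i ≤ b)
    (hr : (G X).Reachable i j) : a ≤ j ∧ j ≤ b := by
  obtain ⟨w⟩ := hr
  induction w with
  | nil => exact ⟨hi, hi'⟩
  | cons hadj p ih =>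
    obtain ⟨h1, h2⟩ := h.mem_of_adj hi hi' (G_adj.1 hadj)
    exact ih h1 h2

lemma Closed.finite {X : ℤ → ℕ × ℕ} {a b i : ℤ} (h : Closed X a b) (hi : a ≤ i) (hi' : i ≤ b) :
    {j | (G X).Reachable i j}.Finite :=
  (Set.finite_Icc a b).subset fun _ hj => h.reachable hi hi' hj

end Pool.Agent.W_MP_63dac5_pr
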