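import Pool.Agent.W_MP_63dac5_pr.Graph

/-!
# Hulls of components, double counting, embeddings
-/

namespace Pool.Agent.W_MP_63dac5_pr

open Set

/-! ### Degree bounds and double counting -/

open Classical in
lemma card_right_le (X : ℤ → ℕ × ℕ) (m : ℤ) (B : Finset ℤ) :
    (B.filter (fun j => E X m j)).card ≤ (X m).2 := by
  classical
  obtain ⟨n, hn⟩ : ∃ n, ∀ j ∈ B, j ≤ n := B.bddAbove.imp fun n hn j hj => hn hj
  refine le_trans (Finset.card_le_card ?_) (rc_le X m n)
  intro j hj
  rw [Finset.mem_filter] at hj ⊢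
  exact ⟨Finset.mem_Ioc.2 ⟨E_lt hj.2, hn j hj.1⟩, hj.2⟩

open Classical in
lemma card_left_le (X : ℤ → ℕ × ℕ) (j : ℤ) (B : Finset ℤ) :
    (B.filter (fun m => E X m j)).card ≤ (X j).1 := by
  classical
  obtain ⟨n, hn⟩ : ∃ n, ∀ j ∈ B, n ≤ j := B.bddBelow.imp fun n hn j hj => hn hj
  refine le_trans (Finset.card_le_card ?_) (lc_le X n j)
  intro m hm
  rw [Finset.mem_filter] at hm ⊢
  exact ⟨Finset.mem_Ico.2 ⟨hn m hm.1, E_lt hm.2⟩, hm.2⟩

open Classical in
lemma double_count (X : ℤ → ℕ × ℕ) (A B : Finset ℤ) :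
    ∑ m ∈ A, (B.filter (fun j => E X m j)).card = ∑ j ∈ B, (A.filter (fun m => E X m j)).card :=
  Finset.sum_card_bipartiteAbove_eq_sum_card_bipartiteBelow (E X)

/-- the stubs to the right of the points of `[i, b]` are used by points of `(i, b]`. -/
lemma Closed.right_le {X : ℤ → ℕ × ℕ} {a b : ℤ} (h : Closed X a b) {i : ℤ} (hi : a ≤ i) :
    ∑ j ∈ Finset.Icc i b, (X j).2 ≤ ∑ j ∈ Finset.Ioc i b, (X j).1 := by
  classical
  calc ∑ j ∈ Finset.Icc i b, (X j).2 = ∑ m ∈ Finset.Icc i b, rc X m b := by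
        refine Finset.sum_congr rfl fun m hm => ?_
        rw [Finset.mem_Icc] at hm
        exact ((h m (by omega) hm.2).1).symm
    _ ≤ ∑ m ∈ Finset.Icc i b, ((Finset.Ioc i b).filter (fun j => E X m j)).card := by
        refine Finset.sum_le_sum fun m hm => ?_
        rw [Finset.mem_Icc] at hm
        unfold rc
        exact Finset.card_le_card (Finset.filter_subset_filter _
          (Finset.Ioc_subset_Ioc hm.1 le_rfl))
    _ = ∑ j ∈ Finset.Ioc i b, ((Finset.Icc i b).filter (fun m => E X m j)).card :=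
        double_count X _ _
    _ ≤ _ := Finset.sum_le_sum fun j _ => card_left_le X j _

/-- the stubs to the left of the points of `[a, i]` are used by points of `[a, i)`. -/
lemma Closed.left_le {X : ℤ → ℕ × ℕ} {a b : ℤ} (h : Closed X a b) {i : ℤ} (hi : i ≤ b) :
    ∑ j ∈ Finset.Icc a i, (X j).1 ≤ ∑ j ∈ Finset.Ico a i, (X j).2 := by
  classical
  calc ∑ j ∈ Finset.Icc a i, (X j).1 = ∑ m ∈ Finset.Icc a i, lc X a m := by
        refine Finset.sum_congr rfl fun m hm => ?_
        rw [Finset.mem_Icc] at hm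
        exact ((h m hm.1 (by omega)).2).symm
    _ ≤ ∑ j ∈ Finset.Icc a i, ((Finset.Ico a i).filter (fun m => E X m j)).card := by
        refine Finset.sum_le_sum fun m hm => ?_
        rw [Finset.mem_Icc] at hm
        unfold lc
        exact Finset.card_le_card (Finset.filter_subset_filter _
          (Finset.Ico_subset_Ico le_rfl hm.2))
    _ = ∑ m ∈ Finset.Ico a i, ((Finset.Icc a i).filter (fun j => E X m j)).card :=
        (double_count X _ _).symm
    _ ≤ _ := Finset.sum_le_sum fun m _ => card_right_le X m _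

/-- a point with a right stub that is never used. -/
lemma unmatched_right {X : ℤ → ℕ × ℕ} {x : ℤ} (h : ∀ n, rc X x n < (X x).2) :
    ∃ (y0 : ℤ) (k : ℕ), ∀ y, y0 < y →
      ∑ j ∈ Finset.Ioc y0 y, (X j).1 ≤ k + ∑ j ∈ Finset.Ioo y0 y, (X j).2 := by
  classical
  -- `rc X x n` is eventually constant
  obtain ⟨n0, hn0⟩ : ∃ n0, ∀ n, rc X x n ≤ rc X x n0 := by
    have hb : BddAbove (Set.range (rc X x)) := ⟨(X x).2, by
      rintro _ ⟨n, rfl⟩; exact rc_le X x n⟩
    obtain ⟨n0, h0⟩ := Nat.sSup_mem (Set.range_nonempty (rc X x)) hb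
    refine ⟨n0, fun n => ?_⟩
    rw [h0]
    exact le_csSup hb ⟨n, rfl⟩
  set y0 := max n0 x with hy0
  refine ⟨y0, ∑ m ∈ Finset.Ioc x y0, (X m).2, fun y hy => ?_⟩
  have hnot : ∀ j, y0 < j → ¬ E X x j := by
    intro j hj hE
    have h1 : x ≤ j - 1 := by omega
    have h2 := rc_succ X h1
    rw [show j - 1 + 1 = j by ring, if_pos hE] at h2
    have h3 := hn0 j
    have h4 : rc X x n0 ≤ rc X x (j - 1) := rc_mono X x (by omega)
    omega
  have hfull : ∀ j, y0 < j → lc X (x + 1) j = (X j).1 := by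
    intro j hj
    have h1 := hnot j hj
    rw [E_iff X (by omega)] at h1
    have h2 := h (j - 1)
    have h3 : ¬ lc X (x + 1) j < (X j).1 := fun h4 => h1 ⟨h2, h4⟩
    exact le_antisymm (lc_le X _ _) (not_lt.1 h3)
  calc ∑ j ∈ Finset.Ioc y0 y, (X j).1 = ∑ j ∈ Finset.Ioc y0 y, lc X (x + 1) j := by
        refine Finset.sum_congr rfl fun j hj => ?_
        rw [Finset.mem_Ioc] at hj
        exact (hfull j hj.1).symm
    _ ≤ ∑ j ∈ Finset.Ioc y0 y, ((Finset.Ioo x y).filter (fun m => E X m j)).card := by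
        refine Finset.sum_le_sum fun j hj => ?_
        rw [Finset.mem_Ioc] at hj
        unfold lc
        refine Finset.card_le_card (Finset.filter_subset_filter _ ?_)
        intro m hm
        rw [Finset.mem_Ico] at hm
        rw [Finset.mem_Ioo]
        omega
    _ = ∑ m ∈ Finset.Ioo x y, ((Finset.Ioc y0 y).filter (fun j => E X m j)).card :=
        (double_count X _ _).symm
    _ ≤ ∑ m ∈ Finset.Ioo x y, (X m).2 := Finset.sum_le_sum fun m _ => card_right_le X m _
    _ = _ := by
        rw [← Finset.sum_union]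
        · congr 1
          ext m
          simp only [Finset.mem_union, Finset.mem_Ioc, Finset.mem_Ioo]
          omega
        · rw [Finset.disjoint_left]
          intro m hm
          simp only [Finset.mem_Ioc, Finset.mem_Ioo] at hm ⊢
          omega

/-- a point with a left stub that is never used. -/
lemma unmatched_left {X : ℤ → ℕ × ℕ} {x : ℤ} (h : ∀ n, lc X n x < (X x).1) :
    ∃ (y0 : ℤ) (k : ℕ), ∀ y, y < y0 →
      ∑ j ∈ Finset.Ico y y0, (X j).2 ≤ k + ∑ j ∈ Finset.Ioo y y0, (X j).1 := by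
  classical
  obtain ⟨n0, hn0⟩ : ∃ n0, ∀ n, lc X n x ≤ lc X n0 x := by
    have hb : BddAbove (Set.range (fun n => lc X n x)) := ⟨(X x).1, by
      rintro _ ⟨n, rfl⟩; exact lc_le X n x⟩
    obtain ⟨n0, h0⟩ := Nat.sSup_mem (Set.range_nonempty (fun n => lc X n x)) hb
    refine ⟨n0, fun n => ?_⟩
    have h0' : lc X n0 x = sSup (Set.range (fun n => lc X n x)) := h0
    rw [h0']
    exact le_csSup hb ⟨n, rfl⟩
  set y0 := min n0 x with hy0
  refine ⟨y0, ∑ m ∈ Finset.Ico y0 x, (X m).1, fun y hy => ?_⟩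
  have hnot : ∀ j, j < y0 → ¬ E X j x := by
    intro j hj hE
    have h1 : j < x := by omega
    have h2 := lc_pred X h1
    rw [if_pos hE] at h2
    have h3 := hn0 j
    have h4 : lc X n0 x ≤ lc X (j + 1) x := lc_anti X x (by omega)
    omega
  have hfull : ∀ j, j < y0 → rc X j (x - 1) = (X j).2 := by
    intro j hj
    have h1 := hnot j hj
    rw [E_iff X (by omega)] at h1
    have h2 := h (j + 1)
    have h3 : ¬ rc X j (x - 1) < (X j).2 := fun h4 => h1 ⟨h4, h2⟩
    exact le_antisymm (rc_le X _ _) (not_lt.1 h3)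
  calc ∑ j ∈ Finset.Ico y y0, (X j).2 = ∑ j ∈ Finset.Ico y y0, rc X j (x - 1) := by
        refine Finset.sum_congr rfl fun j hj => ?_
        rw [Finset.mem_Ico] at hj
        exact (hfull j hj.2).symm
    _ ≤ ∑ m ∈ Finset.Ico y y0, ((Finset.Ioo y x).filter (fun j => E X m j)).card := by
        refine Finset.sum_le_sum fun j hj => ?_
        rw [Finset.mem_Ico] at hj
        unfold rc
        refine Finset.card_le_card (Finset.filter_subset_filter _ ?_)
        intro m hm
        rw [Finset.mem_Ioc] at hm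
        rw [Finset.mem_Ioo]
        omega
    _ = ∑ j ∈ Finset.Ioo y x, ((Finset.Ico y y0).filter (fun m => E X m j)).card :=
        double_count X _ _
    _ ≤ ∑ m ∈ Finset.Ioo y x, (X m).1 := Finset.sum_le_sum fun m _ => card_left_le X m _
    _ = _ := by
        rw [← Finset.sum_union]
        · congr 1
          ext m
          simp only [Finset.mem_union, Finset.mem_Ico, Finset.mem_Ioo]
          omega
        · rw [Finset.disjoint_left]
          intro m hm
          simp only [Finset.mem_Ico, Finset.mem_Ioo] at hm ⊢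
          omega

/-! ### Hulls -/

/-- All stubs are used. -/
def Matched (X : ℤ → ℕ × ℕ) : Prop :=
  ∀ i, (∃ n, rc X i n = (X i).2) ∧ (∃ n, lc X n i = (X i).1)

/-- if `p` is not in the component of `i`, but between two of its points, then an edge of the
component jumps over `p`. -/
lemma exists_jump {X : ℤ → ℕ × ℕ} {i a b p : ℤ} (ha : (G X).Reachable i a)
    (hb : (G X).Reachable i b) (hp : ¬ (G X).Reachable i p) (hap : a < p) (hpb : p < b) :
    ∃ x y, (G X).Reachable i x ∧ (G X).Reachable i y ∧ x < p ∧ p < y ∧ E X x y := by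
  classical
  obtain ⟨w⟩ := ha.symm.trans hb
  obtain ⟨d, hd, h1, h2⟩ := w.exists_boundary_dart {j | j < p} hap (by
    intro h
    have h' : b < p := h
    omega)
  have hx : (G X).Reachable i d.fst := by
    refine ha.trans ?_
    exact (w.takeUntil d.fst (w.dart_fst_mem_support_of_mem_darts hd)).reachable
  have hy : (G X).Reachable i d.snd := hx.trans d.adj.reachable
  have h1' : d.fst < p := h1
  have h2' : ¬ d.snd < p := h2
  have h3 : d.snd ≠ p := fun h => hp (h ▸ hy)
  have hadj := G_adj.1 d.adj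
  refine ⟨d.fst, d.snd, hx, hy, h1', by omega, ?_⟩
  rcases hadj with h | h
  · exact h
  · exfalso
    have := E_lt h
    omega

lemma hull_closed {X : ℤ → ℕ × ℕ} (hM : Matched X) (i : ℤ)
    (hfin : {j | (G X).Reachable i j}.Finite) :
    ∃ a b, a ≤ i ∧ i ≤ b ∧ Closed X a b := by
  classical
  have hne : {j | (G X).Reachable i j}.Nonempty := ⟨i, SimpleGraph.Reachable.refl i⟩
  obtain ⟨a, ha, hamin⟩ := Set.exists_min_image _ id hfin hne
  obtain ⟨b, hb, hbmax⟩ := Set.exists_max_image _ id hfin hne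
  have ha' : (G X).Reachable i a := ha
  have hb' : (G X).Reachable i b := hb
  have hmin : ∀ j, (G X).Reachable i j → a ≤ j := fun j hj => hamin j hj
  have hmax : ∀ j, (G X).Reachable i j → j ≤ b := fun j hj => hbmax j hj
  have hright : ∀ p, a ≤ p → p ≤ b → ∀ m, E X p m → m ≤ b := by
    intro p hp1 hp2 m hE
    by_contra hmb
    push Not at hmb
    by_cases hpC : (G X).Reachable i p
    · have := hmax m (hpC.trans (G_adj.2 (Or.inl hE) : (G X).Adj p m).reachable)
      omega
    · have h1 : a ≠ p := fun h => hpC (h ▸ ha')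
      have h2 : b ≠ p := fun h => hpC (h ▸ hb')
      obtain ⟨x, y, hx, hy, hxp, hpy, hxy⟩ := exists_jump ha' hb' hpC (by omega) (by omega)
      have hyb := hmax y hy
      have := E_cross hxp hpy (by omega) hxy hE
      exact hpC (hy.trans (G_adj.2 (Or.inr this) : (G X).Adj y p).reachable)
  have hleft : ∀ p, a ≤ p → p ≤ b → ∀ m, E X m p → a ≤ m := by
    intro p hp1 hp2 m hE
    by_contra hma
    push Not at hma
    by_cases hpC : (G X).Reachable i p
    · have := hmin m (hpC.trans (G_adj.2 (Or.inr hE) : (G X).Adj p m).reachable)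
      omega
    · have h1 : a ≠ p := fun h => hpC (h ▸ ha')
      have h2 : b ≠ p := fun h => hpC (h ▸ hb')
      obtain ⟨x, y, hx, hy, hxp, hpy, hxy⟩ := exists_jump ha' hb' hpC (by omega) (by omega)
      have hxa := hmin x hx
      have := E_cross (by omega) hxp hpy hE hxy
      exact hpC (hx.trans (G_adj.2 (Or.inl this) : (G X).Adj x p).reachable)
  refine ⟨a, b, hmin i (SimpleGraph.Reachable.refl i), hmax i (SimpleGraph.Reachable.refl i), ?_⟩
  intro p hp1 hp2
  obtain ⟨⟨n, hn⟩, ⟨n', hn'⟩⟩ := hM p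
  constructor
  · refine le_antisymm (rc_le X p b) (hn ▸ ?_)
    unfold rc
    refine Finset.card_le_card fun m hm => ?_
    rw [Finset.mem_filter, Finset.mem_Ioc] at hm ⊢
    exact ⟨⟨hm.1.1, hright p hp1 hp2 m hm.2⟩, hm.2⟩
  · refine le_antisymm (lc_le X a p) (hn' ▸ ?_)
    unfold lc
    refine Finset.card_le_card fun m hm => ?_
    rw [Finset.mem_filter, Finset.mem_Ico] at hm ⊢
    exact ⟨⟨hleft p hp1 hp2 m hm.2, hm.1.2⟩, hm.2⟩

lemma exists_big_closed {X : ℤ → ℕ × ℕ} (hM : Matched X)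
    (hfin : ∀ i, {j | (G X).Reachable i j}.Finite) (N : ℕ) :
    ∃ a b, a ≤ 0 ∧ 0 ≤ b ∧ Closed X a b ∧ (N : ℤ) ≤ b - a := by
  induction N with
  | zero =>
    obtain ⟨a, b, h1, h2, h3⟩ := hull_closed hM 0 (hfin 0)
    exact ⟨a, b, h1, h2, h3, by push_cast; omega⟩
  | succ N ih =>
    obtain ⟨a, b, h1, h2, h3, h4⟩ := ih
    obtain ⟨c, d, h5, h6, h7⟩ := hull_closed hM (b + 1) (hfin (b + 1))
    refine ⟨min a c, max b d, by omega, by omega, h3.union h7 h5 (by omega), ?_⟩
    push_cast
    omega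

/-! ### Embeddings -/

section Embed

variable {X Y : ℤ → ℕ × ℕ} {f : ℤ → ℤ} {p q : ℤ}

lemma embed_rc (hf : StrictMono f) {i n n' : ℤ}
    (hE : ∀ m, i < m → m ≤ n → (E Y i m ↔ E X (f i) (f m)))
    (h1 : ∀ m, i < m → m ≤ n → f m ≤ n')
    (h2 : ∀ m', f i < m' → m' ≤ n' → E X (f i) m' → ∃ m, m ≤ n ∧ f m = m') :
    rc Y i n = rc X (f i) n' := by
  classical
  unfold rc
  rw [← Finset.card_image_of_injective _ hf.injective]
  congr 1
  ext m'
  simp only [Finset.mem_image, Finset.mem_filter, Finset.mem_Ioc]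
  constructor
  · rintro ⟨m, ⟨⟨hm1, hm2⟩, hm3⟩, rfl⟩
    exact ⟨⟨hf hm1, h1 m hm1 hm2⟩, (hE m hm1 hm2).1 hm3⟩
  · rintro ⟨⟨hm1, hm2⟩, hm3⟩
    obtain ⟨m, hmn, rfl⟩ := h2 m' hm1 hm2 hm3
    have him : i < m := hf.lt_iff_lt.1 hm1
    exact ⟨m, ⟨⟨him, hmn⟩, (hE m him hmn).2 hm3⟩, rfl⟩

lemma embed_lc (hf : StrictMono f) {i n n' : ℤ}
    (hE : ∀ m, m < i → n ≤ m → (E Y m i ↔ E X (f m) (f i)))
    (h1 : ∀ m, m < i → n ≤ m → n' ≤ f m)
    (h2 : ∀ m', m' < f i → n' ≤ m' → E X m' (f i) → ∃ m, n ≤ m ∧ f m = m') :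
    lc Y n i = lc X n' (f i) := by
  classical
  unfold lc
  rw [← Finset.card_image_of_injective _ hf.injective]
  congr 1
  ext m'
  simp only [Finset.mem_image, Finset.mem_filter, Finset.mem_Ico]
  constructor
  · rintro ⟨m, ⟨⟨hm1, hm2⟩, hm3⟩, rfl⟩
    exact ⟨⟨h1 m hm2 hm1, hf hm2⟩, (hE m hm2 hm1).1 hm3⟩
  · rintro ⟨⟨hm1, hm2⟩, hm3⟩
    obtain ⟨m, hmn, rfl⟩ := h2 m' hm2 hm1 hm3
    have him : m < i := hf.lt_iff_lt.1 hm2
    exact ⟨m, ⟨⟨hmn, him⟩, (hE m him hmn).2 hm3⟩, rfl⟩

/-- Edges under an embedding onto a set of points which is not joined to its complement. -/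
lemma embed_E (hf : StrictMono f) (hXY : ∀ i, p ≤ i → i ≤ q → Y i = X (f i))
    (hout : ∀ i, p ≤ i → i ≤ q → ∀ m, f p < m → m < f q → m ∉ Set.range f →
      ¬ E X (f i) m ∧ ¬ E X m (f i)) :
    ∀ (k : ℕ) (i j : ℤ), p ≤ i → i < j → j ≤ q → (j - i).toNat ≤ k →
      (E Y i j ↔ E X (f i) (f j)) := by
  intro k
  induction k with
  | zero => intro i j h1 h2 h3 h4; omega
  | succ k ih =>
    intro i j hpi hij hjq hk
    rw [E_iff Y hij, E_iff X (hf hij), hXY i hpi (by omega), hXY j (by omega) hjq]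
    have e1 : rc Y i (j - 1) = rc X (f i) (f j - 1) := by
      refine embed_rc hf (fun m hm1 hm2 => ih i m hpi hm1 (by omega) (by omega)) ?_ ?_
      · intro m hm1 hm2
        have := hf (show m < j by omega)
        omega
      · intro m' hm1 hm2 hE
        have hfp : f p ≤ f i := hf.monotone hpi
        have hfq : f j ≤ f q := hf.monotone hjq
        by_contra hne
        push Not at hne
        have hnr : m' ∉ Set.range f := by
          rintro ⟨m, rfl⟩
          have : m < j := hf.lt_iff_lt.1 (show f m < f j by omega)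
          exact hne m (by omega) rfl
        exact (hout i hpi (by omega) m' (by omega) (by omega) hnr).1 hE
    have e2 : lc Y (i + 1) j = lc X (f i + 1) (f j) := by
      refine embed_lc hf (fun m hm1 hm2 => ih m j (by omega) hm1 hjq (by omega)) ?_ ?_
      · intro m hm1 hm2
        have := hf (show i < m by omega)
        omega
      · intro m' hm1 hm2 hE
        have hfp : f p ≤ f i := hf.monotone hpi
        have hfq : f j ≤ f q := hf.monotone hjq
        by_contra hne
        push Not at hne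
        have hnr : m' ∉ Set.range f := by
          rintro ⟨m, rfl⟩
          have : i < m := hf.lt_iff_lt.1 (show f i < f m by omega)
          exact hne m (by omega) rfl
        exact (hout j (by omega) hjq m' (by omega) (by omega) hnr).2 hE
    rw [e1, e2]

end Embed

/-- `Closed` depends only on the marks in the interval. -/
lemma Closed.congr {X Y : ℤ → ℕ × ℕ} {a b : ℤ} (h : ∀ i, a ≤ i → i ≤ b → Y i = X i) :
    Closed Y a b ↔ Closed X a b := by
  have hE : ∀ i j, a ≤ i → i < j → j ≤ b → (E Y i j ↔ E X i j) := by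
    intro i j h1 h2 h3
    exact embed_E (f := id) (p := a) (q := b) strictMono_id h (by
      intro i _ _ m _ _ hm
      exact absurd ⟨m, rfl⟩ hm) (j - i).toNat i j h1 h2 h3 le_rfl
  unfold Closed
  refine forall_congr' fun i => forall_congr' fun hi1 => forall_congr' fun hi2 => ?_
  have e1 : rc Y i b = rc X i b :=
    embed_rc (f := id) strictMono_id (fun m hm1 hm2 => hE i m hi1 hm1 hm2)
      (fun m _ hm => hm) (fun m' _ hm _ => ⟨m', hm, rfl⟩)
  have e2 : lc Y a i = lc X a i :=
    embed_lc (f := id) strictMono_id (fun m hm1 hm2 => hE m i hm2 hm1 hi2)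
      (fun m _ hm => hm) (fun m' _ hm _ => ⟨m', hm, rfl⟩)
  rw [e1, e2, h i hi1 hi2]

/-- shift. -/
lemma Closed.shift (X : ℤ → ℕ × ℕ) (c a b : ℤ) :
    Closed (fun i => X (i + c)) a b ↔ Closed X (a + c) (b + c) := by
  have hf : StrictMono (fun i : ℤ => i + c) := fun x y h => by simpa using h
  have hE : ∀ i j, i < j → (E (fun i => X (i + c)) i j ↔ E X (i + c) (j + c)) := by
    intro i j h2
    exact embed_E (X := X) (Y := fun i => X (i + c)) (f := fun i => i + c) (p := i) (q := j) hf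
      (fun _ _ _ => rfl) (by
      intro i _ _ m _ _ hm
      exact absurd ⟨m - c, by simp⟩ hm) (j - i).toNat i j le_rfl h2 le_rfl le_rfl
  have e1 : ∀ i, rc (fun i => X (i + c)) i b = rc X (i + c) (b + c) := fun i =>
    embed_rc (X := X) (f := fun i => i + c) hf (fun m hm1 hm2 => hE i m hm1)
      (fun m _ hm => by simpa using hm) (fun m' _ hm _ => ⟨m' - c, by omega, by simp⟩)
  have e2 : ∀ i, lc (fun i => X (i + c)) a i = lc X (a + c) (i + c) := fun i =>
    embed_lc (X := X) (f := fun i => i + c) hf (fun m hm1 hm2 => hE m i hm1)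
      (fun m _ hm => by simpa using hm) (fun m' _ hm _ => ⟨m' - c, by omega, by simp⟩)
  unfold Closed
  constructor
  · intro h i hi1 hi2
    have := h (i - c) (by omega) (by omega)
    rw [e1, e2] at this
    simpa using this
  · intro h i hi1 hi2
    rw [e1, e2]
    exact h (i + c) (by omega) (by omega)

end Pool.Agent.W_MP_63dac5_pr
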