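import Pool.Agent.W_MP_63dac5_pr.Stack

/-!
# Powers of a symmetric kernel and closed words
-/

namespace Pool.Agent.W_MP_63dac5_pr

open ENNReal Finset

section Pow

variable {κ : ℕ → ℕ → ℝ≥0∞}

/-- powers of the kernel. -/
noncomputable def kpow (κ : ℕ → ℕ → ℝ≥0∞) : ℕ → ℕ → ℕ → ℝ≥0∞
  | 0, z, s => if z = s then 1 else 0
  | n + 1, z, s => ∑' y, κ z y * kpow κ n y s

lemma kpow_succ' (κ : ℕ → ℕ → ℝ≥0∞) (n z s : ℕ) :
    kpow κ (n + 1) z s = ∑' y, kpow κ n z y * κ y s := by
  induction n generalizing z with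
  | zero =>
    simp only [kpow, mul_ite, mul_one, mul_zero, ite_mul, one_mul, zero_mul]
    rw [tsum_ite_eq]
    simp_rw [eq_comm (a := z)]
    rw [tsum_ite_eq]
  | succ n ih =>
    have h1 : kpow κ (n + 1 + 1) z s = ∑' y, κ z y * kpow κ (n + 1) y s := rfl
    have h2 : ∀ y, kpow κ (n + 1) z y = ∑' x, κ z x * kpow κ n x y := fun y => rfl
    rw [h1]
    simp only [ih, h2]
    simp_rw [← ENNReal.tsum_mul_left, ← ENNReal.tsum_mul_right]
    rw [ENNReal.tsum_comm]
    refine tsum_congr fun y => tsum_congr fun x => by ring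

lemma kpow_add (κ : ℕ → ℕ → ℝ≥0∞) (m n z s : ℕ) :
    kpow κ (m + n) z s = ∑' y, kpow κ m z y * kpow κ n y s := by
  induction m generalizing z with
  | zero =>
    simp only [kpow, ite_mul, one_mul, zero_mul, zero_add]
    simp_rw [eq_comm (a := z)]
    rw [tsum_ite_eq]
  | succ m ih =>
    have h1 : kpow κ (m + 1 + n) z s = ∑' y, κ z y * kpow κ (m + n) y s := by
      rw [show m + 1 + n = (m + n) + 1 by ring]; rfl
    have h2 : ∀ y, kpow κ (m + 1) z y = ∑' x, κ z x * kpow κ m x y := fun y => rfl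
    rw [h1]
    simp only [ih, h2]
    simp_rw [← ENNReal.tsum_mul_left, ← ENNReal.tsum_mul_right]
    rw [ENNReal.tsum_comm]
    refine tsum_congr fun y => tsum_congr fun x => by ring

lemma kpow_symm (hκ : ∀ z s, κ z s = κ s z) (n z s : ℕ) : kpow κ n z s = kpow κ n s z := by
  induction n generalizing z s with
  | zero => simp only [kpow, eq_comm]
  | succ n ih =>
    rw [kpow_succ' κ n s z]
    show ∑' y, κ z y * kpow κ n y s = _
    refine tsum_congr fun y => ?_
    rw [ih y s, hκ z y, mul_comm]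

/-- the Green function from `T`. -/
noncomputable def green (κ : ℕ → ℕ → ℝ≥0∞) (T s : ℕ) : ℝ≥0∞ := ∑' n, kpow κ n T s

lemma tsum_kpow_add (hκ : ∀ z s, κ z s = κ s z) (T : ℕ) :
    ∑' e : ℕ × ℕ, kpow κ (e.1 + e.2) T T = ∑' s, green κ T s ^ 2 := by
  rw [ENNReal.tsum_prod']
  simp only [kpow_add κ]
  unfold green
  have h1 : ∀ s, (∑' n, kpow κ n T s) ^ 2 = ∑' a, ∑' b, kpow κ a T s * kpow κ b T s := by
    intro s
    rw [sq, ← ENNReal.tsum_mul_right]
    refine tsum_congr fun a => ?_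
    rw [ENNReal.tsum_mul_left]
  simp only [h1]
  rw [ENNReal.tsum_comm (f := fun s a => ∑' b, kpow κ a T s * kpow κ b T s)]
  refine tsum_congr fun a => ?_
  rw [ENNReal.tsum_comm (f := fun s b => kpow κ a T s * kpow κ b T s)]
  refine tsum_congr fun b => tsum_congr fun s => ?_
  rw [kpow_symm hκ b s T]

/-- Iterating a superharmonicity-type inequality. -/
lemma iterate_le {u ρ : ℕ → ℝ≥0∞} (hu : ∀ z, u z ≤ ∑' y, κ z y * u y + ρ z) (N z : ℕ) :
    u z ≤ ∑' y, kpow κ N z y * u y + ∑ n ∈ range N, ∑' y, kpow κ n z y * ρ y := by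
  induction N with
  | zero =>
    simp only [kpow, ite_mul, one_mul, zero_mul, range_zero, sum_empty, add_zero]
    simp_rw [eq_comm (a := z)]
    rw [tsum_ite_eq]
  | succ N ih =>
    refine ih.trans ?_
    rw [Finset.sum_range_succ, ← add_assoc, add_right_comm]
    gcongr
    calc ∑' y, kpow κ N z y * u y ≤ ∑' y, kpow κ N z y * (∑' x, κ y x * u x + ρ y) := by
          refine ENNReal.tsum_le_tsum fun y => ?_
          gcongr
          exact hu y
      _ = ∑' y, ((∑' x, kpow κ N z y * (κ y x * u x)) + kpow κ N z y * ρ y) := by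
          refine tsum_congr fun y => ?_
          rw [mul_add, ENNReal.tsum_mul_left]
      _ = ∑' y, ∑' x, kpow κ N z y * (κ y x * u x) + ∑' y, kpow κ N z y * ρ y :=
          ENNReal.tsum_add
      _ = _ := by
          congr 1
          rw [ENNReal.tsum_comm]
          refine tsum_congr fun x => ?_
          rw [kpow_succ', ← ENNReal.tsum_mul_right]
          exact tsum_congr fun y => by ring

/-- lower bound of the Green function by a test function of bounded support. -/
lemma green_ge {u : ℕ → ℝ≥0∞} {θ : ℝ≥0∞} {S : ℕ} (hufin : ∀ z, u z ≠ ∞)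
    (hsupp : ∀ z, S ≤ z → u z = 0)
    (hu : ∀ z, u z ≤ ∑' y, κ z y * u y + (if z < S then θ else 0)) (T : ℕ)
    (hθ : θ ≠ 0) :
    u T ≤ θ * ∑ s ∈ range S, green κ T s := by
  by_cases hfin : ∑ s ∈ range S, green κ T s = ∞
  · rw [hfin, ENNReal.mul_top hθ]; exact le_top
  -- maximum of u
  set U : ℝ≥0∞ := ∑ s ∈ range S, u s with hU
  have hUfin : U ≠ ∞ := by
    rw [hU]
    exact (ENNReal.sum_lt_top.2 fun s _ => lt_top_iff_ne_top.2 (hufin s)).ne
  have huU : ∀ z, u z ≤ if z < S then U else 0 := by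
    intro z
    split_ifs with h
    · exact Finset.single_le_sum (f := u) (fun _ _ => bot_le) (Finset.mem_range.2 h)
    · exact (hsupp z (not_lt.1 h)).le
  have hrew : ∀ n (c : ℝ≥0∞), ∑' y, kpow κ n T y * (if y < S then c else 0) =
      c * ∑ s ∈ range S, kpow κ n T s := by
    intro n c
    rw [tsum_eq_sum (s := range S)]
    · rw [Finset.mul_sum]
      refine Finset.sum_congr rfl fun s hs => ?_
      rw [if_pos (Finset.mem_range.1 hs), mul_comm]
    · intro y hy
      rw [Finset.mem_range] at hy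
      rw [if_neg hy, mul_zero]
  have hG : ∑' n, ∑ s ∈ range S, kpow κ n T s = ∑ s ∈ range S, green κ T s := by
    unfold green
    rw [Summable.tsum_finsetSum (fun _ _ => ENNReal.summable)]
  have hbound : ∀ N, u T ≤ U * ∑ s ∈ range S, kpow κ N T s +
      θ * ∑ s ∈ range S, green κ T s := by
    intro N
    refine (iterate_le hu N T).trans ?_
    gcongr
    · rw [← hrew]
      refine ENNReal.tsum_le_tsum fun y => ?_
      gcongr
      exact huU y
    · simp only [hrew]
      rw [← Finset.mul_sum, ← hG]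
      gcongr
      exact ENNReal.sum_le_tsum _
  have hlim : Filter.Tendsto (fun N => ∑ s ∈ range S, kpow κ N T s) Filter.atTop (nhds 0) := by
    refine ENNReal.tendsto_atTop_zero_of_tsum_ne_top ?_
    rw [hG]; exact hfin
  have hlim2 : Filter.Tendsto (fun N => U * ∑ s ∈ range S, kpow κ N T s +
      θ * ∑ s ∈ range S, green κ T s) Filter.atTop
      (nhds (U * 0 + θ * ∑ s ∈ range S, green κ T s)) :=
    (ENNReal.Tendsto.const_mul hlim (Or.inr hUfin)).add_const _
  have := ge_of_tendsto' hlim2 hbound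
  simpa using this

/-- Cauchy-Schwarz. -/
lemma sq_sum_le_ennreal (g : ℕ → ℝ≥0∞) (S : ℕ) :
    (∑ s ∈ range S, g s) ^ 2 ≤ S * ∑ s ∈ range S, g s ^ 2 := by
  by_cases h : ∃ s ∈ range S, g s = ∞
  · obtain ⟨s, hs, hg⟩ := h
    have h1 : ∑ s ∈ range S, g s ^ 2 = ∞ := by
      rw [ENNReal.sum_eq_top]
      exact ⟨s, hs, by rw [hg]; simp⟩
    have hS : (S : ℝ≥0∞) ≠ 0 := by
      have : 0 < S := lt_of_le_of_lt (Nat.zero_le _) (Finset.mem_range.1 hs)
      exact_mod_cast this.ne'
    rw [h1, ENNReal.mul_top hS]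
    exact le_top
  · push Not at h
    have h2 : ∀ s ∈ range S, g s = ((g s).toNNReal : ℝ≥0∞) := fun s hs =>
      (ENNReal.coe_toNNReal (h s hs)).symm
    have h3 : ∑ s ∈ range S, g s = ((∑ s ∈ range S, (g s).toNNReal : NNReal) : ℝ≥0∞) := by
      push_cast
      exact Finset.sum_congr rfl h2
    have h4 : ∑ s ∈ range S, g s ^ 2 = ((∑ s ∈ range S, (g s).toNNReal ^ 2 : NNReal) : ℝ≥0∞) := by
      push_cast
      exact Finset.sum_congr rfl fun s hs => by rw [← h2 s hs]
    rw [h3, h4]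
    have h5 := sq_sum_le_card_mul_sum_sq (s := range S) (f := fun s => (g s).toNNReal)
    rw [Finset.card_range] at h5
    exact_mod_cast h5

end Pow

/-! ### The kernel of the heights -/

open Classical in
/-- the kernel of the allowed steps. -/
noncomputable def kap (ν : ℕ × ℕ → ℝ≥0∞) (F z y : ℕ) : ℝ≥0∞ :=
  ∑' a : ℕ × ℕ, ν a * (if Alw F z a ∧ z - a.1 + a.2 = y then 1 else 0)

lemma kap_symm {ν : ℕ × ℕ → ℝ≥0∞} (hν : ∀ a, ν a.swap = ν a) (F z y : ℕ) :
    kap ν F z y = kap ν F y z := by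
  classical
  unfold kap
  rw [← (Equiv.prodComm ℕ ℕ).tsum_eq]
  refine tsum_congr fun a => ?_
  have h1 : (Equiv.prodComm ℕ ℕ) a = a.swap := rfl
  rw [h1, hν]
  congr 1
  have h2 : ∀ z y : ℕ, ∀ a : ℕ × ℕ, (Alw F z a.swap ∧ z - a.swap.1 + a.swap.2 = y) →
      (Alw F y a ∧ y - a.1 + a.2 = z) := by
    rintro z y a ⟨h3, h4⟩
    have h5 := h3.le
    obtain ⟨h6, h7, h8, h9⟩ := h3
    simp only [Prod.fst_swap, Prod.snd_swap] at h4 h5 h6 h7 h8 h9
    have h10 : y - a.1 + a.2 = z := by omega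
    refine ⟨⟨by omega, by rw [← h4]; exact h9, by rw [h10]; exact h6, by rw [h10]; exact h7⟩, h10⟩
  by_cases h : Alw F y a ∧ y - a.1 + a.2 = z
  · rw [if_pos h, if_pos]
    have := h2 y z a.swap (by rwa [Prod.swap_swap])
    exact this
  · rw [if_neg h, if_neg fun h' => h (h2 z y a h')]

lemma tsum_kap_mul (ν : ℕ × ℕ → ℝ≥0∞) (F z : ℕ) (u : ℕ → ℝ≥0∞) [DecidablePred (Alw F z)] :
    ∑' y, kap ν F z y * u y =
      ∑' a : ℕ × ℕ, ν a * (if Alw F z a then u (z - a.1 + a.2) else 0) := by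
  classical
  unfold kap
  simp_rw [← ENNReal.tsum_mul_right]
  rw [ENNReal.tsum_comm]
  refine tsum_congr fun a => ?_
  by_cases h : Alw F z a
  · simp only [h, true_and, if_true, mul_ite, mul_one, mul_zero, ite_mul, zero_mul]
    simp_rw [eq_comm (a := z - a.1 + a.2)]
    rw [tsum_ite_eq]
  · simp [h]

open Classical in
lemma kpow_kap (ν : ℕ × ℕ → ℝ≥0∞) (F n z s : ℕ) :
    kpow (kap ν F) n z s = Ex ν n (fun w => if GP F z w ∧ hgt z w = s then 1 else 0) := by
  induction n generalizing z with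
  | zero => simp [kpow, Ex, GP, hgt]
  | succ n ih =>
    have h1 : kpow (kap ν F) (n + 1) z s = ∑' y, kap ν F z y * kpow (kap ν F) n y s := rfl
    rw [h1, tsum_kap_mul]
    simp only [Ex]
    refine tsum_congr fun a => ?_
    congr 1
    by_cases h : Alw F z a
    · rw [if_pos h, ih]
      simp only [GP, hgt, h, true_and]
    · rw [if_neg h]
      simp only [GP, h, false_and, if_false]
      have := Ex_mul_left ν n 0 (fun _ => 0)
      simp only [zero_mul] at this
      exact this.symm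

/-! ### lower bound for closed words -/

lemma Ex_ge_single {α : Type*} (ν : α → ℝ≥0∞) (A : List α) (f : List α → ℝ≥0∞) :
    (A.map ν).prod * f A ≤ Ex ν A.length f := by
  induction A generalizing f with
  | nil => simp [Ex]
  | cons a A ih =>
    simp only [List.map_cons, List.prod_cons, List.length_cons, Ex]
    refine le_trans ?_ (ENNReal.le_tsum a)
    rw [mul_assoc]
    gcongr
    exact ih (fun w => f (a :: w))

open Classical in
/-- the probability that a word of length `n` is closed. -/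
noncomputable def cw (ν : ℕ × ℕ → ℝ≥0∞) (n : ℕ) : ℝ≥0∞ :=
  Ex ν n (fun w => if CW w then 1 else 0)

lemma cw_ge (ν : ℕ × ℕ → ℝ≥0∞) {F d k : ℕ} (hd : 1 ≤ d) (hF : 16 * d ^ 2 ≤ F) (n : ℕ) :
    ((List.replicate k ((0 : ℕ), d)).map ν).prod * (((Vk d k).map ν).prod *
      kpow (kap ν F) n (k * d) (k * d)) ≤ cw ν (k + (n + k * d)) := by
  classical
  rw [kpow_kap]
  unfold cw
  rw [Ex_append]
  have h1 : (List.replicate k ((0 : ℕ), d)).length = k := by simp
  refine le_trans ?_ (le_of_le_of_eq (Ex_ge_single ν (List.replicate k ((0 : ℕ), d)) _)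
    (by rw [h1]))
  gcongr
  rw [Ex_append, ← Ex_mul_left]
  refine Ex_mono ν n fun w hw => ?_
  refine le_trans ?_ (le_of_le_of_eq (Ex_ge_single ν (Vk d k) _) (by rw [Vk_length]))
  gcongr
  by_cases h : GP F (k * d) w ∧ hgt (k * d) w = k * d
  · rw [if_pos h, if_pos (CW_word hd hF h.1 h.2)]
  · rw [if_neg h]; exact bot_le

/-- If the Green function is not square summable then the closed words are likely enough. -/
lemma tsum_cw_eq_top {ν : ℕ × ℕ → ℝ≥0∞} (hν : ∀ a, ν a.swap = ν a) {F d k : ℕ} (hd : 1 ≤ d)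
    (hF : 16 * d ^ 2 ≤ F) (hpos : ∀ a : ℕ × ℕ, a.1 + a.2 = d → ν a ≠ 0)
    (hinf : ∑' s, green (kap ν F) (k * d) s ^ 2 = ∞) :
    ∑' e : ℕ × ℕ, cw ν (e.1 + e.2) = ∞ := by
  set c₁ := ((List.replicate k ((0 : ℕ), d)).map ν).prod with hc₁
  set c₂ := ((Vk d k).map ν).prod with hc₂
  have hVw : ∀ t, t ≤ d → ∀ a ∈ Vw d t, a.1 + a.2 = d := by
    intro t
    induction t with
    | zero => intro _ a ha; simp [Vw] at ha
    | succ t ih =>
      intro ht a ha
      simp only [Vw, List.mem_append, List.mem_singleton] at ha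
      rcases ha with ha | rfl
      · exact ih (by omega) a ha
      · simp only; omega
  have hVk : ∀ j, ∀ a ∈ Vk d j, a.1 + a.2 = d := by
    intro j
    induction j with
    | zero => intro a ha; simp [Vk] at ha
    | succ j ih =>
      intro a ha
      simp only [Vk, List.mem_append] at ha
      rcases ha with ha | ha
      · exact hVw d le_rfl a ha
      · exact ih a ha
  have hprod : ∀ L : List (ℕ × ℕ), (∀ a ∈ L, a.1 + a.2 = d) → (L.map ν).prod ≠ 0 := by
    intro L hL h0
    rw [List.prod_eq_zero_iff, List.mem_map] at h0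
    obtain ⟨a, ha, ha0⟩ := h0
    exact hpos a (hL a ha) ha0
  have h1 : c₁ ≠ 0 := by
    refine hprod _ fun a ha => ?_
    rw [List.eq_of_mem_replicate ha]
    simp
  have h2 : c₂ ≠ 0 := hprod _ (hVk k)
  have h3 : ∑' e : ℕ × ℕ, c₁ * (c₂ * kpow (kap ν F) (e.1 + e.2) (k * d) (k * d)) = ∞ := by
    rw [ENNReal.tsum_mul_left, ENNReal.tsum_mul_left, tsum_kpow_add (kap_symm hν F), hinf,
      ENNReal.mul_top h2, ENNReal.mul_top h1]
  rw [eq_top_iff, ← h3]
  calc ∑' e : ℕ × ℕ, c₁ * (c₂ * kpow (kap ν F) (e.1 + e.2) (k * d) (k * d))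
      ≤ ∑' e : ℕ × ℕ, cw ν ((k + k * d + e.1) + e.2) := by
        refine ENNReal.tsum_le_tsum fun e => ?_
        refine (cw_ge ν hd hF (e.1 + e.2)).trans (le_of_eq ?_)
        congr 1
        ring
    _ = ∑' e : ℕ × ℕ, (fun e' : ℕ × ℕ => cw ν (e'.1 + e'.2)) (k + k * d + e.1, e.2) := rfl
    _ ≤ _ := by
        refine ENNReal.tsum_comp_le_tsum_of_injective (f := fun e : ℕ × ℕ => (k + k * d + e.1, e.2))
          ?_ (fun e' : ℕ × ℕ => cw ν (e'.1 + e'.2))
        intro e e' h
        simp only [Prod.mk.injEq] at h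
        exact Prod.ext (by omega) h.2

end Pool.Agent.W_MP_63dac5_pr
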