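import Pool.Agent.W_MP_63dac5_pr.Avg
import Pool.Agent.W_MP_63dac5_pr.HeavyLyap
import Pool.Agent.W_MP_63dac5_pr.Kernel

/-!
# The test functions for light tails
-/

namespace Pool.Agent.W_MP_63dac5_pr

open ENNReal Finset

/-- averages of convex functions. -/
lemma Ad_convex {h : ℤ → ℝ} (hh : ∀ z, 2 * h z ≤ h (z + 1) + h (z - 1)) (d : ℕ) (z : ℤ) :
    h z ≤ Ad d h z := by
  induction d generalizing z with
  | zero => rw [Ad_zero]
  | succ d ih =>
    rw [Ad_succ]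
    have h1 := ih (z + 1)
    have h2 := ih (z - 1)
    have h3 := hh z
    linarith

lemma Ad_convex' {h : ℤ → ℝ} (hh : ∀ z, 2 * h z ≤ h (z + 1) + h (z - 1)) {d : ℕ} (hd : 1 ≤ d)
    (z : ℤ) : (h (z + 1) + h (z - 1)) / 2 ≤ Ad d h z := by
  obtain ⟨e, rfl⟩ : ∃ e, d = e + 1 := ⟨d - 1, by omega⟩
  rw [Ad_succ]
  have h1 := Ad_convex hh e (z + 1)
  have h2 := Ad_convex hh e (z - 1)
  linarith

/-- the slope of the convex function. -/
noncomputable def slope (F : ℕ) (z : ℤ) : ℝ :=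
  if (F : ℤ) ≤ z then Real.sqrt (Real.sqrt (z : ℝ)) else 0

lemma slope_nonneg (F : ℕ) (z : ℤ) : 0 ≤ slope F z := by
  unfold slope; split_ifs <;> positivity

lemma slope_mono (F : ℕ) : Monotone (slope F) := by
  intro x y hxy
  unfold slope
  split_ifs with h1 h2
  · exact Real.sqrt_le_sqrt (Real.sqrt_le_sqrt (by exact_mod_cast hxy))
  · omega
  · positivity
  · exact le_rfl

/-- the convex function `∑_{F ≤ i < z} i^{1/4}`. -/
noncomputable def cvx (F : ℕ) (z : ℤ) : ℝ := ∑ i ∈ Finset.Ico F z.toNat, slope F (i : ℤ)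

lemma cvx_succ (F : ℕ) (z : ℤ) : cvx F (z + 1) = cvx F z + slope F z := by
  unfold cvx
  by_cases h : (F : ℤ) ≤ z
  · obtain ⟨n, rfl⟩ := Int.eq_ofNat_of_zero_le (show 0 ≤ z by omega)
    have h1 : ((n : ℤ) + 1).toNat = n + 1 := by omega
    have h2 : (n : ℤ).toNat = n := by omega
    rw [h1, h2, Finset.sum_Ico_succ_top (by omega)]
  · have h1 : slope F z = 0 := by unfold slope; rw [if_neg h]
    rw [h1, Finset.Ico_eq_empty (by omega), Finset.Ico_eq_empty (by omega)]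
    simp

lemma cvx_convex (F : ℕ) (z : ℤ) : 2 * cvx F z ≤ cvx F (z + 1) + cvx F (z - 1) := by
  have h1 := cvx_succ F z
  have h2 := cvx_succ F (z - 1)
  rw [sub_add_cancel] at h2
  have h3 := slope_mono F (show z - 1 ≤ z by omega)
  linarith

lemma cvx_nonneg (F : ℕ) (z : ℤ) : 0 ≤ cvx F z :=
  Finset.sum_nonneg fun i _ => slope_nonneg F i

lemma cvx_of_le (F : ℕ) {z : ℤ} (h : z ≤ F) : cvx F z = 0 := by
  unfold cvx
  rw [Finset.Ico_eq_empty (by omega)]
  simp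

lemma cvx_le (F : ℕ) {z : ℕ} (h : F ≤ z) :
    cvx F z ≤ ((z : ℝ) - F) * Real.sqrt (Real.sqrt z) := by
  unfold cvx
  have h1 : ∀ i ∈ Finset.Ico F (z : ℤ).toNat, slope F (i : ℤ) ≤ Real.sqrt (Real.sqrt z) := by
    intro i hi
    rw [Finset.mem_Ico] at hi
    unfold slope
    rw [if_pos (by omega)]
    refine Real.sqrt_le_sqrt (Real.sqrt_le_sqrt ?_)
    have : i ≤ z := by omega
    exact_mod_cast this
  refine (Finset.sum_le_card_nsmul _ _ _ h1).trans (le_of_eq ?_)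
  rw [nsmul_eq_mul, Nat.card_Ico, Int.toNat_natCast, Nat.cast_sub h]

lemma cvx_ge_one {F z : ℕ} (hF : 1 ≤ F) (hz : F + 1 ≤ z) : 1 ≤ cvx F z := by
  unfold cvx
  have h1 : F ∈ Finset.Ico F (z : ℤ).toNat := by rw [Finset.mem_Ico]; omega
  have h2 := Finset.single_le_sum (f := fun i : ℕ => slope F (i : ℤ))
    (fun i _ => slope_nonneg F i) h1
  refine le_trans ?_ h2
  simp only [slope, le_refl, if_true]
  have h3 : (1 : ℝ) ≤ ((F : ℤ) : ℝ) := by exact_mod_cast hF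
  have h4 : 1 ≤ Real.sqrt ((F : ℤ) : ℝ) := Real.one_le_sqrt.2 h3
  exact Real.one_le_sqrt.2 h4

/-- lower bound of the second difference, `a = z ^ (1/4)`. -/
lemma second_diff {F z : ℕ} (hF : 1 ≤ F) (hz : F ≤ z) :
    1 / (4 * Real.sqrt (Real.sqrt z) ^ 3) ≤ slope F z - slope F ((z : ℤ) - 1) := by
  set a := Real.sqrt (Real.sqrt (z : ℝ)) with ha
  set b := Real.sqrt (Real.sqrt ((z : ℝ) - 1)) with hb
  have hz1 : (1 : ℝ) ≤ z := by exact_mod_cast hF.trans hz
  have ha4 : a ^ 4 = z := by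
    have h1 : a ^ 2 = Real.sqrt z := Real.sq_sqrt (Real.sqrt_nonneg _)
    have h2 : Real.sqrt (z : ℝ) ^ 2 = z := Real.sq_sqrt (by linarith)
    calc a ^ 4 = (a ^ 2) ^ 2 := by ring
      _ = (z : ℝ) := by rw [h1, h2]
  have hb4 : b ^ 4 = z - 1 := by
    have h1 : b ^ 2 = Real.sqrt (z - 1) := Real.sq_sqrt (Real.sqrt_nonneg _)
    have h2 : Real.sqrt ((z : ℝ) - 1) ^ 2 = z - 1 := Real.sq_sqrt (by linarith)
    calc b ^ 4 = (b ^ 2) ^ 2 := by ring
      _ = (z : ℝ) - 1 := by rw [h1, h2]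
  have hb0 : 0 ≤ b := Real.sqrt_nonneg _
  have ha0 : 0 < a := by
    rw [ha]
    exact Real.sqrt_pos.2 (Real.sqrt_pos.2 (by linarith))
  have hba : b ≤ a := Real.sqrt_le_sqrt (Real.sqrt_le_sqrt (by linarith))
  have h1 : slope F z = a := by
    unfold slope
    rw [if_pos (by exact_mod_cast hz)]
    simp [ha]
  have h2 : slope F ((z : ℤ) - 1) ≤ b := by
    unfold slope
    split_ifs
    · rw [hb]
      push_cast
      exact le_rfl
    · exact hb0
  have h3 : 1 / (4 * a ^ 3) ≤ a - b := by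
    rw [div_le_iff₀ (by positivity)]
    have h4 : (a - b) * ((a + b) * (a ^ 2 + b ^ 2)) = 1 := by
      have : (a - b) * ((a + b) * (a ^ 2 + b ^ 2)) = a ^ 4 - b ^ 4 := by ring
      rw [this, ha4, hb4]; ring
    have h5 : (a + b) * (a ^ 2 + b ^ 2) ≤ 4 * a ^ 3 := by
      have h6 : b ^ 2 ≤ a ^ 2 := pow_le_pow_left₀ hb0 hba 2
      have h7 : (a + b) * (a ^ 2 + b ^ 2) ≤ (2 * a) * (2 * a ^ 2) :=
        mul_le_mul (by linarith) (by linarith) (by positivity) (by positivity)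
      calc _ ≤ (2 * a) * (2 * a ^ 2) := h7
        _ = 4 * a ^ 3 := by ring
    calc (1 : ℝ) = (a - b) * ((a + b) * (a ^ 2 + b ^ 2)) := h4.symm
      _ ≤ (a - b) * (4 * a ^ 3) := mul_le_mul_of_nonneg_left h5 (by linarith)
  rw [h1]
  linarith

/-- the test function before truncation. -/
noncomputable def vv (F m : ℕ) (z : ℤ) : ℝ := (m : ℝ) ^ 3 * cvx F z - ((z : ℝ) - F) ^ 2

/-- the test function. -/
noncomputable def uu (F m : ℕ) (z : ℤ) : ℝ := max (vv F m z) 0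

lemma uu_nonneg (F m : ℕ) (z : ℤ) : 0 ≤ uu F m z := le_max_right _ _

lemma vv_le_uu (F m : ℕ) (z : ℤ) : vv F m z ≤ uu F m z := le_max_left _ _

lemma Ad_vv {F m d z : ℕ} (hd : 1 ≤ d) :
    vv F m z + (m : ℝ) ^ 3 * ((slope F z - slope F ((z : ℤ) - 1)) / 2) - d ≤ Ad d (vv F m) z := by
  have h1 : Ad d (vv F m) z = (m : ℝ) ^ 3 * Ad d (cvx F) z +
      (-1) * Ad d (fun y => (y : ℝ) ^ 2) ((z : ℤ) - F) := by
    unfold Ad
    rw [← Av_mul_left, ← Av_mul_left, ← Av_add]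
    refine Av_congr fun a _ => ?_
    unfold vv
    push_cast
    ring
  rw [h1, Ad_sq]
  have h2 := Ad_convex' (cvx_convex F) hd z
  have h3 := cvx_succ F z
  have h4 := cvx_succ F ((z : ℤ) - 1)
  rw [sub_add_cancel] at h4
  have h5 : cvx F z + (slope F z - slope F ((z : ℤ) - 1)) / 2 ≤ Ad d (cvx F) z := by linarith
  have h6 := mul_le_mul_of_nonneg_left h5 (show (0 : ℝ) ≤ (m : ℝ) ^ 3 by positivity)
  unfold vv
  push_cast
  nlinarith

lemma uu_supp {F m z : ℕ} (hm : F ≤ m ^ 4) (hz : 16 * m ^ 4 ≤ z) : uu F m z = 0 := by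
  unfold uu
  refine max_eq_right ?_
  unfold vv
  have hFz : F ≤ z := by nlinarith
  have h1 := cvx_le F hFz
  set a := Real.sqrt (Real.sqrt (z : ℝ)) with ha
  have ha0 : 0 ≤ a := Real.sqrt_nonneg _
  have ha4 : a ^ 4 = z := by
    have h1 : a ^ 2 = Real.sqrt z := Real.sq_sqrt (Real.sqrt_nonneg _)
    have h2 : Real.sqrt (z : ℝ) ^ 2 = z := Real.sq_sqrt (by positivity)
    calc a ^ 4 = (a ^ 2) ^ 2 := by ring
      _ = (z : ℝ) := by rw [h1, h2]
  have h2 : 2 * (m : ℝ) ≤ a := by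
    have h3 : (2 * (m : ℝ)) ^ 4 ≤ a ^ 4 := by
      rw [ha4]
      have : ((16 * m ^ 4 : ℕ) : ℝ) ≤ z := by exact_mod_cast hz
      push_cast at this
      calc (2 * (m : ℝ)) ^ 4 = 16 * (m : ℝ) ^ 4 := by ring
        _ ≤ (z : ℝ) := this
    exact le_of_pow_le_pow_left₀ (by norm_num) ha0 h3
  have h4 : (m : ℝ) ^ 3 * a ≤ (z : ℝ) / 8 := by
    have h5 : (2 * (m : ℝ)) ^ 3 ≤ a ^ 3 := pow_le_pow_left₀ (by positivity) h2 3
    have h6 : (2 * (m : ℝ)) ^ 3 * a ≤ a ^ 3 * a := mul_le_mul_of_nonneg_right h5 ha0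
    have h7 : a ^ 3 * a = z := by rw [← ha4]; ring
    rw [h7] at h6
    nlinarith
  have h8 : (F : ℝ) ≤ (z : ℝ) / 16 := by
    have h9 : 16 * F ≤ z := by nlinarith
    have : ((16 * F : ℕ) : ℝ) ≤ z := by exact_mod_cast h9
    push_cast at this
    linarith
  have hz0 : (0 : ℝ) ≤ z := by positivity
  have h10 : (m : ℝ) ^ 3 * cvx F z ≤ ((z : ℝ) - F) * ((m : ℝ) ^ 3 * a) := by
    calc (m : ℝ) ^ 3 * cvx F z ≤ (m : ℝ) ^ 3 * (((z : ℝ) - F) * a) :=
          mul_le_mul_of_nonneg_left h1 (by positivity)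
      _ = _ := by ring
  have h11 : ((z : ℝ) - F) * ((m : ℝ) ^ 3 * a) ≤ ((z : ℝ) - F) * ((z : ℝ) - F) :=
    mul_le_mul_of_nonneg_left (by linarith) (by linarith)
  push_cast
  nlinarith

section Main

variable (μ : PMF ℕ)

lemma light_lyap (h0 : μ 0 = 0) {θ : ℝ} (hθ : HasSum (fun d : ℕ => (μ d).toReal * d) θ)
    {F₀ F : ℕ} (hF1 : 1 ≤ F) (hFF : 2 * F₀ ≤ F)
    (htail : ∀ z : ℕ, F ≤ z →
      (z : ℝ) ^ 2 * ∑' d : ℕ, (if z < 64 * d ^ 2 then (μ d).toReal else 0) ≤ 1 / 16)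
    {m : ℕ} (hm : F ≤ m ^ 4) (z : ℕ) :
    ENNReal.ofReal (uu F m z) ≤ ∑' y, kap (nu μ) F₀ z y * ENNReal.ofReal (uu F m y) +
      (if z < 16 * m ^ 4 then ENNReal.ofReal θ else 0) := by
  classical
  by_cases hzS : z < 16 * m ^ 4
  swap
  · rw [uu_supp hm (not_lt.1 hzS)]; simp
  rw [if_pos hzS]
  by_cases hvv : vv F m z ≤ 0
  · have : uu F m z = 0 := max_eq_right hvv
    rw [this]; simp
  push Not at hvv
  have huz : uu F m z = vv F m z := max_eq_left hvv.le
  have hFz : F ≤ z := by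
    by_contra h
    push Not at h
    have h1 : cvx F z = 0 := cvx_of_le F (by exact_mod_cast h.le)
    unfold vv at hvv
    rw [h1] at hvv
    nlinarith [sq_nonneg ((((z : ℤ)) : ℝ) - F)]
  have hθ0 : 0 ≤ θ := hθ.nonneg fun d => by positivity
  -- the restricted average
  set ψ : ℕ × ℕ → ℝ := fun a => if 64 * (a.1 + a.2) ^ 2 ≤ z then
    uu F m ((z : ℤ) + a.2 - a.1) else 0 with hψ
  have hψ0 : ∀ a, 0 ≤ ψ a := fun a => by
    simp only [hψ]; split_ifs; exacts [uu_nonneg _ _ _, le_rfl]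
  have hstep1 : ∑' a, nu μ a * ENNReal.ofReal (ψ a) ≤
      ∑' y, kap (nu μ) F₀ z y * ENNReal.ofReal (uu F m y) := by
    rw [tsum_kap_mul]
    refine ENNReal.tsum_le_tsum fun a => ?_
    gcongr
    simp only [hψ]
    by_cases ha : 64 * (a.1 + a.2) ^ 2 ≤ z
    · rw [if_pos ha]
      have h1 : a.1 + a.2 ≤ (a.1 + a.2) ^ 2 := Nat.le_self_pow (by norm_num) _
      have h2 : a.1 ^ 2 ≤ (a.1 + a.2) ^ 2 := Nat.pow_le_pow_left (by omega) 2
      have h3 : a.2 ^ 2 ≤ (a.1 + a.2) ^ 2 := Nat.pow_le_pow_left (by omega) 2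
      have hal : Alw F₀ z a := ⟨by omega, by omega, by omega, by omega⟩
      rw [if_pos hal]
      apply ENNReal.ofReal_le_ofReal
      refine le_of_eq ?_
      congr 1
      have := hal.le
      omega
    · rw [if_neg ha]; simp
  rw [tsum_nu μ ψ hψ0] at hstep1
  set m' : ℕ → ℝ := fun d => (μ d).toReal with hm'
  have hm'0 : ∀ d, 0 ≤ m' d := fun d => ENNReal.toReal_nonneg
  set χ : ℕ → ℝ := fun d => if 64 * d ^ 2 ≤ z then 1 else 0 with hχ
  have hAv : ∀ d, Av d ψ = χ d * Ad d (uu F m) z := by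
    intro d
    unfold Ad
    simp only [hχ]
    split_ifs with h
    · rw [one_mul]
      refine Av_congr fun a ha => ?_
      simp only [hψ, ha, if_pos h]
    · rw [zero_mul, ← Av_const d 0]
      refine Av_congr fun a ha => ?_
      simp only [hψ, ha, if_neg h]
  set K : ℝ := (m : ℝ) ^ 3 with hK
  set δ : ℝ := (slope F z - slope F ((z : ℤ) - 1)) / 2 with hδ
  set v : ℝ := vv F m z with hv
  -- finite support
  have hfin : ∀ d, d ∉ range (z + 1) → m' d * Av d ψ = 0 := by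
    intro d hd
    rw [Finset.mem_range] at hd
    rw [hAv]
    have h1 : ¬ 64 * d ^ 2 ≤ z := by
      intro h
      have h2 : d ≤ d ^ 2 := Nat.le_self_pow (by norm_num) _
      omega
    simp only [hχ, if_neg h1, zero_mul, mul_zero]
  have hsum1 : Summable (fun d => m' d * Av d ψ) := summable_of_ne_finset_zero hfin
  have hAv0 : ∀ d, 0 ≤ Av d ψ := fun d => Av_nonneg fun a _ => hψ0 a
  have hconv : ∑' d, μ d * ENNReal.ofReal (Av d ψ) = ENNReal.ofReal (∑' d, m' d * Av d ψ) := by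
    rw [ENNReal.ofReal_tsum_of_nonneg (fun d => mul_nonneg (hm'0 d) (hAv0 d)) hsum1]
    refine tsum_congr fun d => ?_
    rw [ENNReal.ofReal_mul (hm'0 d)]
    congr 1
    exact (ENNReal.ofReal_toReal (μ.apply_ne_top d)).symm
  -- the real inequality
  have hs2 : Summable (fun d => m' d * χ d) :=
    summable_of_bdd μ (C := 1) (fun d => by simp only [hχ]; split_ifs <;> norm_num)
      (fun d => by simp only [hχ]; split_ifs <;> norm_num)
  have hs3 : Summable (fun d => m' d * (1 - χ d)) :=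
    summable_of_bdd μ (C := 1) (fun d => by simp only [hχ]; split_ifs <;> norm_num)
      (fun d => by simp only [hχ]; split_ifs <;> norm_num)
  set q : ℝ := ∑' d, m' d * χ d with hq
  have hq1 : q + ∑' d, m' d * (1 - χ d) = 1 := by
    have h1 : ∑' d, (m' d * χ d + m' d * (1 - χ d)) = 1 := by
      refine Eq.trans (tsum_congr fun d => ?_) (tsum_pmf μ)
      show m' d * χ d + m' d * (1 - χ d) = m' d
      ring
    rw [hq, ← hs2.tsum_add hs3]
    exact h1
  have hq2 : (z : ℝ) ^ 2 * (1 - q) ≤ 1 / 16 := by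
    have h1 := htail z hFz
    have h2 : ∑' d : ℕ, (if z < 64 * d ^ 2 then (μ d).toReal else 0) = 1 - q := by
      rw [← hq1, add_sub_cancel_left]
      refine tsum_congr fun d => ?_
      simp only [hχ, hm']
      by_cases h : z < 64 * d ^ 2
      · rw [if_pos h, if_neg (not_le.2 h)]; ring
      · rw [if_neg h, if_pos (not_lt.1 h)]; ring
    rw [h2] at h1
    exact h1
  have hq3 : 0 ≤ 1 - q := by
    rw [← hq1, add_sub_cancel_left]
    exact tsum_nonneg fun d => mul_nonneg (hm'0 d) (by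
      simp only [hχ]; split_ifs <;> norm_num)
  have hlow : q * (v + K * δ) - θ ≤ ∑' d, m' d * Av d ψ := by
    have h1 : Summable (fun d => m' d * χ d * (v + K * δ)) := hs2.mul_right _
    have h2 : ∑' d, m' d * χ d * (v + K * δ) = q * (v + K * δ) := by
      rw [tsum_mul_right]
    rw [← h2, ← hθ.tsum_eq, ← h1.tsum_sub hθ.summable]
    refine Summable.tsum_le_tsum (fun d => ?_) (h1.sub hθ.summable) hsum1
    rw [hAv]
    rcases Nat.eq_zero_or_pos d with rfl | hd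
    · simp [hm', h0]
    · by_cases hχd : 64 * d ^ 2 ≤ z
      · simp only [hχ, if_pos hχd, mul_one, one_mul]
        have h3 : v + K * δ - d ≤ Ad d (uu F m) z := by
          refine (Ad_vv (F := F) (m := m) (z := z) hd).trans ?_
          exact Av_mono fun a _ => vv_le_uu _ _ _
        have h4 := mul_le_mul_of_nonneg_left h3 (hm'0 d)
        simp only [hm'] at h4 ⊢
        nlinarith
      · simp only [hχ, if_neg hχd, mul_zero, zero_mul]
        have := mul_nonneg (hm'0 d) (show (0 : ℝ) ≤ d by positivity)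
        simp only [hm'] at this
        linarith
  have hgain : v ≤ q * (v + K * δ) := by
    have h1 := second_diff hF1 hFz
    have h2 := cvx_le F hFz
    set a := Real.sqrt (Real.sqrt (z : ℝ)) with ha
    have hz1 : (1 : ℝ) ≤ z := by exact_mod_cast hF1.trans hFz
    have ha4 : a ^ 4 = z := by
      have h1 : a ^ 2 = Real.sqrt z := Real.sq_sqrt (Real.sqrt_nonneg _)
      have h2 : Real.sqrt (z : ℝ) ^ 2 = z := Real.sq_sqrt (by positivity)
      calc a ^ 4 = (a ^ 2) ^ 2 := by ring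
        _ = (z : ℝ) := by rw [h1, h2]
    have ha0 : 0 < a := Real.sqrt_pos.2 (Real.sqrt_pos.2 (by linarith))
    have hK0 : 0 ≤ K := by positivity
    have hvle : v ≤ K * a ^ 5 := by
      have h3 : v ≤ K * cvx F z := by
        rw [hv]
        unfold vv
        have := sq_nonneg ((((z : ℤ)) : ℝ) - F)
        push_cast at this ⊢
        linarith
      have hF0 : (0 : ℝ) ≤ F := by positivity
      have h4 : cvx F z ≤ a ^ 5 := by
        calc cvx F z ≤ ((z : ℝ) - F) * a := h2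
          _ ≤ z * a := mul_le_mul_of_nonneg_right (by linarith) ha0.le
          _ = a ^ 5 := by rw [← ha4]; ring
      exact h3.trans (mul_le_mul_of_nonneg_left h4 hK0)
    have hδa : 1 / (8 * a ^ 3) ≤ δ := by
      have e : 1 / (8 * a ^ 3) = (1 / (4 * a ^ 3)) / 2 := by field_simp; norm_num
      rw [e, hδ]
      linarith
    have hqa : a ^ 8 * (1 - q) ≤ 1 / 16 := by
      have : a ^ 8 = (z : ℝ) ^ 2 := by rw [← ha4]; ring
      rw [this]; exact hq2
    have ha1 : 1 ≤ a := by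
      by_contra h
      push Not at h
      have : a ^ 4 < 1 := pow_lt_one₀ ha0.le h (by norm_num)
      linarith
    have hqhalf : 1 / 2 ≤ q := by
      have h5 : 1 ≤ a ^ 8 := one_le_pow₀ ha1
      nlinarith
    -- (1 - q) v ≤ q K δ
    have h6 : (1 - q) * v ≤ K * (1 / (16 * a ^ 3)) := by
      have h7 : (1 - q) * a ^ 5 ≤ 1 / (16 * a ^ 3) := by
        rw [le_div_iff₀ (by positivity)]
        calc (1 - q) * a ^ 5 * (16 * a ^ 3) = 16 * (a ^ 8 * (1 - q)) := by ring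
          _ ≤ 16 * (1 / 16) := by linarith
          _ = 1 := by norm_num
      calc (1 - q) * v ≤ (1 - q) * (K * a ^ 5) := mul_le_mul_of_nonneg_left hvle hq3
        _ = K * ((1 - q) * a ^ 5) := by ring
        _ ≤ _ := mul_le_mul_of_nonneg_left h7 hK0
    have h8 : K * (1 / (16 * a ^ 3)) ≤ q * (K * δ) := by
      have e : 1 / (16 * a ^ 3) = 1 / 2 * (1 / (8 * a ^ 3)) := by field_simp; norm_num
      have h9 : 1 / 2 * (1 / (8 * a ^ 3)) ≤ q * δ :=
        mul_le_mul hqhalf hδa (by positivity) (by linarith)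
      rw [e]
      calc K * (1 / 2 * (1 / (8 * a ^ 3))) ≤ K * (q * δ) := mul_le_mul_of_nonneg_left h9 hK0
        _ = _ := by ring
    nlinarith
  rw [huz]
  calc ENNReal.ofReal v ≤ ENNReal.ofReal (∑' d, m' d * Av d ψ + θ) := by
        apply ENNReal.ofReal_le_ofReal; linarith
    _ ≤ ENNReal.ofReal (∑' d, m' d * Av d ψ) + ENNReal.ofReal θ := ENNReal.ofReal_add_le
    _ ≤ _ := by
        rw [← hconv]
        gcongr

/-- The Green function is not square summable. -/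
lemma green_sq_top (h0 : μ 0 = 0) {θ : ℝ} (hθ : HasSum (fun d : ℕ => (μ d).toReal * d) θ)
    {F₀ F : ℕ} (hF1 : 1 ≤ F) (hFF : 2 * F₀ ≤ F)
    (htail : ∀ z : ℕ, F ≤ z →
      (z : ℝ) ^ 2 * ∑' d : ℕ, (if z < 64 * d ^ 2 then (μ d).toReal else 0) ≤ 1 / 16)
    {T : ℕ} (hT : F + 1 ≤ T) :
    ∑' s, green (kap (nu μ) F₀) T s ^ 2 = ∞ := by
  by_contra hQ
  set Q := ∑' s, green (kap (nu μ) F₀) T s ^ 2 with hQdef
  have hθ1 : 1 ≤ θ := by
    rw [← tsum_pmf μ, ← hθ.tsum_eq]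
    refine Summable.tsum_le_tsum (fun d => ?_) (summable_pmf μ) hθ.summable
    rcases Nat.eq_zero_or_pos d with rfl | hd
    · simp [h0]
    · have h1 : (1 : ℝ) ≤ d := by exact_mod_cast hd
      nlinarith [ENNReal.toReal_nonneg (a := μ d)]
  -- the bound for every `m`
  have hkey : ∀ m : ℕ, F ≤ m ^ 4 →
      ENNReal.ofReal (uu F m T) ^ 2 ≤ ENNReal.ofReal θ ^ 2 * (((16 * m ^ 4 : ℕ) : ℝ≥0∞) * Q) := by
    intro m hm
    have h1 := green_ge (κ := kap (nu μ) F₀) (u := fun z => ENNReal.ofReal (uu F m z))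
      (θ := ENNReal.ofReal θ) (S := 16 * m ^ 4) (fun _ => ENNReal.ofReal_ne_top)
      (fun z hz => by rw [uu_supp hm hz]; simp)
      (light_lyap μ h0 hθ hF1 hFF htail hm) T
      (by rw [Ne, ENNReal.ofReal_eq_zero, not_le]; linarith)
    calc ENNReal.ofReal (uu F m T) ^ 2
        ≤ (ENNReal.ofReal θ * ∑ s ∈ range (16 * m ^ 4), green (kap (nu μ) F₀) T s) ^ 2 := by
          gcongr
      _ = ENNReal.ofReal θ ^ 2 * (∑ s ∈ range (16 * m ^ 4), green (kap (nu μ) F₀) T s) ^ 2 := by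
          ring
      _ ≤ ENNReal.ofReal θ ^ 2 * (((16 * m ^ 4 : ℕ) : ℝ≥0∞) *
          ∑ s ∈ range (16 * m ^ 4), green (kap (nu μ) F₀) T s ^ 2) := by
          gcongr
          exact sq_sum_le_ennreal _ _
      _ ≤ _ := by
          gcongr
          exact ENNReal.sum_le_tsum _
  -- real form
  set R := Q.toReal with hR
  have hreal : ∀ m : ℕ, F ≤ m ^ 4 → uu F m T ^ 2 ≤ θ ^ 2 * (16 * (m : ℝ) ^ 4 * R) := by
    intro m hm
    have h1 := hkey m hm
    have h2 := (ENNReal.toReal_le_toReal (by simp) (by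
      refine ENNReal.mul_ne_top (by simp) (ENNReal.mul_ne_top (ENNReal.natCast_ne_top _) hQ))).2 h1
    rw [ENNReal.toReal_pow, ENNReal.toReal_ofReal (uu_nonneg _ _ _), ENNReal.toReal_mul,
      ENNReal.toReal_pow, ENNReal.toReal_ofReal (by linarith), ENNReal.toReal_mul,
      ENNReal.toReal_natCast] at h2
    push_cast at h2
    exact h2
  have hlow : ∀ m : ℕ, (m : ℝ) ^ 3 - (T : ℝ) ^ 2 ≤ uu F m T := by
    intro m
    refine le_trans ?_ (vv_le_uu F m T)
    unfold vv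
    have h1 := cvx_ge_one hF1 hT
    have h2 : (m : ℝ) ^ 3 * 1 ≤ (m : ℝ) ^ 3 * cvx F T :=
      mul_le_mul_of_nonneg_left h1 (by positivity)
    have h3 : ((F : ℝ)) ≤ T := by
      have : F ≤ T := by omega
      exact_mod_cast this
    have h4 : (0 : ℝ) ≤ F := by positivity
    push_cast
    nlinarith
  -- choose m large
  have hR0 : 0 ≤ R := ENNReal.toReal_nonneg
  obtain ⟨m, hm⟩ := exists_nat_gt (max (max (F : ℝ) (2 * (T : ℝ) ^ 2)) (64 * θ ^ 2 * R + 1))
  have hm1 : (F : ℝ) < m := lt_of_le_of_lt ((le_max_left _ _).trans (le_max_left _ _)) hm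
  have hm2 : 2 * (T : ℝ) ^ 2 < m := lt_of_le_of_lt ((le_max_right _ _).trans (le_max_left _ _)) hm
  have hm3 : 64 * θ ^ 2 * R + 1 < m := lt_of_le_of_lt (le_max_right _ _) hm
  have hθR : 0 ≤ 64 * θ ^ 2 * R := by positivity
  have hm4 : (1 : ℝ) < m := by linarith
  have hFm : F ≤ m ^ 4 := by
    have h1 : F ≤ m := by exact_mod_cast hm1.le
    exact h1.trans (Nat.le_self_pow (by norm_num) _)
  have h1 := hreal m hFm
  have h2 := hlow m
  have h3 : (m : ℝ) ≤ (m : ℝ) ^ 3 := by nlinarith [sq_nonneg ((m : ℝ)), mul_pos (show (0 : ℝ) < m by linarith) (show (0 : ℝ) < m by linarith)]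
  have h4 : (m : ℝ) ^ 3 / 2 ≤ uu F m T := by linarith
  have h5 : ((m : ℝ) ^ 3 / 2) ^ 2 ≤ uu F m T ^ 2 := pow_le_pow_left₀ (by positivity) h4 2
  have h6 : (m : ℝ) ^ 4 * (m : ℝ) ^ 2 ≤ (m : ℝ) ^ 4 * (64 * θ ^ 2 * R) := by nlinarith
  have h7 : (m : ℝ) ^ 2 ≤ 64 * θ ^ 2 * R :=
    le_of_mul_le_mul_left h6 (by positivity)
  nlinarith

end Main

end Pool.Agent.W_MP_63dac5_pr
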