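import Pool.Agent.W_MP_63dac5_pr.LightLyap
import Pool.Agent.W_MP_63dac5_pr.PowerTail
import Pool.Agent.W_MP_63dac5_pr.Crit

/-!
# Light tails: no percolation
-/

namespace Pool.Agent.W_MP_63dac5_pr

open MeasureTheory ProbabilityTheory ENNReal Finset Filter Topology

/-- `P(D > x)` -/
noncomputable def tau (μ : PMF ℕ) (x : ℕ) : ℝ := ∑' d : ℕ, (if x < d then (μ d).toReal else 0)

lemma tau_nonneg (μ : PMF ℕ) (x : ℕ) : 0 ≤ tau μ x :=
  tsum_nonneg fun d => by split_ifs <;> positivity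

lemma summable_mean (μ : PMF ℕ)
    (hlight : Tendsto (fun x : ℕ => (x : ℝ) ^ 4 * tau μ x) atTop (𝓝 0)) :
    Summable (fun d : ℕ => (μ d).toReal * d) := by
  have hτ : Summable (tau μ) := by
    obtain ⟨x₁, hx₁⟩ := Filter.eventually_atTop.1 (hlight.eventually_le_const
      (show (0 : ℝ) < 1 by norm_num))
    have h2 : Summable (fun k : ℕ => ((k : ℝ) ^ 4)⁻¹) :=
      Real.summable_nat_pow_inv.2 (by norm_num)
    rw [← summable_nat_add_iff (x₁ + 1)]
    refine Summable.of_nonneg_of_le (fun k => tau_nonneg μ _) (fun k => ?_)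
      ((summable_nat_add_iff (x₁ + 1)).2 h2)
    have h3 := hx₁ (k + (x₁ + 1)) (by omega)
    have h4 : (0 : ℝ) < ((k + (x₁ + 1) : ℕ) : ℝ) := by positivity
    rw [← one_div, le_div_iff₀ (by positivity)]
    linarith
  refine summable_of_sum_range_le (c := ∑' k, tau μ k) (fun d => by positivity) (fun N => ?_)
  have h1 : ∑' d : ℕ, (μ d).toReal * min (d : ℝ) N = ∑ k ∈ range N, tau μ k := trunc_mean μ N
  have h2 : Summable (fun d : ℕ => (μ d).toReal * min (d : ℝ) N) :=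
    summable_of_bdd μ (C := N) (fun d => by positivity) (fun d => min_le_right _ _)
  calc ∑ d ∈ range N, (μ d).toReal * d = ∑ d ∈ range N, (μ d).toReal * min (d : ℝ) N := by
        refine Finset.sum_congr rfl fun d hd => ?_
        rw [Finset.mem_range] at hd
        rw [min_eq_left (by exact_mod_cast hd.le)]
    _ ≤ ∑' d : ℕ, (μ d).toReal * min (d : ℝ) N := h2.sum_le_tsum _ fun d _ => by positivity
    _ = ∑ k ∈ range N, tau μ k := h1
    _ ≤ _ := hτ.sum_le_tsum _ fun k _ => tau_nonneg μ k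

lemma tail_bound (μ : PMF ℕ)
    (hlight : Tendsto (fun x : ℕ => (x : ℝ) ^ 4 * tau μ x) atTop (𝓝 0)) :
    ∃ F₁ : ℕ, ∀ z : ℕ, F₁ ≤ z →
      (z : ℝ) ^ 2 * ∑' d : ℕ, (if z < 64 * d ^ 2 then (μ d).toReal else 0) ≤ 1 / 16 := by
  obtain ⟨x₁, hx₁⟩ := Filter.eventually_atTop.1 (hlight.eventually_le_const
    (show (0 : ℝ) < 1 / 1048576 by norm_num))
  refine ⟨64 * (x₁ + 1) ^ 2, fun z hz => ?_⟩
  set x := Nat.sqrt (z / 64) with hx
  have hx1 : x₁ + 1 ≤ x := by
    rw [hx, Nat.le_sqrt', Nat.le_div_iff_mul_le (by norm_num)]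
    linarith
  have h1 : ∀ d : ℕ, z < 64 * d ^ 2 ↔ x < d := by
    intro d
    rw [hx, Nat.sqrt_lt', Nat.div_lt_iff_lt_mul (by norm_num), mul_comm]
  have h2 : ∑' d : ℕ, (if z < 64 * d ^ 2 then (μ d).toReal else 0) = tau μ x := by
    unfold tau
    refine tsum_congr fun d => ?_
    simp only [h1]
  rw [h2]
  have h3 : z < 64 * (x + 1) ^ 2 := (h1 (x + 1)).2 (by omega)
  have h4 : z ≤ 256 * x ^ 2 := by nlinarith
  have h5 : (z : ℝ) ≤ 256 * (x : ℝ) ^ 2 := by exact_mod_cast h4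
  have h6 : (z : ℝ) ^ 2 ≤ 65536 * (x : ℝ) ^ 4 := by
    calc (z : ℝ) ^ 2 ≤ (256 * (x : ℝ) ^ 2) ^ 2 := pow_le_pow_left₀ (by positivity) h5 2
      _ = _ := by ring
  have h7 := hx₁ x (by omega)
  have h8 := tau_nonneg μ x
  calc (z : ℝ) ^ 2 * tau μ x ≤ 65536 * (x : ℝ) ^ 4 * tau μ x := by gcongr
    _ = 65536 * ((x : ℝ) ^ 4 * tau μ x) := by ring
    _ ≤ 65536 * (1 / 1048576) := by gcongr
    _ = 1 / 16 := by norm_num

variable {Ω : Type*} [MeasurableSpace Ω] {P : Measure Ω} [IsProbabilityMeasure P]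
  {X : ℤ → Ω → ℕ × ℕ}

lemma prob_closed_ge {ν : ℕ × ℕ → ℝ≥0∞} (hX : ∀ i, Measurable (X i)) (hind : iIndepFun X P)
    (hν : ∀ i a, P (X i ⁻¹' {a}) = ν a) (n : ℕ) :
    cw ν n ≤ P {ω | Closed (fun i => X i ω) 1 (n : ℤ)} := by
  classical
  unfold cw
  rw [← measure_eq_Ex hX hind hν (fun k => (k : ℤ) + 1) n (fun i j _ _ h => by
    have : (i : ℤ) + 1 = (j : ℤ) + 1 := h
    omega) CW]
  exact measure_mono fun ω hω => closed_of_CW hω

omit [IsProbabilityMeasure P] in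
lemma ident_of_law {ν : ℕ × ℕ → ℝ≥0∞} (hX : ∀ i, Measurable (X i))
    (hν : ∀ i a, P (X i ⁻¹' {a}) = ν a) : ∀ i j, P.map (X i) = P.map (X j) := by
  intro i j
  refine Measure.ext_of_singleton fun a => ?_
  rw [Measure.map_apply (hX i) (measurableSet_singleton a),
    Measure.map_apply (hX j) (measurableSet_singleton a), hν, hν]

theorem light_no_percolation (μ : PMF ℕ) (h0 : μ 0 = 0)
    (hX : ∀ i, Measurable (X i)) (hind : iIndepFun X P)
    (hν : ∀ i a, P (X i ⁻¹' {a}) = nu μ a)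
    (hlight : Tendsto (fun x : ℕ => (x : ℝ) ^ 4 * tau μ x) atTop (𝓝 0)) :
    ∀ᵐ ω ∂P, ∀ i, {j | (G (fun i => X i ω)).Reachable i j}.Finite := by
  refine no_percolation_of_tsum hX hind (ident_of_law hX hν) ?_
  -- a degree of positive probability
  obtain ⟨d, hd⟩ : ∃ d, μ d ≠ 0 := by
    by_contra h
    push Not at h
    have h1 := μ.tsum_coe
    simp only [h, tsum_zero] at h1
    exact zero_ne_one h1
  have hd1 : 1 ≤ d := by
    rcases Nat.eq_zero_or_pos d with rfl | h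
    · exact absurd h0 hd
    · exact h
  obtain ⟨F₁, hF₁⟩ := tail_bound μ hlight
  set F₀ := 16 * d ^ 2 with hF₀
  set F := F₁ + 2 * F₀ + 1 with hF
  have hgreen := green_sq_top μ h0 (summable_mean μ hlight).hasSum (F₀ := F₀) (F := F)
    (by omega) (by omega) (fun z hz => hF₁ z (by omega)) (T := (F + 1) * d) (by nlinarith)
  have hpos : ∀ a : ℕ × ℕ, a.1 + a.2 = d → nu μ a ≠ 0 := by
    intro a ha
    unfold nu
    rw [ha]
    refine (ENNReal.div_pos (mul_ne_zero hd ?_) (by simp)).ne'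
    have : 0 < d.choose a.2 := Nat.choose_pos (by omega)
    exact_mod_cast this.ne'
  have htop := tsum_cw_eq_top (nu_swap μ) hd1 (le_refl F₀) hpos hgreen
  rw [eq_top_iff, ← htop]
  exact ENNReal.tsum_le_tsum fun e => prob_closed_ge hX hind hν (e.1 + e.2)

end Pool.Agent.W_MP_63dac5_pr
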