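import Mathlib

/-!
# The random direction stable multi-matching: the graph

`T : ℤ → ℝ` lists the points of a configuration on the line, `X i = (L, R)` is the pair
(number of left stubs, number of right stubs) of the point `T i`.
-/

namespace Pool.Agent.W_MP_63dac5_pr

/-- The pairs `(i, j)` (indices of points, `T i < T j`) which are joined in the rounds
`0, 1, …, k - 1` of the procedure.  In round `k` one considers each pair `T i < T j` with exactly
`k` points strictly between them, and joins the two points whenever `T i` still has an unused
right stub (the number of its right edges so far is smaller than `(X i).2`) and `T j` still has an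
unused left stub (the number of its left edges so far is smaller than `(X j).1`). -/
def stage (T : ℤ → ℝ) (X : ℤ → ℕ × ℕ) : ℕ → Set (ℤ × ℤ)
  | 0 => ∅
  | k + 1 => stage T X k ∪
      {e | T e.1 < T e.2 ∧ {m | T e.1 < T m ∧ T m < T e.2}.encard = k ∧
        {j | (e.1, j) ∈ stage T X k}.ncard < (X e.1).2 ∧
        {i | (i, e.2) ∈ stage T X k}.ncard < (X e.2).1}

/-- The graph produced by the procedure, on the index set of the points. -/
def graph (T : ℤ → ℝ) (X : ℤ → ℕ × ℕ) : SimpleGraph ℤ :=
  SimpleGraph.fromRel (fun i j => ∃ k, (i, j) ∈ stage T X k)

end Pool.Agent.W_MP_63dac5_pr
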