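import Pool.Agent.W_MP_63dac5_pr.Graph2
import Pool.Agent.W_MP_63dac5_pr.Prob

/-!
# Closed words: the stack of unused right stubs
-/

namespace Pool.Agent.W_MP_63dac5_pr

/-- The topmost `l` nonzero entries lose one unit. -/
def serve : ℕ → List ℕ → List ℕ
  | 0, u => u
  | _ + 1, [] => []
  | l + 1, 0 :: t => 0 :: serve (l + 1) t
  | l + 1, (k + 1) :: t => k :: serve l t

lemma serve_zero (u : List ℕ) : serve 0 u = u := by
  cases u <;> simp [serve]

/-- number of nonzero entries. -/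
def nz : List ℕ → ℕ
  | [] => 0
  | 0 :: t => nz t
  | (_ + 1) :: t => nz t + 1

/-- the new point puts its right stubs on the top. -/
def stp (u : List ℕ) (a : ℕ × ℕ) : List ℕ := a.2 :: serve a.1 u

/-- process a word. -/
def run : List ℕ → List (ℕ × ℕ) → List ℕ
  | u, [] => u
  | u, a :: w => run (stp u a) w

/-- all left stubs can be matched. -/
def okrun : List ℕ → List (ℕ × ℕ) → Prop
  | _, [] => True
  | u, a :: w => a.1 ≤ nz u ∧ okrun (stp u a) w

lemma run_append (u : List ℕ) (w w' : List (ℕ × ℕ)) : run u (w ++ w') = run (run u w) w' := by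
  induction w generalizing u with
  | nil => rfl
  | cons a w ih => simp only [List.cons_append, run, ih]

lemma okrun_append (u : List ℕ) (w w' : List (ℕ × ℕ)) :
    okrun u (w ++ w') ↔ okrun u w ∧ okrun (run u w) w' := by
  induction w generalizing u with
  | nil => simp [okrun, run]
  | cons a w ih => simp only [List.cons_append, okrun, run, ih, and_assoc]

/-! ### relation with the graph -/

/-- unused right stubs of the points `m, m - 1, …, 1` in `[·, n]`. -/
noncomputable def Ua (x : ℤ → ℕ × ℕ) (n : ℕ) : ℕ → List ℕ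
  | 0 => []
  | m + 1 => ((x ((m : ℤ) + 1)).2 - rc x ((m : ℤ) + 1) n) :: Ua x n m

lemma Ua_step (x : ℤ → ℕ × ℕ) (n m : ℕ) (hm : m ≤ n) :
    Ua x (n + 1) m = serve ((x ((n : ℤ) + 1)).1 - lc x ((m : ℤ) + 1) ((n : ℤ) + 1)) (Ua x n m) := by
  classical
  induction m with
  | zero =>
    simp only [Ua]
    cases ((x ((n : ℤ) + 1)).1 - lc x (((0 : ℕ) : ℤ) + 1) ((n : ℤ) + 1)) <;> rfl
  | succ m ih =>
    have ih' := ih (by omega)
    simp only [Ua]
    rw [ih']
    have h1 : rc x ((m : ℤ) + 1) ((n : ℤ) + 1) = rc x ((m : ℤ) + 1) n +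
        (if E x ((m : ℤ) + 1) ((n : ℤ) + 1) then 1 else 0) := rc_succ x (by omega)
    have h2 : lc x ((m : ℤ) + 1) ((n : ℤ) + 1) = lc x ((m : ℤ) + 1 + 1) ((n : ℤ) + 1) +
        (if E x ((m : ℤ) + 1) ((n : ℤ) + 1) then 1 else 0) := lc_pred x (by omega)
    have h3 := E_iff x (i := (m : ℤ) + 1) (j := (n : ℤ) + 1) (by omega)
    rw [show (n : ℤ) + 1 - 1 = n by ring] at h3
    push_cast
    rw [h1, h2]
    by_cases hE : E x ((m : ℤ) + 1) ((n : ℤ) + 1)
    · rw [if_pos hE]
      obtain ⟨h4, h5⟩ := h3.1 hE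
      obtain ⟨e, he⟩ : ∃ e, (x ((m : ℤ) + 1)).2 - rc x ((m : ℤ) + 1) n = e + 1 :=
        ⟨(x ((m : ℤ) + 1)).2 - rc x ((m : ℤ) + 1) n - 1, by omega⟩
      obtain ⟨s, hs⟩ : ∃ s, (x ((n : ℤ) + 1)).1 - lc x ((m : ℤ) + 1 + 1) ((n : ℤ) + 1) = s + 1 :=
        ⟨(x ((n : ℤ) + 1)).1 - lc x ((m : ℤ) + 1 + 1) ((n : ℤ) + 1) - 1, by omega⟩
      rw [he, hs]
      have e1 : (x ((m : ℤ) + 1)).2 - (rc x ((m : ℤ) + 1) n + 1) = e := by omega
      have e2 : (x ((n : ℤ) + 1)).1 - (lc x ((m : ℤ) + 1 + 1) ((n : ℤ) + 1) + 1) = s := by omega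
      rw [e1, e2]
      rfl
    · rw [if_neg hE]
      simp only [add_zero]
      have h6 : ¬ (rc x ((m : ℤ) + 1) n < (x ((m : ℤ) + 1)).2 ∧
        lc x ((m : ℤ) + 1 + 1) ((n : ℤ) + 1) < (x ((n : ℤ) + 1)).1) := fun h => hE (h3.2 h)
      by_cases h7 : rc x ((m : ℤ) + 1) n < (x ((m : ℤ) + 1)).2
      · have h8 : (x ((n : ℤ) + 1)).1 - lc x ((m : ℤ) + 1 + 1) ((n : ℤ) + 1) = 0 := by
          have : ¬ lc x ((m : ℤ) + 1 + 1) ((n : ℤ) + 1) < (x ((n : ℤ) + 1)).1 :=
            fun h => h6 ⟨h7, h⟩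
          omega
        rw [h8, serve_zero, serve_zero]
      · have h8 : (x ((m : ℤ) + 1)).2 - rc x ((m : ℤ) + 1) n = 0 := by omega
        rw [h8]
        cases ((x ((n : ℤ) + 1)).1 - lc x ((m : ℤ) + 1 + 1) ((n : ℤ) + 1)) with
        | zero => rw [serve_zero, serve_zero]
        | succ s => rfl

lemma Ua_lc (x : ℤ → ℕ × ℕ) (n m : ℕ) (hm : m ≤ n) :
    (x ((n : ℤ) + 1)).1 - lc x 1 ((n : ℤ) + 1) =
      (x ((n : ℤ) + 1)).1 - lc x ((m : ℤ) + 1) ((n : ℤ) + 1) - nz (Ua x n m) := by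
  classical
  induction m with
  | zero => simp [Ua, nz]
  | succ m ih =>
    rw [ih (by omega)]
    simp only [Ua]
    have h2 : lc x ((m : ℤ) + 1) ((n : ℤ) + 1) = lc x ((m : ℤ) + 1 + 1) ((n : ℤ) + 1) +
        (if E x ((m : ℤ) + 1) ((n : ℤ) + 1) then 1 else 0) := lc_pred x (by omega)
    have h3 := E_iff x (i := (m : ℤ) + 1) (j := (n : ℤ) + 1) (by omega)
    rw [show (n : ℤ) + 1 - 1 = n by ring] at h3
    push_cast
    rw [h2]
    by_cases h7 : rc x ((m : ℤ) + 1) n < (x ((m : ℤ) + 1)).2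
    · obtain ⟨e, he⟩ : ∃ e, (x ((m : ℤ) + 1)).2 - rc x ((m : ℤ) + 1) n = e + 1 :=
        ⟨(x ((m : ℤ) + 1)).2 - rc x ((m : ℤ) + 1) n - 1, by omega⟩
      rw [he]
      simp only [nz]
      by_cases h8 : lc x ((m : ℤ) + 1 + 1) ((n : ℤ) + 1) < (x ((n : ℤ) + 1)).1
      · rw [if_pos (h3.2 ⟨h7, h8⟩)]
        omega
      · rw [if_neg (fun h => h8 (h3.1 h).2)]
        omega
    · have h8 : (x ((m : ℤ) + 1)).2 - rc x ((m : ℤ) + 1) n = 0 := by omega
      rw [h8, if_neg (fun h => h7 (h3.1 h).1)]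
      simp only [nz]
      omega

lemma Ua_succ (x : ℤ → ℕ × ℕ) (n : ℕ) :
    Ua x (n + 1) (n + 1) = stp (Ua x n n) (x ((n : ℤ) + 1)) := by
  simp only [Ua]
  rw [Ua_step x n n le_rfl]
  unfold stp
  congr 1
  · rw [rc_of_le x (by push_cast; omega)]
    simp
  · rw [lc_of_le x le_rfl]
    simp

lemma Ua_eq_run (x : ℤ → ℕ × ℕ) (n : ℕ) :
    Ua x n n = run [] (pre (fun k => x ((k : ℤ) + 1)) n) := by
  induction n with
  | zero => rfl
  | succ n ih =>
    rw [pre_add _ n 1, run_append, ← ih, Ua_succ]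
    simp only [pre, run]
    congr 2

lemma okrun_lc (x : ℤ → ℕ × ℕ) (n : ℕ) (h : okrun [] (pre (fun k => x ((k : ℤ) + 1)) n)) :
    ∀ i : ℤ, 1 ≤ i → i ≤ n → lc x 1 i = (x i).1 := by
  induction n with
  | zero => intro i h1 h2; push_cast at h2; omega
  | succ n ih =>
    rw [pre_add _ n 1, okrun_append] at h
    obtain ⟨h1, h2⟩ := h
    simp only [pre, okrun, and_true, add_zero] at h2
    intro i hi1 hi2
    by_cases hi : i ≤ n
    · exact ih h1 i hi1 hi
    · have hi3 : i = (n : ℤ) + 1 := by push_cast at hi2; omega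
      subst hi3
      rw [← Ua_eq_run] at h2
      have h3 := Ua_lc x n n le_rfl
      have h4 := lc_le x 1 ((n : ℤ) + 1)
      omega

lemma Ua_zero {x : ℤ → ℕ × ℕ} {n m : ℕ} (h : ∀ e ∈ Ua x n m, e = 0) :
    ∀ i : ℤ, 1 ≤ i → i ≤ m → rc x i n = (x i).2 := by
  induction m with
  | zero => intro i h1 h2; push_cast at h2; omega
  | succ m ih =>
    intro i hi1 hi2
    by_cases hi : i ≤ m
    · exact ih (fun e he => h e (List.mem_cons_of_mem _ he)) i hi1 hi
    · have hi3 : i = (m : ℤ) + 1 := by push_cast at hi2; omega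
      subst hi3
      have h1 := h ((x ((m : ℤ) + 1)).2 - rc x ((m : ℤ) + 1) n) (by simp [Ua])
      have h2 := rc_le x ((m : ℤ) + 1) n
      omega

/-- a word all of whose stubs are used. -/
def CW (w : List (ℕ × ℕ)) : Prop := okrun [] w ∧ (run [] w).sum = 0

lemma closed_of_CW {x : ℤ → ℕ × ℕ} {n : ℕ} (h : CW (pre (fun k => x ((k : ℤ) + 1)) n)) :
    Closed x 1 n := by
  obtain ⟨h1, h2⟩ := h
  rw [← Ua_eq_run] at h2
  have h3 : ∀ e ∈ Ua x n n, e = 0 := by
    intro e he
    have := List.single_le_sum (by simp) e he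
    omega
  intro i hi1 hi2
  exact ⟨Ua_zero h3 i hi1 hi2, okrun_lc x n h1 i hi1 hi2⟩

/-! ### serving -/

lemma nz_pos {u : List ℕ} (h : 1 ≤ u.sum) : 1 ≤ nz u := by
  induction u with
  | nil => simp at h
  | cons a t ih =>
    cases a with
    | zero => simp only [nz]; exact ih (by simpa using h)
    | succ a => simp only [nz]; omega

lemma serve_one_sum {u : List ℕ} (h : 1 ≤ u.sum) : (serve 1 u).sum + 1 = u.sum := by
  induction u with
  | nil => simp at h
  | cons a t ih =>
    cases a with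
    | zero =>
      simp only [serve, List.sum_cons, zero_add]
      exact ih (by simpa using h)
    | succ a =>
      simp only [serve, List.sum_cons]
      omega

/-- The invariant of the stack. -/
def Inv (d : ℕ) : List ℕ → Prop
  | [] => True
  | a :: t => a ^ 2 ≤ a + t.sum + d ^ 2 ∧ Inv d t

/-- The key lemma on serving. -/
lemma serve_inv {d : ℕ} (hd : 1 ≤ d) {u : List ℕ} {l : ℕ} (hI : Inv d u)
    (hl : l ^ 2 + (d + 1) * l ≤ u.sum) :
    l ≤ nz u ∧ Inv d (serve l u) ∧ (serve l u).sum + l = u.sum := by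
  induction u generalizing l with
  | nil =>
    have : l = 0 := by
      by_contra h
      have h1 : 1 ≤ l := Nat.one_le_iff_ne_zero.2 h
      simp only [List.sum_nil] at hl
      nlinarith
    subst this
    exact ⟨le_rfl, hI, rfl⟩
  | cons a t ih =>
    obtain ⟨h1, h2⟩ := hI
    cases l with
    | zero => exact ⟨Nat.zero_le _, ⟨h1, h2⟩, rfl⟩
    | succ l =>
      cases a with
      | zero =>
        simp only [serve, nz, List.sum_cons, zero_add] at hl ⊢
        obtain ⟨h3, h4, h5⟩ := ih h2 hl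
        refine ⟨h3, ⟨by simp, h4⟩, h5⟩
      | succ a =>
        simp only [List.sum_cons] at hl
        have h3 : l ^ 2 + (d + 1) * l ≤ t.sum := by
          by_contra hcon
          push Not at hcon
          -- `a` is large
          have h4 : 2 * l + d + 2 ≤ a + 1 := by nlinarith
          nlinarith
        obtain ⟨h4, h5, h6⟩ := ih h2 h3
        simp only [serve, nz, List.sum_cons]
        refine ⟨by omega, ⟨?_, h5⟩, by omega⟩
        by_cases h7 : l + 1 ≤ 2 * a + 1
        · nlinarith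
        · push Not at h7
          have h8 : a ≤ l := by omega
          nlinarith

/-! ### the three parts of the words -/

lemma run_start (d k : ℕ) (u : List ℕ) :
    run u (List.replicate k (0, d)) = List.replicate k d ++ u ∧
      okrun u (List.replicate k (0, d)) := by
  induction k generalizing u with
  | zero => exact ⟨rfl, trivial⟩
  | succ k ih =>
    have e : stp u (0, d) = d :: u := by simp [stp, serve]
    obtain ⟨h1, h2⟩ := ih (d :: u)
    rw [List.replicate_succ]
    simp only [run, okrun]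
    rw [e]
    refine ⟨?_, Nat.zero_le _, h2⟩
    rw [h1, List.replicate_succ']
    simp

lemma inv_start (d k : ℕ) : Inv d (List.replicate k d) := by
  induction k with
  | zero => trivial
  | succ k ih =>
    rw [List.replicate_succ]
    exact ⟨by omega, ih⟩

/-- the closing pattern. -/
def Vw (d : ℕ) : ℕ → List (ℕ × ℕ)
  | 0 => []
  | t + 1 => Vw d t ++ [(t + 1, d - 1 - t)]

lemma Vw_length (d t : ℕ) : (Vw d t).length = t := by
  induction t with
  | zero => rfl
  | succ t ih => simp [Vw, ih]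

lemma serve_replicate (t e : ℕ) (l : ℕ) (w : List ℕ) :
    serve (t + l) (List.replicate t (e + 1) ++ w) = List.replicate t e ++ serve l w := by
  induction t generalizing l with
  | zero => simp
  | succ t ih =>
    rw [show t + 1 + l = (t + l) + 1 by ring]
    simp only [List.replicate_succ, List.cons_append, serve, ih]

lemma nz_replicate (t e : ℕ) (w : List ℕ) :
    nz (List.replicate t (e + 1) ++ w) = t + nz w := by
  induction t with
  | zero => simp
  | succ t ih =>
    simp only [List.replicate_succ, List.cons_append, nz, ih]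
    ring

lemma iterate_serve_sum {u : List ℕ} {t : ℕ} (h : t ≤ u.sum) :
    ((serve 1)^[t] u).sum + t = u.sum := by
  induction t with
  | zero => rfl
  | succ t ih =>
    have h1 := ih (by omega)
    rw [Function.iterate_succ_apply']
    have h2 := serve_one_sum (u := (serve 1)^[t] u) (by omega)
    omega

lemma run_Vw {d : ℕ} {u : List ℕ} {t : ℕ} (ht : t ≤ d) (hu : t ≤ u.sum) :
    run u (Vw d t) = List.replicate t (d - t) ++ (serve 1)^[t] u ∧ okrun u (Vw d t) := by
  induction t with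
  | zero => exact ⟨by simp [Vw, run], trivial⟩
  | succ t ih =>
    obtain ⟨h1, h2⟩ := ih (by omega) (by omega)
    have e : d - t = (d - (t + 1)) + 1 := by omega
    have h3 := iterate_serve_sum (u := u) (t := t) (by omega)
    simp only [Vw]
    rw [run_append, okrun_append, h1, e]
    simp only [run, okrun, stp, and_true]
    rw [serve_replicate, nz_replicate, Function.iterate_succ_apply']
    refine ⟨?_, h2, ?_⟩
    · rw [List.replicate_succ, List.cons_append]
      congr 1
      omega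
    · have := nz_pos (u := (serve 1)^[t] u) (by omega)
      omega

/-- the closing word. -/
def Vk (d : ℕ) : ℕ → List (ℕ × ℕ)
  | 0 => []
  | k + 1 => Vw d d ++ Vk d k

lemma Vk_length (d k : ℕ) : (Vk d k).length = k * d := by
  induction k with
  | zero => simp [Vk]
  | succ k ih =>
    simp only [Vk, List.length_append, Vw_length, ih]
    ring

lemma run_Vk {d : ℕ} {u : List ℕ} {k : ℕ} (hu : u.sum = k * d) :
    (run u (Vk d k)).sum = 0 ∧ okrun u (Vk d k) := by
  induction k generalizing u with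
  | zero => exact ⟨by simpa [Vk, run] using hu, trivial⟩
  | succ k ih =>
    have h0 : d ≤ u.sum := by rw [hu]; nlinarith
    obtain ⟨h1, h2⟩ := run_Vw (le_refl d) h0
    have h3 := iterate_serve_sum h0
    have h4 : (run u (Vw d d)).sum = k * d := by
      rw [h1]
      simp only [List.sum_append, Nat.sub_self, List.sum_replicate, smul_zero, zero_add]
      have : (k + 1) * d = k * d + d := by ring
      omega
    obtain ⟨h5, h6⟩ := ih h4
    simp only [Vk]
    rw [run_append, okrun_append]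
    exact ⟨h5, h2, h6⟩

/-! ### the middle part -/

/-- an allowed step of the height. -/
def Alw (F z : ℕ) (a : ℕ × ℕ) : Prop :=
  F ≤ z ∧ 16 * a.1 ^ 2 ≤ z ∧ F ≤ z - a.1 + a.2 ∧ 16 * a.2 ^ 2 ≤ z - a.1 + a.2

/-- the height after a word. -/
def hgt : ℕ → List (ℕ × ℕ) → ℕ
  | z, [] => z
  | z, a :: w => hgt (z - a.1 + a.2) w

/-- all steps are allowed. -/
def GP (F : ℕ) : ℕ → List (ℕ × ℕ) → Prop
  | _, [] => True
  | z, a :: w => Alw F z a ∧ GP F (z - a.1 + a.2) w

lemma Alw.le {F z : ℕ} {a : ℕ × ℕ} (h : Alw F z a) : a.1 ≤ z := by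
  obtain ⟨-, h, -⟩ := h
  nlinarith

lemma Alw.serve {F d z : ℕ} (hd : 1 ≤ d) (hF : 16 * d ^ 2 ≤ F) {a : ℕ × ℕ} (h : Alw F z a) :
    a.1 ^ 2 + (d + 1) * a.1 ≤ z := by
  obtain ⟨h1, h2, -⟩ := h
  have h3 : (d + 1) * a.1 ≤ 2 * d * a.1 := Nat.mul_le_mul_right _ (by omega)
  nlinarith [sq_nonneg ((d : ℤ) - a.1), Nat.pow_le_pow_left (show 0 ≤ d by omega) 2,
    two_mul_le_add_sq d a.1]

lemma run_GP {F d : ℕ} (hd : 1 ≤ d) (hF : 16 * d ^ 2 ≤ F) {w : List (ℕ × ℕ)} {u : List ℕ}
    (hI : Inv d u) (hG : GP F u.sum w) :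
    okrun u w ∧ Inv d (run u w) ∧ (run u w).sum = hgt u.sum w := by
  induction w generalizing u with
  | nil => exact ⟨trivial, hI, rfl⟩
  | cons a w ih =>
    obtain ⟨h1, h2⟩ := hG
    obtain ⟨h3, h4, h5⟩ := serve_inv hd hI (h1.serve hd hF)
    have h6 : (stp u a).sum = u.sum - a.1 + a.2 := by
      simp only [stp, List.sum_cons]
      omega
    have h7 : Inv d (stp u a) := by
      refine ⟨?_, h4⟩
      obtain ⟨-, -, -, h8⟩ := h1
      have h9 : a.2 + (Pool.Agent.W_MP_63dac5_pr.serve a.1 u).sum = u.sum - a.1 + a.2 := by omega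
      rw [h9]
      nlinarith
    obtain ⟨h8, h9, h10⟩ := ih h7 (by rw [h6]; exact h2)
    simp only [okrun, run, hgt]
    refine ⟨⟨h3, h8⟩, h9, ?_⟩
    rw [h10, h6]

/-- The closed words. -/
lemma CW_word {F d k : ℕ} (hd : 1 ≤ d) (hF : 16 * d ^ 2 ≤ F) {w : List (ℕ × ℕ)}
    (hG : GP F (k * d) w) (hh : hgt (k * d) w = k * d) :
    CW (List.replicate k (0, d) ++ (w ++ Vk d k)) := by
  obtain ⟨h1, h2⟩ := run_start d k []
  rw [List.append_nil] at h1
  have hs : (List.replicate k d).sum = k * d := by simp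
  obtain ⟨h3, h4, h5⟩ := run_GP hd hF (u := List.replicate k d) (inv_start d k)
    (by rw [hs]; exact hG)
  rw [hs, hh] at h5
  obtain ⟨h6, h7⟩ := run_Vk h5
  unfold CW
  rw [run_append, run_append, okrun_append, okrun_append, h1]
  exact ⟨⟨h2, h3, h7⟩, h6⟩

end Pool.Agent.W_MP_63dac5_pr
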